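import Pool.Agent.H44.LC.Game

set_option autoImplicit false

open Set Filter Topology

namespace H44LC

noncomputable section

lemma W_neg {t : ℝ} (h : t ≤ 0) : W t = 0 := by
  rcases h.eq_or_lt with h | h
  · rw [h, W_zero]
  · unfold W
    rw [dif_neg (not_le.2 h)]

lemma W_mono' {t t' : ℝ} (h : t ≤ t') : W t ≤ W t' := by
  rcases le_total 0 t with h0 | h0
  · exact W_mono h0 h
  · rw [W_neg h0]; exact W_nonneg _

lemma W_sub_le' {t t' : ℝ} (h : t ≤ t') : W t' - W t ≤ t' - t := by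
  rcases le_total 0 t with h0 | h0
  · exact W_sub_le h0 h
  · rw [W_neg h0]
    rcases le_total 0 t' with h1 | h1
    · have := W_le h1; linarith
    · rw [W_neg h1]; linarith

/-! ### The delay function -/

def rr (x : X) : ℝ := min 1 (Metric.infDist x HH)

lemma rr_nonneg (x : X) : 0 ≤ rr x := le_min zero_le_one Metric.infDist_nonneg
lemma rr_le_one (x : X) : rr x ≤ 1 := min_le_left _ _
lemma rr_le (x : X) : rr x ≤ Metric.infDist x HH := min_le_right _ _
lemma rr_pos {x : X} (hx : x ∉ HH) : 0 < rr x := lt_min one_pos (infDist_pos hx)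
lemma rr_zero {x : X} (hx : x ∈ HH) : rr x = 0 := by
  unfold rr
  rw [Metric.infDist_zero_of_mem hx]
  exact min_eq_right zero_le_one

lemma rr_lip (x y : X) : rr x - rr y ≤ dist x y := by
  unfold rr
  have h1 : Metric.infDist x HH ≤ Metric.infDist y HH + dist x y :=
    Metric.infDist_le_infDist_add_dist
  have h0 : 0 ≤ dist x y := dist_nonneg
  rcases min_choice 1 (Metric.infDist y HH) with h2 | h2
  · rw [h2]
    have := min_le_left 1 (Metric.infDist x HH)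
    linarith
  · rw [h2]
    have := min_le_right 1 (Metric.infDist x HH)
    linarith

def Eh (ee : ℝ) (x : X) (θ : ℝ) : ℝ := ee * (max (θ - (lift x).s) 0) ^ 2 * rr x

lemma Eh_nonneg {ee : ℝ} (h : 0 < ee) (x : X) (θ : ℝ) : 0 ≤ Eh ee x θ := by
  have := rr_nonneg x
  unfold Eh
  positivity

lemma phi_le {B θ : ℝ} (h0 : 0 ≤ θ) (h : θ ≤ B) (x : X) : max (θ - (lift x).s) 0 ≤ B := by
  apply max_le
  · have := (lift x).s_nonneg; linarith
  · linarith

lemma Eh_lip_aux {ee B θ : ℝ} (he : 0 < ee) (h1 : ee * (B ^ 2 + 2 * B) ≤ 1 / 2) (h0 : 0 ≤ θ)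
    (hθ : θ ≤ B) {x y : X} (hx : x ∉ HH) (hy : y ∉ HH)
    (hd : dist (lift x) (lift y) ≤ dist x y) :
    Eh ee x θ - Eh ee y θ ≤ dist x y / 2 := by
  set d := dist x y with hdd
  have hd0 : 0 ≤ d := dist_nonneg
  set φ := max (θ - (lift x).s) 0 with hφ
  set ψ := max (θ - (lift y).s) 0 with hψ
  have hφB : φ ≤ B := phi_le h0 hθ x
  have hψB : ψ ≤ B := phi_le h0 hθ y
  have hφ0 : 0 ≤ φ := le_max_right _ _
  have hψ0 : 0 ≤ ψ := le_max_right _ _
  have hB : 0 ≤ B := h0.trans hθ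
  have hs := abs_le.1 ((abs_s_le (lift x) (lift y)).trans hd)
  have hφψ : φ ≤ ψ + d := by
    rw [hφ]
    apply max_le
    · have := le_max_left (θ - (lift y).s) 0
      rw [hψ]
      linarith
    · linarith
  have hr := rr_lip x y
  have hr0 := rr_nonneg y
  have hr1 := rr_le_one y
  have hrx := rr_nonneg x
  have key : φ ^ 2 * rr x - ψ ^ 2 * rr y ≤ (B ^ 2 + 2 * B) * d := by
    have e : φ ^ 2 * rr x - ψ ^ 2 * rr y = φ ^ 2 * (rr x - rr y) + (φ ^ 2 - ψ ^ 2) * rr y := by ring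
    rw [e]
    have h2 : φ ^ 2 * (rr x - rr y) ≤ B ^ 2 * d := by
      calc φ ^ 2 * (rr x - rr y) ≤ φ ^ 2 * d := by
            apply mul_le_mul_of_nonneg_left hr (by positivity)
        _ ≤ B ^ 2 * d := by
            apply mul_le_mul_of_nonneg_right _ hd0
            exact pow_le_pow_left₀ hφ0 hφB 2
    have h3 : φ ^ 2 - ψ ^ 2 ≤ 2 * B * d := by
      rcases le_total φ ψ with h4 | h4
      · have : φ ^ 2 ≤ ψ ^ 2 := pow_le_pow_left₀ hφ0 h4 2
        have : 0 ≤ 2 * B * d := by positivity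
        linarith
      · have h5 : φ ^ 2 - ψ ^ 2 = (φ - ψ) * (φ + ψ) := by ring
        rw [h5]
        calc (φ - ψ) * (φ + ψ) ≤ d * (2 * B) := by
              apply mul_le_mul <;> linarith
          _ = 2 * B * d := by ring
    have h4 : (φ ^ 2 - ψ ^ 2) * rr y ≤ 2 * B * d := by
      have h5 : 0 ≤ 2 * B * d := by positivity
      calc (φ ^ 2 - ψ ^ 2) * rr y ≤ (2 * B * d) * rr y := mul_le_mul_of_nonneg_right h3 hr0
        _ ≤ 2 * B * d := by nlinarith
    nlinarith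
  have e2 : Eh ee x θ - Eh ee y θ = ee * (φ ^ 2 * rr x - ψ ^ 2 * rr y) := by
    unfold Eh; ring
  rw [e2]
  calc ee * (φ ^ 2 * rr x - ψ ^ 2 * rr y) ≤ ee * ((B ^ 2 + 2 * B) * d) :=
        mul_le_mul_of_nonneg_left key he.le
    _ = (ee * (B ^ 2 + 2 * B)) * d := by ring
    _ ≤ 1 / 2 * d := mul_le_mul_of_nonneg_right h1 hd0
    _ = d / 2 := by ring

lemma Eh_lip {ee B θ : ℝ} (he : 0 < ee) (h1 : ee * (B ^ 2 + 2 * B) ≤ 1 / 2) (h0 : 0 ≤ θ)
    (hθ : θ ≤ B) (x y : X) : Eh ee x θ - Eh ee y θ ≤ dist x y / 2 := by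
  have hB : 0 ≤ B := h0.trans hθ
  by_cases hx : x ∈ HH
  · have : Eh ee x θ = 0 := by unfold Eh; rw [rr_zero hx]; ring
    have := Eh_nonneg he y θ
    have : 0 ≤ dist x y := dist_nonneg
    linarith
  · by_cases hd : dist x y < Metric.infDist x HH
    · have hy : y ∉ HH := fun hy => by
        have := Metric.infDist_le_dist_of_mem (x := x) hy
        linarith
      exact Eh_lip_aux he h1 h0 hθ hx hy (lift_dist hx hy hd).le
    · push Not at hd
      have h2 : rr x ≤ dist x y := (rr_le x).trans hd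
      have h3 := Eh_nonneg he y θ
      have h4 : Eh ee x θ ≤ (ee * B ^ 2) * rr x := by
        unfold Eh
        apply mul_le_mul_of_nonneg_right _ (rr_nonneg x)
        apply mul_le_mul_of_nonneg_left _ he.le
        exact pow_le_pow_left₀ (le_max_right _ _) (phi_le h0 hθ x) 2
      have h5 : ee * B ^ 2 ≤ 1 / 2 := by
        have : 0 ≤ ee * (2 * B) := by positivity
        nlinarith
      have h6 := rr_nonneg x
      have h7 : 0 ≤ dist x y := dist_nonneg
      have h8 : 0 ≤ ee * B ^ 2 := by positivity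
      nlinarith

lemma Eh_mono {ee θ θ' : ℝ} (he : 0 < ee) (h : θ ≤ θ') (x : X) : Eh ee x θ ≤ Eh ee x θ' := by
  unfold Eh
  apply mul_le_mul_of_nonneg_right _ (rr_nonneg x)
  apply mul_le_mul_of_nonneg_left _ he.le
  apply pow_le_pow_left₀ (le_max_right _ _)
  exact max_le_max (by linarith) le_rfl

lemma Eh_lipt {ee B θ θ' : ℝ} (he : 0 < ee) (h1 : ee * (B ^ 2 + 2 * B) ≤ 1 / 2) (h0 : 0 ≤ θ)
    (h : θ ≤ θ') (hθ : θ' ≤ B) (x : X) : Eh ee x θ' - Eh ee x θ ≤ (θ' - θ) / 2 := by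
  set φ := max (θ - (lift x).s) 0 with hφ
  set ψ := max (θ' - (lift x).s) 0 with hψ
  have hφB : φ ≤ B := phi_le h0 (h.trans hθ) x
  have hψB : ψ ≤ B := phi_le (h0.trans h) hθ x
  have hφ0 : 0 ≤ φ := le_max_right _ _
  have hψ0 : 0 ≤ ψ := le_max_right _ _
  have hB : 0 ≤ B := h0.trans (h.trans hθ)
  have hd : ψ - φ ≤ θ' - θ := by
    have : ψ ≤ φ + (θ' - θ) := by
      rw [hψ]
      apply max_le
      · have := le_max_left (θ - (lift x).s) 0
        rw [hφ]; linarith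
      · linarith
    linarith
  have hd0 : φ ≤ ψ := max_le_max (by linarith) le_rfl
  have key : ψ ^ 2 - φ ^ 2 ≤ 2 * B * (θ' - θ) := by
    have e : ψ ^ 2 - φ ^ 2 = (ψ - φ) * (ψ + φ) := by ring
    rw [e]
    calc (ψ - φ) * (ψ + φ) ≤ (θ' - θ) * (2 * B) := by
          apply mul_le_mul <;> linarith
      _ = 2 * B * (θ' - θ) := by ring
  have hr0 := rr_nonneg x
  have hr1 := rr_le_one x
  have e2 : Eh ee x θ' - Eh ee x θ = (ee * (ψ ^ 2 - φ ^ 2)) * rr x := by
    unfold Eh; ring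
  rw [e2]
  have h5 : ee * (2 * B) ≤ 1 / 2 := by
    have : 0 ≤ ee * B ^ 2 := by positivity
    nlinarith
  have h6 : ee * (ψ ^ 2 - φ ^ 2) ≤ (θ' - θ) / 2 := by
    calc ee * (ψ ^ 2 - φ ^ 2) ≤ ee * (2 * B * (θ' - θ)) := mul_le_mul_of_nonneg_left key he.le
      _ = (ee * (2 * B)) * (θ' - θ) := by ring
      _ ≤ 1 / 2 * (θ' - θ) := mul_le_mul_of_nonneg_right h5 (by linarith)
      _ = _ := by ring
  have h7 : 0 ≤ ee * (ψ ^ 2 - φ ^ 2) := by
    have : φ ^ 2 ≤ ψ ^ 2 := pow_le_pow_left₀ hφ0 hd0 2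
    have : 0 ≤ ψ ^ 2 - φ ^ 2 := by linarith
    positivity
  nlinarith

/-! ### Setup -/

structure Setup where
  p : Z
  hp : p ∉ AZ
  ee : ℝ
  he : 0 < ee
  h1 : ee * ((1 + p.c.y) ^ 2 + 2 * (1 + p.c.y)) ≤ 1 / 2
  h2 : 2 * ((1 + p.c.y) + 2) * ee * (1 + p.c.y) ≤ 1
  h3 : 12 * ((1 + p.c.y) + 4) * ee ≤ al / (1 + (1 + p.c.y)) ^ 4

namespace Setup

variable (S : Setup)

def B : ℝ := 1 + S.p.c.y
def x0 : X := X.off S.p S.hp
def D0 : ℝ := Eh S.ee S.x0 S.B
def Th (t : ℝ) : ℝ := W (A S.B - (t - S.D0))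

lemma B_ge : 1 ≤ S.B := by
  have := S.p.c.hy
  unfold B; linarith

lemma B_nonneg : 0 ≤ S.B := zero_le_one.trans S.B_ge

lemma x0_notMem : S.x0 ∉ HH := off_notMem _

lemma ps_lt : S.p.s < S.B := off_bounds S.hp

lemma D0_pos : 0 < S.D0 := by
  unfold D0 Eh
  have h1 : 0 < max (S.B - (lift S.x0).s) 0 := by
    apply lt_max_of_lt_left
    have : (lift S.x0).s = S.p.s := rfl
    rw [this]
    linarith [S.ps_lt]
  have h2 := rr_pos S.x0_notMem
  have := S.he
  positivity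

lemma Th_nonneg (t : ℝ) : 0 ≤ S.Th t := W_nonneg _

lemma Th_anti {t t' : ℝ} (h : t ≤ t') : S.Th t' ≤ S.Th t := W_mono' (by linarith)

lemma Th_lip {t t' : ℝ} (h : t ≤ t') : S.Th t - S.Th t' ≤ t' - t := by
  have := W_sub_le' (t := A S.B - (t' - S.D0)) (t' := A S.B - (t - S.D0)) (by linarith)
  unfold Th
  linarith

lemma Th_D0 : S.Th S.D0 = S.B := by
  unfold Th
  rw [sub_self, sub_zero, W_A S.B_nonneg]

lemma Th_le {t : ℝ} (h : S.D0 ≤ t) : S.Th t ≤ S.B := by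
  rw [← S.Th_D0]; exact S.Th_anti h

lemma A_Th {t : ℝ} (h : t ≤ S.D0 + A S.B) : A (S.Th t) = A S.B - (t - S.D0) := by
  unfold Th
  exact A_W (by linarith)

lemma Th_end : S.Th (S.D0 + A S.B) = 0 := by
  unfold Th
  rw [show A S.B - (S.D0 + A S.B - S.D0) = 0 by ring, W_zero]

/-! ### The delayed time -/

/-- Admissible Christian paths. -/
def Adm (g : ℝ → X) : Prop := LL g ∧ g 0 = S.x0

lemma exists_sg {g : ℝ → X} (hg : S.Adm g) {t : ℝ} (ht : S.D0 ≤ t) :
    ∃ σ, 0 ≤ σ ∧ σ ≤ t ∧ σ + Eh S.ee (g σ) (S.Th t) = t := by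
  have ht0 : 0 ≤ t := S.D0_pos.le.trans ht
  have hcont : ContinuousOn (fun σ => σ + Eh S.ee (g σ) (S.Th t)) (Icc 0 t) := by
    have hc : Continuous (fun σ => Eh S.ee (g σ) (S.Th t)) := by
      rw [Metric.continuous_iff]
      intro u e he
      refine ⟨e, he, fun v hv => ?_⟩
      rw [Real.dist_eq] at hv ⊢
      have h1 := Eh_lip S.he S.h1 (S.Th_nonneg t) (S.Th_le ht) (g u) (g v)
      have h2 := Eh_lip S.he S.h1 (S.Th_nonneg t) (S.Th_le ht) (g v) (g u)
      have h3 := hg.1 u v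
      have h4 := hg.1 v u
      rw [abs_sub_comm u v] at h3
      have h0 : 0 ≤ |v - u| := abs_nonneg _
      rw [abs_lt]
      constructor <;> linarith
    exact (continuous_id.add hc).continuousOn
  have h1 := intermediate_value_Icc ht0 hcont
  have h2 : t ∈ Icc (0 + Eh S.ee (g 0) (S.Th t)) (t + Eh S.ee (g t) (S.Th t)) := by
    constructor
    · rw [hg.2, zero_add]
      exact (Eh_mono S.he (S.Th_le ht) S.x0).trans ht
    · have := Eh_nonneg S.he (g t) (S.Th t)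
      linarith
  obtain ⟨σ, hσ, hσ2⟩ := h1 h2
  exact ⟨σ, hσ.1, hσ.2, hσ2⟩

open Classical in
/-- The delayed time. -/
def sg (g : ℝ → X) (t : ℝ) : ℝ :=
  if h : ∃ σ, 0 ≤ σ ∧ σ ≤ t ∧ σ + Eh S.ee (g σ) (S.Th t) = t then h.choose else 0

lemma sg_spec {g : ℝ → X} (hg : S.Adm g) {t : ℝ} (ht : S.D0 ≤ t) :
    0 ≤ S.sg g t ∧ S.sg g t ≤ t ∧ S.sg g t + Eh S.ee (g (S.sg g t)) (S.Th t) = t := by
  have h := S.exists_sg hg ht
  unfold sg
  rw [dif_pos h]
  exact h.choose_spec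

/-- Monotonicity/Lipschitz estimate for solutions. -/
lemma sol_le {g : ℝ → X} (hg : S.Adm g) {t t' σ σ' : ℝ} (ht : S.D0 ≤ t) (htt : t ≤ t')
    (h : σ + Eh S.ee (g σ) (S.Th t) = t) (h' : σ' + Eh S.ee (g σ') (S.Th t') = t') :
    σ ≤ σ' ∧ σ' - σ ≤ 3 * (t' - t) := by
  have h1 := Eh_lip S.he S.h1 (S.Th_nonneg t) (S.Th_le ht) (g σ') (g σ)
  have h2 := Eh_lip S.he S.h1 (S.Th_nonneg t) (S.Th_le ht) (g σ) (g σ')
  have h3 := Eh_mono S.he (S.Th_anti htt) (g σ')
  have h4 := hg.1 σ' σ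
  have h5 := Eh_lipt S.he S.h1 (S.Th_nonneg t') (S.Th_anti htt) (S.Th_le ht) (g σ')
  have h6 := S.Th_lip htt
  rw [dist_comm (g σ) (g σ')] at h2
  have hle : σ ≤ σ' := by
    by_contra hcon
    push Not at hcon
    rw [abs_sub_comm, abs_of_pos (by linarith)] at h4
    linarith
  rw [abs_of_nonneg (by linarith)] at h4
  exact ⟨hle, by linarith⟩

lemma sol_unique {g : ℝ → X} (hg : S.Adm g) {t σ σ' : ℝ} (ht : S.D0 ≤ t)
    (h : σ + Eh S.ee (g σ) (S.Th t) = t) (h' : σ' + Eh S.ee (g σ') (S.Th t) = t) : σ = σ' :=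
  le_antisymm (S.sol_le hg ht le_rfl h h').1 (S.sol_le hg ht le_rfl h' h).1

lemma sg_mono {g : ℝ → X} (hg : S.Adm g) {t t' : ℝ} (ht : S.D0 ≤ t) (htt : t ≤ t') :
    S.sg g t ≤ S.sg g t' :=
  (S.sol_le hg ht htt (S.sg_spec hg ht).2.2 (S.sg_spec hg (ht.trans htt)).2.2).1

lemma sg_lip {g : ℝ → X} (hg : S.Adm g) {t t' : ℝ} (ht : S.D0 ≤ t) (htt : t ≤ t') :
    S.sg g t' - S.sg g t ≤ 3 * (t' - t) :=
  (S.sol_le hg ht htt (S.sg_spec hg ht).2.2 (S.sg_spec hg (ht.trans htt)).2.2).2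

lemma sg_cont {g : ℝ → X} (hg : S.Adm g) : ContinuousOn (S.sg g) (Ici S.D0) := by
  rw [Metric.continuousOn_iff]
  intro t ht e he
  refine ⟨e / 3, by positivity, fun t' ht' hd => ?_⟩
  rw [Real.dist_eq] at hd ⊢
  rcases le_total t t' with h | h
  · have h1 := S.sg_lip hg ht h
    have h2 := S.sg_mono hg ht h
    rw [abs_of_nonneg (by linarith)] at hd ⊢
    linarith
  · have h1 := S.sg_lip hg ht' h
    have h2 := S.sg_mono hg ht' h
    rw [abs_sub_comm, abs_of_nonneg (by linarith)] at hd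
    rw [abs_sub_comm, abs_of_nonneg (by linarith)]
    linarith

lemma sg_D0 {g : ℝ → X} (hg : S.Adm g) : S.sg g S.D0 = 0 := by
  apply S.sol_unique hg le_rfl (S.sg_spec hg le_rfl).2.2
  rw [hg.2, S.Th_D0, zero_add]
  rfl

lemma sg_end {g : ℝ → X} (hg : S.Adm g) : S.sg g (S.D0 + A S.B) = S.D0 + A S.B := by
  have h0 : S.D0 ≤ S.D0 + A S.B := by linarith [A_nonneg S.B_nonneg]
  apply S.sol_unique hg h0 (S.sg_spec hg h0).2.2
  rw [S.Th_end]
  have : Eh S.ee (g (S.D0 + A S.B)) 0 = 0 := by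
    unfold Eh
    have : max (0 - (lift (g (S.D0 + A S.B))).s) 0 = 0 := by
      apply max_eq_right
      have := (lift (g (S.D0 + A S.B))).s_nonneg
      linarith
    rw [this]; ring
  rw [this]; ring

lemma exists_Ts {g : ℝ → X} (hg : S.Adm g) : ∃ T, S.D0 < T ∧ T ≤ S.D0 + A S.B ∧ S.sg g T = T ∧
    ∀ t, S.D0 ≤ t → t < T → S.sg g t < t := by
  have h0 : S.D0 ≤ S.D0 + A S.B := by linarith [A_nonneg S.B_nonneg]
  set I : Set ℝ := {t | t ∈ Icc S.D0 (S.D0 + A S.B) ∧ S.sg g t = t} with hI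
  have hIc : IsCompact I := by
    apply isCompact_Icc.of_isClosed_subset _ (fun u hu => hu.1)
    have h1 : ContinuousOn (fun t => S.sg g t - t) (Icc S.D0 (S.D0 + A S.B)) :=
      ((S.sg_cont hg).mono (fun t ht => ht.1)).sub continuousOn_id
    have h2 := h1.preimage_isClosed_of_isClosed isClosed_Icc (isClosed_singleton (x := (0:ℝ)))
    convert h2 using 1
    ext t
    simp only [hI, mem_inter_iff, mem_preimage, mem_singleton_iff, mem_ofPred_eq, sub_eq_zero]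
  obtain ⟨T, hT⟩ := hIc.exists_isLeast ⟨_, ⟨h0, le_rfl⟩, S.sg_end hg⟩
  refine ⟨T, ?_, hT.1.1.2, hT.1.2, ?_⟩
  · apply lt_of_le_of_ne hT.1.1.1
    intro h
    have h1 := hT.1.2
    rw [← h, S.sg_D0 hg] at h1
    have := S.D0_pos
    linarith
  · intro t ht1 ht2
    apply lt_of_le_of_ne (S.sg_spec hg ht1).2.1
    intro h
    have := hT.2 ⟨⟨ht1, ht2.le.trans hT.1.1.2⟩, h⟩
    linarith

open Classical in
/-- The capture time. -/
def Ts (g : ℝ → X) : ℝ :=
  if h : ∃ T, S.D0 < T ∧ T ≤ S.D0 + A S.B ∧ S.sg g T = T ∧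
    ∀ t, S.D0 ≤ t → t < T → S.sg g t < t then h.choose else 0

lemma Ts_spec {g : ℝ → X} (hg : S.Adm g) : S.D0 < S.Ts g ∧ S.Ts g ≤ S.D0 + A S.B ∧
    S.sg g (S.Ts g) = S.Ts g ∧ ∀ t, S.D0 ≤ t → t < S.Ts g → S.sg g t < t := by
  have h := S.exists_Ts hg
  unfold Ts
  rw [dif_pos h]
  exact h.choose_spec

/-! ### Before capture -/

lemma before {g : ℝ → X} (hg : S.Adm g) {t : ℝ} (ht : S.D0 ≤ t) (htT : t < S.Ts g) :
    g (S.sg g t) ∉ HH ∧ (lift (g (S.sg g t))).s < S.Th t := by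
  have h1 := (S.Ts_spec hg).2.2.2 t ht htT
  have h2 := (S.sg_spec hg ht).2.2
  have h3 : 0 < Eh S.ee (g (S.sg g t)) (S.Th t) := by linarith
  constructor
  · intro hcon
    unfold Eh at h3
    rw [rr_zero hcon, mul_zero] at h3
    exact lt_irrefl _ h3
  · by_contra hcon
    push Not at hcon
    unfold Eh at h3
    rw [max_eq_right (by linarith)] at h3
    simp at h3

lemma off_before {g : ℝ → X} (hg : S.Adm g) {u : ℝ} (hu : 0 ≤ u) (huT : u < S.Ts g) :
    g u ∉ HH := by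
  obtain ⟨h1, h2, h3, h4⟩ := S.Ts_spec hg
  have hc : ContinuousOn (S.sg g) (Icc S.D0 (S.Ts g)) := (S.sg_cont hg).mono (fun t ht => ht.1)
  have h5 := intermediate_value_Icc h1.le hc
  have h6 : u ∈ Icc (S.sg g S.D0) (S.sg g (S.Ts g)) := by
    rw [S.sg_D0 hg, h3]; exact ⟨hu, huT.le⟩
  obtain ⟨t, ht, htu⟩ := h5 h6
  have ht2 : t < S.Ts g := by
    apply lt_of_le_of_ne ht.2
    intro h
    rw [h, h3] at htu
    linarith
  rw [← htu]
  exact (S.before hg ht.1 ht2).1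

/-- Fibre coordinate of the delayed Christian. -/
def cc (g : ℝ → X) (t : ℝ) : F := (lift (g (S.sg g t))).c

lemma cc_rhat {g : ℝ → X} (hg : S.Adm g) {t t' : ℝ} (ht : S.D0 ≤ t) (htt : t ≤ t')
    (htT : t' < S.Ts g) : rhat (S.cc g t) (S.cc g t') ≤ 3 * (t' - t) := by
  have h1 := S.sg_spec hg ht
  have h2 := S.sg_spec hg (ht.trans htt)
  have h3 := S.sg_mono hg ht htt
  have h4 : S.sg g t' < S.Ts g := lt_of_le_of_lt h2.2.1 htT
  have h5 := off_rhat (γ := g) hg.1 (a := 0) (b := S.sg g t')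
    (fun u hu => S.off_before hg hu.1 (lt_of_le_of_lt hu.2 h4)) ⟨h1.1, h3⟩ ⟨h2.1, le_rfl⟩ h3
  exact h5.trans (S.sg_lip hg ht htt)

lemma dA_lip {a b : ℝ} (ha : 0 ≤ a) (hab : a ≤ b) : dA a - dA b ≤ b - a := by
  have hb : 0 ≤ b := ha.trans hab
  have e : dA a - dA b = (b - a) * (al * (2 + a + b) / ((1 + a) ^ 2 * (1 + b) ^ 2)) := by
    unfold dA
    have h1 : (1 + a) ≠ 0 := by positivity
    have h2 : (1 + b) ≠ 0 := by positivity
    field_simp
    ring
  rw [e]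
  have h3 : al * (2 + a + b) / ((1 + a) ^ 2 * (1 + b) ^ 2) ≤ 1 := by
    rw [div_le_one (by positivity)]
    have hal : al ≤ 1 / 2 := by unfold al; norm_num
    have h4 : al * (2 + a + b) ≤ 1 / 2 * (2 + a + b) := by
      apply mul_le_mul_of_nonneg_right hal (by positivity)
    have h5 : 1 + a ≤ (1 + a) ^ 2 := by nlinarith
    have h6 : 1 + b ≤ (1 + b) ^ 2 := by nlinarith
    have h7 : (1 + a) * (1 + b) ≤ (1 + a) ^ 2 * (1 + b) ^ 2 := by
      apply mul_le_mul h5 h6 <;> positivity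
    nlinarith [mul_nonneg ha hb]
  nlinarith [sub_nonneg.2 hab]

/-- The key speed estimate. -/
lemma key_speed {g : ℝ → X} (hg : S.Adm g) {t : ℝ} (ht : S.D0 ≤ t) (htT : t < S.Ts g) :
    ∃ κ > 0, ∀ t', t ≤ t' → t' < t + κ → t' < S.Ts g →
      rho (S.cc g t) (S.cc g t') ≤ S.Th t - S.Th t' := by
  obtain ⟨hoff, hlt⟩ := S.before hg ht htT
  set σ := S.sg g t with hσ
  set s := (lift (g σ)).s with hs
  set θ := S.Th t with hθ
  set η := θ - s with hη
  have hη0 : 0 < η := by rw [hη]; linarith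
  have hs0 : 0 ≤ s := (lift (g σ)).s_nonneg
  have hθB : θ ≤ S.B := S.Th_le ht
  have hB := S.B_ge
  have hBe : S.B = 1 + S.p.c.y := rfl
  set cB := al / (1 + S.B) ^ 4 with hcB
  have hcB0 : 0 < cB := by
    have := al_pos
    rw [hcB]; positivity
  refine ⟨min (min 1 (Metric.infDist (g σ) HH / 3)) (cB * η / 8),
    lt_min (lt_min one_pos (by have := infDist_pos hoff; positivity)) (by positivity), ?_⟩
  intro t' htt hκ htT'
  rcases htt.eq_or_lt with heq | hltt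
  · rw [← heq, sub_self]
    exact (rho_self _).le
  set τ := t' - t with hτ
  have hτ0 : 0 < τ := by rw [hτ]; linarith
  have hτ1 : τ < 1 := by
    have h9 : t' < t + 1 := lt_of_lt_of_le hκ (by
      have := (min_le_left (min 1 (Metric.infDist (g σ) HH / 3)) (cB * η / 8)).trans
        (min_le_left 1 (Metric.infDist (g σ) HH / 3))
      linarith)
    rw [hτ]; linarith
  have hτ2 : 3 * τ < Metric.infDist (g σ) HH := by
    have h9 : t' < t + Metric.infDist (g σ) HH / 3 := lt_of_lt_of_le hκ (by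
      have := (min_le_left (min 1 (Metric.infDist (g σ) HH / 3)) (cB * η / 8)).trans
        (min_le_right 1 (Metric.infDist (g σ) HH / 3))
      linarith)
    rw [hτ]; linarith
  have hτ3 : 8 * τ ≤ cB * η := by
    have h9 : t' < t + cB * η / 8 := lt_of_lt_of_le hκ (by
      have := min_le_right (min 1 (Metric.infDist (g σ) HH / 3)) (cB * η / 8)
      linarith)
    rw [hτ]; linarith
  have ht' : S.D0 ≤ t' := ht.trans htt
  set σ' := S.sg g t' with hσ'
  have hmono : σ ≤ σ' := S.sg_mono hg ht htt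
  have hlip : σ' - σ ≤ 3 * τ := S.sg_lip hg ht htt
  set ς := σ' - σ with hς
  have hς0 : 0 ≤ ς := by rw [hς]; linarith
  obtain ⟨hoff', hlt'⟩ := S.before hg ht' htT'
  rw [← hσ'] at hoff' hlt'
  have hdg : dist (g σ) (g σ') ≤ ς := by
    have := hg.1 σ σ'
    rwa [abs_sub_comm, abs_of_nonneg (by linarith)] at this
  have hdl : dist (lift (g σ)) (lift (g σ')) = dist (g σ) (g σ') :=
    lift_dist hoff hoff' (by linarith)
  have hdl' : dist (lift (g σ)) (lift (g σ')) ≤ ς := by rw [hdl]; exact hdg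
  -- speed bound for the Christian
  have hspeed : rho (S.cc g t) (S.cc g t') * dA (s + ς) ≤ ς := by
    have h1 := Dm_speed (lift (g σ)).s_nonneg (lift (g σ')).s_nonneg
      (show Dm (lift (g σ)).s (lift (g σ')).s (rho (lift (g σ)).c (lift (g σ')).c) ≤ ς from hdl')
    have h2 := dA_pos (add_nonneg hs0 hς0)
    have h3 : rho (S.cc g t) (S.cc g t') ≤
        max |(lift (g σ)).s - (lift (g σ')).s| (rho (lift (g σ)).c (lift (g σ')).c) :=
      le_max_right _ _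
    exact (mul_le_mul_of_nonneg_right h3 h2.le).trans h1
  -- the delay equation
  set s' := (lift (g σ')).s with hs'
  set θ' := S.Th t' with hθ'
  have hss : |s - s'| ≤ ς := (abs_s_le _ _).trans hdl'
  have hθθ : θ - θ' ≤ τ := S.Th_lip htt
  have hθθ0 : θ' ≤ θ := S.Th_anti htt
  have hθ'0 : 0 ≤ θ' := S.Th_nonneg _
  have hE := (S.sg_spec hg ht).2.2
  have hE' := (S.sg_spec hg ht').2.2
  rw [← hσ, ← hθ] at hE
  rw [← hσ', ← hθ'] at hE'
  have hr := rr_lip (g σ) (g σ')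
  have hr0 := rr_nonneg (g σ')
  have hr1 := rr_le_one (g σ')
  have hee := S.he
  have hηB : η ≤ S.B := by rw [hη]; linarith
  set η' := θ' - s' with hη'
  have hη'0 : 0 < η' := by rw [hη']; linarith
  have hηη : η - η' ≤ τ + ς := by
    have := neg_abs_le (s - s')
    rw [hη, hη']; linarith
  have hEE : ς = τ + (Eh S.ee (g σ) θ - Eh S.ee (g σ') θ') := by
    rw [hς, hτ]; linarith
  have hE1 : Eh S.ee (g σ) θ = S.ee * η ^ 2 * rr (g σ) := by
    unfold Eh; rw [max_eq_left hη0.le]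
  have hE2 : Eh S.ee (g σ') θ' = S.ee * η' ^ 2 * rr (g σ') := by
    unfold Eh; rw [max_eq_left hη'0.le]
  have hdiff : Eh S.ee (g σ) θ - Eh S.ee (g σ') θ' ≤
      S.ee * (η * ((S.B + 2) * ς + 2 * τ)) := by
    rw [hE1, hE2]
    have e : S.ee * η ^ 2 * rr (g σ) - S.ee * η' ^ 2 * rr (g σ') =
        S.ee * (η ^ 2 * (rr (g σ) - rr (g σ')) + (η ^ 2 - η' ^ 2) * rr (g σ')) := by ring
    rw [e]
    apply mul_le_mul_of_nonneg_left _ hee.le
    have h1 : η ^ 2 * (rr (g σ) - rr (g σ')) ≤ η * (S.B * ς) := by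
      calc η ^ 2 * (rr (g σ) - rr (g σ')) ≤ η ^ 2 * ς := by
            apply mul_le_mul_of_nonneg_left _ (by positivity)
            linarith
        _ = η * (η * ς) := by ring
        _ ≤ η * (S.B * ς) := by
            apply mul_le_mul_of_nonneg_left _ hη0.le
            exact mul_le_mul_of_nonneg_right hηB hς0
    have h2 : (η ^ 2 - η' ^ 2) * rr (g σ') ≤ η * (2 * (τ + ς)) := by
      have h3 : 0 ≤ η * (2 * (τ + ς)) := by positivity
      rcases le_total η η' with h4 | h4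
      · have : η ^ 2 ≤ η' ^ 2 := pow_le_pow_left₀ hη0.le h4 2
        have h5 : (η ^ 2 - η' ^ 2) * rr (g σ') ≤ 0 :=
          mul_nonpos_of_nonpos_of_nonneg (by linarith) hr0
        linarith
      · have h5 : η ^ 2 - η' ^ 2 ≤ η * (2 * (τ + ς)) := by
          have e2 : η ^ 2 - η' ^ 2 = (η - η') * (η + η') := by ring
          rw [e2]
          calc (η - η') * (η + η') ≤ (τ + ς) * (2 * η) := by
                apply mul_le_mul <;> linarith
            _ = η * (2 * (τ + ς)) := by ring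
        calc (η ^ 2 - η' ^ 2) * rr (g σ') ≤ (η * (2 * (τ + ς))) * rr (g σ') :=
              mul_le_mul_of_nonneg_right h5 hr0
          _ ≤ η * (2 * (τ + ς)) := by nlinarith
    calc η ^ 2 * (rr (g σ) - rr (g σ')) + (η ^ 2 - η' ^ 2) * rr (g σ')
        ≤ η * (S.B * ς) + η * (2 * (τ + ς)) := add_le_add h1 h2
      _ = η * ((S.B + 2) * ς + 2 * τ) := by ring
  -- bound on ς
  set x := S.ee * η with hx
  have hx0 : 0 < x := by rw [hx]; positivity
  have hςb : ς ≤ τ + x * ((S.B + 2) * ς + 2 * τ) := by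
    have : S.ee * (η * ((S.B + 2) * ς + 2 * τ)) = x * ((S.B + 2) * ς + 2 * τ) := by
      rw [hx]; ring
    linarith
  have hKx : 2 * (S.B + 2) * x ≤ 1 := by
    have h2 := S.h2
    rw [← hBe] at h2
    have : 2 * (S.B + 2) * x = (2 * (S.B + 2) * S.ee) * η := by rw [hx]; ring
    rw [this]
    have h4 : 0 ≤ 2 * (S.B + 2) * S.ee := by positivity
    exact (mul_le_mul_of_nonneg_left hηB h4).trans h2
  have hςb2 : ς ≤ τ * (1 + 2 * (S.B + 4) * x) := by
    by_contra hcon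
    push Not at hcon
    -- (1 - K x) ς ≤ τ (1 + 2 x)
    have h4 : ς * (1 - (S.B + 2) * x) ≤ τ * (1 + 2 * x) := by linarith
    have h5 : 0 < 1 - (S.B + 2) * x := by linarith
    have h6 : τ * (1 + 2 * (S.B + 4) * x) * (1 - (S.B + 2) * x) < ς * (1 - (S.B + 2) * x) :=
      mul_lt_mul_of_pos_right hcon h5
    have h7 : τ * (1 + 2 * x) ≤ τ * (1 + 2 * (S.B + 4) * x) * (1 - (S.B + 2) * x) := by
      rw [mul_assoc]
      apply mul_le_mul_of_nonneg_left _ hτ0.le
      have h8 : (1 + 2 * (S.B + 4) * x) * (1 - (S.B + 2) * x) - (1 + 2 * x)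
          = x * (S.B + 4) * (1 - 2 * (S.B + 2) * x) := by ring
      have h9 : 0 ≤ x * (S.B + 4) * (1 - 2 * (S.B + 2) * x) := by
        apply mul_nonneg (by positivity); linarith
      linarith
    linarith
  -- comparison of derivatives
  have hgap : cB * η ≤ dA s - dA θ := by
    have := dA_gap hs0 (show s ≤ θ by linarith) hθB
    rwa [hη, hcB]
  have hd1 : dA θ' ≤ dA θ + τ := by
    have := dA_lip hθ'0 hθθ0
    linarith
  have hd2 : dA s - ς ≤ dA (s + ς) := by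
    have := dA_lip hs0 (show s ≤ s + ς by linarith)
    linarith
  have hd3 : dA θ ≤ 2 := dA_le_two (S.Th_nonneg _)
  have hd4 : 0 < dA θ' := dA_pos hθ'0
  have hd5 : 0 < dA (s + ς) := dA_pos (add_nonneg hs0 hς0)
  have h3' : 12 * (S.B + 4) * x ≤ cB * η := by
    have h3 := S.h3
    rw [← hBe, ← hcB] at h3
    have : 12 * (S.B + 4) * x = (12 * (S.B + 4) * S.ee) * η := by rw [hx]; ring
    rw [this]
    exact mul_le_mul_of_nonneg_right h3 hη0.le
  have hmain : ς * dA θ' ≤ τ * dA (s + ς) := by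
    have ha : (1 + 2 * (S.B + 4) * x) * (dA θ + τ) ≤ dA s - ς := by
      have hb : 2 * (S.B + 4) * x * (dA θ + τ) ≤ 2 * (S.B + 4) * x * 3 := by
        apply mul_le_mul_of_nonneg_left _ (by positivity)
        linarith
      have hc : (1 + 2 * (S.B + 4) * x) * (dA θ + τ)
          = dA θ + τ + 2 * (S.B + 4) * x * (dA θ + τ) := by ring
      rw [hc]
      linarith
    have hx4 : 0 ≤ 1 + 2 * (S.B + 4) * x := by positivity
    calc ς * dA θ' ≤ (τ * (1 + 2 * (S.B + 4) * x)) * dA θ' :=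
          mul_le_mul_of_nonneg_right hςb2 hd4.le
      _ ≤ (τ * (1 + 2 * (S.B + 4) * x)) * (dA θ + τ) :=
          mul_le_mul_of_nonneg_left hd1 (by positivity)
      _ = τ * ((1 + 2 * (S.B + 4) * x) * (dA θ + τ)) := by ring
      _ ≤ τ * (dA s - ς) := mul_le_mul_of_nonneg_left ha hτ0.le
      _ ≤ τ * dA (s + ς) := mul_le_mul_of_nonneg_left hd2 hτ0.le
  -- conclusion
  have hTT := (S.Ts_spec hg).2.1
  have hAθ : A θ - A θ' = τ := by
    rw [hθ, hθ', S.A_Th (by linarith), S.A_Th (by linarith), hτ]; ring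
  have hAd : τ ≤ dA θ' * (θ - θ') := by
    rw [← hAθ]
    exact A_sub_le_dA hθ'0 hθθ0
  have h10 : rho (S.cc g t) (S.cc g t') * dA (s + ς) * dA θ' ≤ (θ - θ') * dA (s + ς) * dA θ' := by
    calc rho (S.cc g t) (S.cc g t') * dA (s + ς) * dA θ' ≤ ς * dA θ' :=
          mul_le_mul_of_nonneg_right hspeed hd4.le
      _ ≤ τ * dA (s + ς) := hmain
      _ ≤ (dA θ' * (θ - θ')) * dA (s + ς) := mul_le_mul_of_nonneg_right hAd hd5.le
      _ = (θ - θ') * dA (s + ς) * dA θ' := by ring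
  have h11 := le_of_mul_le_mul_right h10 hd4
  exact le_of_mul_le_mul_right h11 hd5

end Setup

end

end H44LC
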