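import Pool.Agent.H44.LC.Capture

set_option autoImplicit false

open Set Filter Topology

namespace H44LC

noncomputable section

def mkZ (θ : ℝ) (c : F) : Z := ⟨max θ c.y, c, le_max_right _ _⟩

namespace Setup

variable (S : Setup)

def lam (g : ℝ → X) (t : ℝ) : X := qq (mkZ (S.Th t) (S.cc g t))

lemma y_le_Th {g : ℝ → X} (hg : S.Adm g) {t : ℝ} (ht : S.D0 ≤ t) (htT : t < S.Ts g) :
    (S.cc g t).y ≤ S.Th t :=
  ((lift (g (S.sg g t))).hs).trans (S.before hg ht htT).2.le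

lemma lam_right {g : ℝ → X} (hg : S.Adm g) {t : ℝ} (ht : S.D0 ≤ t) (htT : t < S.Ts g) :
    ∃ κ > 0, ∀ t', t < t' → t' < t + κ → t' < S.Ts g →
      dist (S.lam g t) (S.lam g t') ≤ t' - t := by
  obtain ⟨κ, hκ, h⟩ := S.key_speed hg ht htT
  refine ⟨κ, hκ, fun t' htt htκ htT' => ?_⟩
  have h1 := h t' htt.le htκ htT'
  apply (dist_qq_le _ _).trans
  rw [dist_Z]
  have e1 : (mkZ (S.Th t) (S.cc g t)).s = S.Th t := max_eq_left (S.y_le_Th hg ht htT)
  have e2 : (mkZ (S.Th t') (S.cc g t')).s = S.Th t' :=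
    max_eq_left (S.y_le_Th hg (ht.trans htt.le) htT')
  have e3 : (mkZ (S.Th t) (S.cc g t)).c = S.cc g t := rfl
  have e4 : (mkZ (S.Th t') (S.cc g t')).c = S.cc g t' := rfl
  rw [e1, e2, e3, e4, Dm_comm, Dm_eq (S.Th_anti htt.le) h1]
  have hT := (S.Ts_spec hg).2.1
  rw [S.A_Th (by linarith), S.A_Th (by linarith)]
  linarith

lemma lam_lip6 {g : ℝ → X} (hg : S.Adm g) {t t' : ℝ} (ht : S.D0 ≤ t) (htt : t ≤ t')
    (htT : t' < S.Ts g) : dist (S.lam g t) (S.lam g t') ≤ 6 * (t' - t) := by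
  apply (dist_qq_le _ _).trans
  apply (dist_Z_le _ _).trans
  have e1 : (mkZ (S.Th t) (S.cc g t)).s = S.Th t :=
    max_eq_left (S.y_le_Th hg ht (lt_of_le_of_lt htt htT))
  have e2 : (mkZ (S.Th t') (S.cc g t')).s = S.Th t' :=
    max_eq_left (S.y_le_Th hg (ht.trans htt) htT)
  have e3 : (mkZ (S.Th t) (S.cc g t)).c = S.cc g t := rfl
  have e4 : (mkZ (S.Th t') (S.cc g t')).c = S.cc g t' := rfl
  rw [e1, e2, e3, e4]
  have h1 := S.Th_lip htt
  have h2 := S.Th_anti htt
  have h3 := S.cc_rhat hg ht htt htT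
  have h4 := rho_le_rhat (S.cc g t) (S.cc g t')
  have : max |S.Th t - S.Th t'| (rho (S.cc g t) (S.cc g t')) ≤ 3 * (t' - t) := by
    apply max_le
    · rw [abs_of_nonneg (by linarith)]; linarith
    · linarith
  linarith

lemma lam_lip {g : ℝ → X} (hg : S.Adm g) {t t' : ℝ} (ht : S.D0 ≤ t) (htt : t ≤ t')
    (htT : t' < S.Ts g) : dist (S.lam g t) (S.lam g t') ≤ t' - t := by
  have := ltg_right (S.lam g) 1 t t' htt (by
    rw [Metric.continuousOn_iff]
    intro u hu e he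
    refine ⟨e / 6, by positivity, fun v hv hd => ?_⟩
    rw [Real.dist_eq] at hd
    rcases le_total u v with h | h
    · rw [abs_of_nonneg (by linarith)] at hd
      have := S.lam_lip6 hg (ht.trans hu.1) h (lt_of_le_of_lt hv.2 htT)
      rw [dist_comm]; linarith
    · rw [abs_sub_comm, abs_of_nonneg (by linarith)] at hd
      have := S.lam_lip6 hg (ht.trans hv.1) h (lt_of_le_of_lt hu.2 htT)
      linarith) (by
    intro u hu
    obtain ⟨κ, hκ, h⟩ := S.lam_right hg (ht.trans hu.1) (hu.2.trans htT)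
    refine ⟨κ, hκ, fun v hv huv hvκ => ?_⟩
    rw [one_mul]
    exact h v huv hvκ (lt_of_le_of_lt hv.2 htT))
  rwa [one_mul] at this

lemma cc_D0 {g : ℝ → X} (hg : S.Adm g) : S.cc g S.D0 = S.p.c := by
  unfold cc
  rw [S.sg_D0 hg, hg.2]
  rfl

/-- The Lion stays below the edge. -/
lemma Th_le_y {g : ℝ → X} (hg : S.Adm g) {t : ℝ} (ht : S.D0 ≤ t) (htT : t < S.Ts g) :
    S.Th t ≤ 1 + (S.cc g t).y := by
  have hylip : ∀ u v, S.D0 ≤ u → u ≤ v → v ≤ t → |(S.cc g u).y - (S.cc g v).y| ≤ 3 * (v - u) :=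
    fun u v hu huv hv => (abs_y_le_rhat _ _).trans (S.cc_rhat hg hu huv (lt_of_le_of_lt hv htT))
  have hcl : IsClosed ({u | S.Th u ≤ 1 + (S.cc g u).y} ∩ Icc S.D0 t) := by
    have h1 : ContinuousOn (fun u => S.Th u - (1 + (S.cc g u).y)) (Icc S.D0 t) := by
      rw [Metric.continuousOn_iff]
      intro u hu e he
      refine ⟨e / 4, by positivity, fun v hv hd => ?_⟩
      rw [Real.dist_eq] at hd ⊢
      rcases le_total u v with h | h
      · rw [abs_of_nonneg (by linarith)] at hd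
        have h1 := abs_le.1 (hylip u v hu.1 h hv.2)
        have h2 := S.Th_lip h
        have h3 := S.Th_anti h
        rw [abs_lt]; constructor <;> linarith
      · rw [abs_sub_comm, abs_of_nonneg (by linarith)] at hd
        have h1 := abs_le.1 (hylip v u hv.1 h hu.2)
        have h2 := S.Th_lip h
        have h3 := S.Th_anti h
        rw [abs_lt]; constructor <;> linarith
    have h2 := h1.preimage_isClosed_of_isClosed isClosed_Icc (isClosed_Iic (a := (0:ℝ)))
    convert h2 using 1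
    ext u
    simp only [mem_inter_iff, mem_ofPred_eq, mem_preimage, mem_Iic, sub_nonpos]
    tauto
  have hsub := hcl.Icc_subset_of_forall_exists_gt (by
      change S.Th S.D0 ≤ 1 + (S.cc g S.D0).y
      rw [S.cc_D0 hg, S.Th_D0]
      exact le_rfl) (by
    rintro u ⟨hu1, hu2⟩ z hz
    have hu1' : S.Th u ≤ 1 + (S.cc g u).y := hu1
    have hz' : u < z := hz
    obtain ⟨κ, hκ, h3⟩ := S.key_speed hg hu2.1 (hu2.2.trans htT)
    have hex : ∃ κ2 > 0, ∀ v, u < v → v < u + κ2 → v < S.Ts g → S.Th v ≤ 1 + (S.cc g v).y := by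
      rcases (S.cc g u).hy.eq_or_lt with h0 | h0
      · refine ⟨1, one_pos, fun v huv _ _ => ?_⟩
        rw [← h0] at hu1'
        have := S.Th_anti huv.le
        have := (S.cc g v).hy
        linarith
      · refine ⟨min κ (min (S.cc g u).y (dl (S.cc g u).k)),
          lt_min hκ (lt_min h0 (dl_pos_of_y _ h0)), fun v huv hvκ hvT => ?_⟩
        have h4 := h3 v huv.le (lt_of_lt_of_le hvκ (by
          have := min_le_left κ (min (S.cc g u).y (dl (S.cc g u).k)); linarith)) hvT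
        have h5 := S.Th_lip huv.le
        have h6 : rho (S.cc g u) (S.cc g v) < min (S.cc g u).y (dl (S.cc g u).k) := by
          have := min_le_right κ (min (S.cc g u).y (dl (S.cc g u).k))
          linarith
        obtain ⟨_, h7⟩ := near_tooth h6
        have h8 := le_abs_self ((S.cc g u).y - (S.cc g v).y)
        linarith
    obtain ⟨κ2, hκ2, h9⟩ := hex
    set v := min (min z t) (u + κ2 / 2) with hv
    have h4 : u < v := by
      rw [hv]
      apply lt_min (lt_min hz' hu2.2); linarith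
    have h5 : v ≤ t := (min_le_left _ _).trans (min_le_right _ _)
    have h6 : v ≤ z := (min_le_left _ _).trans (min_le_left _ _)
    have h7 : v < u + κ2 := lt_of_le_of_lt (min_le_right _ _) (by linarith)
    exact ⟨v, h9 v h4 h7 (lt_of_le_of_lt h5 htT), h4, h6⟩)
  exact hsub ⟨ht, le_rfl⟩

/-- Near the capture time. -/
lemma lam_end {g : ℝ → X} (hg : S.Adm g) {t : ℝ} (ht : S.D0 ≤ t) (htT : t < S.Ts g) :
    dist (S.lam g t) (g (S.Ts g)) ≤ 11 * (S.Ts g - t) := by
  obtain ⟨hT1, hT2, hT3, hT4⟩ := S.Ts_spec hg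
  set T := S.Ts g with hT
  have hT0 : 0 < T := S.D0_pos.trans hT1
  have hdel : ∀ u, S.D0 ≤ u → u < T → T - S.sg g u ≤ 3 * (T - u) ∧ 0 ≤ S.sg g u ∧
      S.sg g u < T := by
    intro u hu huT
    have h1 := S.sg_lip hg hu huT.le
    rw [hT3] at h1
    exact ⟨h1, (S.sg_spec hg hu).1, lt_of_le_of_lt (S.sg_spec hg hu).2.1 huT⟩
  have e1 : (mkZ (S.Th t) (S.cc g t)).s = S.Th t := max_eq_left (S.y_le_Th hg ht htT)
  have e3 : (mkZ (S.Th t) (S.cc g t)).c = S.cc g t := rfl
  obtain ⟨hd1, hd2, hd3⟩ := hdel t ht htT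
  obtain ⟨hb1, hb2⟩ := S.before hg ht htT
  by_cases hH : g T ∈ HH
  · obtain ⟨P, hPA, hPs, hgT, hlim⟩ := limit_end (γ := g) hg.1 hT0
      (fun u hu => S.off_before hg hu.1 hu.2) hH
    have h1 : P.s ≤ S.Th T := by
      apply le_of_end (a := S.D0) (b := T) (C := 4) hT1
      intro u hu
      obtain ⟨k1, k2, k3⟩ := hdel u hu.1 hu.2
      have k4 := (abs_le.1 (hlim _ ⟨k2, k3⟩).1).1
      have k5 := (S.before hg hu.1 hu.2).2
      have k6 := S.Th_lip hu.2.le
      linarith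
    have h2 : S.Th T ≤ 1 + P.c.y := by
      apply le_of_end (a := S.D0) (b := T) (C := 3) hT1
      intro u hu
      obtain ⟨k1, k2, k3⟩ := hdel u hu.1 hu.2
      have k4 := (abs_le.1 ((abs_y_le_rhat _ _).trans (hlim _ ⟨k2, k3⟩).2)).2
      have k5 := S.Th_le_y hg hu.1 hu.2
      have k6 := S.Th_anti hu.2.le
      unfold cc at k5
      linarith
    set Q := mkZ (S.Th T) P.c with hQ
    have hQs : Q.s = S.Th T := max_eq_left (P.hs.trans h1)
    have hQc : Q.c = P.c := rfl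
    have hQA : Q ∈ AZ := by
      rcases hPA with h | ⟨m, h, h'⟩
      · left
        rw [hQs, hQc]; linarith
      · right; exact ⟨m, h, h'⟩
    have hQq : qq Q = g T := by
      rw [qq_Hp hQA, hQs, hQc, hgT]
      congr 1
      apply max_eq_right
      linarith
    rw [← hQq]
    apply (dist_qq_le _ _).trans
    apply (dist_Z_le _ _).trans
    rw [e1, e3, hQs, hQc]
    have h3 := S.Th_lip htT.le
    have h4 := S.Th_anti htT.le
    have h5 : rho (S.cc g t) P.c ≤ 3 * (T - t) := by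
      have := (hlim _ ⟨hd2, hd3⟩).2
      exact ((rho_le_rhat _ _).trans this).trans hd1
    have : max |S.Th t - S.Th T| (rho (S.cc g t) P.c) ≤ 3 * (T - t) := by
      apply max_le _ h5
      rw [abs_of_nonneg (by linarith)]; linarith
    linarith
  · have hoff : ∀ u ∈ Icc 0 T, g u ∉ HH := by
      intro u hu
      rcases hu.2.eq_or_lt with h | h
      · rw [h]; exact hH
      · exact S.off_before hg hu.1 h
    have hE := (S.sg_spec hg hT1.le).2.2
    rw [hT3] at hE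
    have hE0 : Eh S.ee (g T) (S.Th T) = 0 := by linarith
    have h1 : S.Th T ≤ (lift (g T)).s := by
      unfold Eh at hE0
      have h2 := rr_pos hH
      have h3 := S.he
      have h4 : (max (S.Th T - (lift (g T)).s) 0) ^ 2 = 0 := by
        rcases mul_eq_zero.1 hE0 with h5 | h5
        · rcases mul_eq_zero.1 h5 with h6 | h6
          · linarith
          · exact h6
        · linarith
      have h5 : max (S.Th T - (lift (g T)).s) 0 = 0 := by
        exact pow_eq_zero_iff (by norm_num) |>.1 h4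
      have := le_max_left (S.Th T - (lift (g T)).s) 0
      linarith
    have h2 := abs_le.1 ((abs_s_le _ _).trans (off_lift (γ := g) hg.1 hoff ⟨hd2, hd3.le⟩
      ⟨hT0.le, le_rfl⟩))
    rw [abs_sub_comm (S.sg g t) T, abs_of_pos (by linarith)] at h2
    have h3 := S.Th_lip htT.le
    have h4 : dist (S.lam g t) (g (S.sg g t)) ≤ 8 * (T - t) := by
      have h5 : g (S.sg g t) = qq (lift (g (S.sg g t))) := (qq_lift hb1).symm
      rw [h5]
      unfold lam
      apply (dist_qq_le _ _).trans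
      apply (dist_Z_le _ _).trans
      rw [e1, e3]
      have h6 : rho (S.cc g t) (lift (g (S.sg g t))).c = 0 := rho_self _
      rw [h6]
      have : max |S.Th t - (lift (g (S.sg g t))).s| 0 ≤ 4 * (T - t) := by
        apply max_le
        · rw [abs_of_pos (by linarith)]; linarith
        · linarith
      linarith
    have h5 := hg.1 (S.sg g t) T
    rw [abs_sub_comm, abs_of_pos (by linarith)] at h5
    have := dist_triangle (S.lam g t) (g (S.sg g t)) (g T)
    linarith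

open Classical in
/-- The Lion's delayed strategy. -/
def Psi (g : ℝ → X) (t : ℝ) : X :=
  if t < S.Ts g then S.lam g (max t S.D0) else g (S.Ts g)

lemma Psi_lt {g : ℝ → X} {t : ℝ} (h : t < S.Ts g) : S.Psi g t = S.lam g (max t S.D0) := by
  simp [Psi, h]

lemma Psi_ge {g : ℝ → X} {t : ℝ} (h : S.Ts g ≤ t) : S.Psi g t = g (S.Ts g) := by
  simp [Psi, not_lt.2 h]

lemma lam_D0 {g : ℝ → X} (hg : S.Adm g) : S.lam g S.D0 = Hp S.p.c.y := by
  unfold lam
  rw [S.cc_D0 hg, S.Th_D0]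
  have e : (mkZ S.B S.p.c).s = 1 + S.p.c.y := by
    change max (1 + S.p.c.y) S.p.c.y = _
    exact max_eq_left (by linarith)
  have e2 : (mkZ S.B S.p.c).c = S.p.c := rfl
  have hA : mkZ S.B S.p.c ∈ AZ := Or.inl (by rw [e, e2])
  rw [qq_Hp hA, e, e2]
  congr 1
  simp

lemma Psi_LL {g : ℝ → X} (hg : S.Adm g) : LL (S.Psi g) ∧ S.Psi g 0 = Hp S.p.c.y := by
  obtain ⟨hT1, hT2, hT3, hT4⟩ := S.Ts_spec hg
  have hD := S.D0_pos
  have hend : ∀ t, S.D0 ≤ t → t < S.Ts g → dist (S.lam g t) (g (S.Ts g)) ≤ S.Ts g - t := by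
    intro t ht htT
    apply le_of_end (a := t) (b := S.Ts g) (C := 10) htT
    intro u hu
    have h1 := S.lam_lip hg ht hu.1 hu.2
    have h2 := S.lam_end hg (ht.trans hu.1) hu.2
    have := dist_triangle (S.lam g t) (S.lam g u) (g (S.Ts g))
    linarith
  have key : ∀ t t', t ≤ t' → dist (S.Psi g t) (S.Psi g t') ≤ t' - t := by
    intro t t' htt
    by_cases h' : t' < S.Ts g
    · rw [S.Psi_lt h', S.Psi_lt (lt_of_le_of_lt htt h')]
      have h1 := S.lam_lip hg (le_max_right t S.D0) (max_le_max htt le_rfl) (max_lt h' hT1)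
      have : max t' S.D0 - max t S.D0 ≤ t' - t := by
        rcases le_total t' S.D0 with h2 | h2
        · rw [max_eq_right h2, max_eq_right (htt.trans h2)]; linarith
        · rw [max_eq_left h2]
          have := le_max_left t S.D0
          linarith
      linarith
    · push Not at h'
      rw [S.Psi_ge h']
      by_cases h : t < S.Ts g
      · rw [S.Psi_lt h]
        have h1 := hend (max t S.D0) (le_max_right _ _) (max_lt h hT1)
        have := le_max_left t S.D0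
        linarith
      · push Not at h
        rw [S.Psi_ge h, dist_self]; linarith
  constructor
  · intro t t'
    rcases le_total t t' with h | h
    · rw [abs_sub_comm, abs_of_nonneg (sub_nonneg.2 h)]
      exact key t t' h
    · rw [abs_of_nonneg (sub_nonneg.2 h), dist_comm]
      exact key t' t h
  · rw [S.Psi_lt (hD.trans hT1), max_eq_right hD.le, S.lam_D0 hg]

/-- Agreement of the delayed data. -/
lemma agree {g g' : ℝ → X} (hg : S.Adm g) (hg' : S.Adm g') {u t : ℝ}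
    (hag : ∀ s, 0 ≤ s → s ≤ u → g s = g' s) (ht : S.D0 ≤ t) (hu : S.sg g t ≤ u) :
    S.sg g' t = S.sg g t := by
  have h1 := S.sg_spec hg ht
  apply S.sol_unique hg' ht (S.sg_spec hg' ht).2.2
  rw [← hag _ h1.1 hu]
  exact h1.2.2

lemma agree_lt {g g' : ℝ → X} (hg : S.Adm g) (hg' : S.Adm g') {u t : ℝ}
    (hag : ∀ s, 0 ≤ s → s ≤ u → g s = g' s) (ht : S.D0 ≤ t) (hu : S.sg g t ≤ u)
    (htT : t < S.Ts g) : t < S.Ts g' ∧ S.lam g' t = S.lam g t := by
  have h1 := S.sg_spec hg ht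
  have h0 := S.agree hg hg' hag ht hu
  constructor
  · by_contra hcon
    push Not at hcon
    obtain ⟨k1, k2, k3, k4⟩ := S.Ts_spec hg'
    have h2 : S.sg g (S.Ts g') ≤ u := (S.sg_mono hg k1.le hcon).trans hu
    have h3 := S.agree hg hg' hag k1.le h2
    have h4 := (S.Ts_spec hg).2.2.2 (S.Ts g') k1.le (lt_of_le_of_lt hcon htT)
    rw [← h3, k3] at h4
    exact lt_irrefl _ h4
  · unfold lam cc
    rw [h0, hag _ h1.1 hu]

lemma agree_ge {g g' : ℝ → X} (hg : S.Adm g) (hg' : S.Adm g') {u : ℝ}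
    (hag : ∀ s, 0 ≤ s → s ≤ u → g s = g' s) (hu : S.Ts g ≤ u) : S.Ts g' = S.Ts g := by
  obtain ⟨k1, k2, k3, k4⟩ := S.Ts_spec hg
  obtain ⟨m1, m2, m3, m4⟩ := S.Ts_spec hg'
  apply le_antisymm
  · by_contra hcon
    push Not at hcon
    have h1 := m4 (S.Ts g) k1.le hcon
    rw [S.agree hg hg' hag k1.le (by rw [k3]; exact hu), k3] at h1
    exact lt_irrefl _ h1
  · by_contra hcon
    push Not at hcon
    have h1 := k4 (S.Ts g') m1.le hcon
    have h2 := S.agree hg hg' hag m1.le (by linarith)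
    rw [← h2, m3] at h1
    exact lt_irrefl _ h1

lemma Psi_causal {g g' : ℝ → X} (hg : S.Adm g) (hg' : S.Adm g') {u : ℝ}
    (hag : ∀ s, 0 ≤ s → s ≤ u → g s = g' s) {s : ℝ} (hs0 : 0 ≤ s) (hsu : s ≤ u) :
    S.Psi g s = S.Psi g' s := by
  obtain ⟨k1, k2, k3, k4⟩ := S.Ts_spec hg
  obtain ⟨m1, m2, m3, m4⟩ := S.Ts_spec hg'
  by_cases hD : s < S.D0
  · rw [S.Psi_lt (hD.trans k1), S.Psi_lt (hD.trans m1), max_eq_right hD.le, S.lam_D0 hg,
      S.lam_D0 hg']
  · push Not at hD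
    by_cases hs : s < S.Ts g
    · obtain ⟨h1, h2⟩ := S.agree_lt hg hg' hag hD ((S.sg_spec hg hD).2.1.trans hsu) hs
      rw [S.Psi_lt hs, S.Psi_lt h1, max_eq_left hD, h2]
    · push Not at hs
      have h1 := S.agree_ge hg hg' hag (hs.trans hsu)
      rw [S.Psi_ge hs, S.Psi_ge (by rw [h1]; exact hs), h1]
      exact hag _ (S.D0_pos.le.trans k1.le) (hs.trans hsu)

lemma Psi_margin {g : ℝ → X} (hg : S.Adm g) {t : ℝ} (htT : t < S.Ts g) :
    ∃ e > 0, ∀ g', S.Adm g' → ∀ u, 0 ≤ u → u ≤ t → (∀ s, 0 ≤ s → s ≤ u → g s = g' s) →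
      ∀ s, 0 ≤ s → s ≤ u + e → S.Psi g s = S.Psi g' s := by
  obtain ⟨k1, k2, k3, k4⟩ := S.Ts_spec hg
  set t1 := (max t S.D0 + S.Ts g) / 2 with ht1
  have hm : max t S.D0 < S.Ts g := max_lt htT k1
  have h1 : t1 < S.Ts g := by rw [ht1]; linarith
  have h2 : max t S.D0 < t1 := by rw [ht1]; linarith
  have h3 : S.D0 ≤ t1 := (le_max_right _ _).trans h2.le
  have h4 : t < t1 := lt_of_le_of_lt (le_max_left _ _) h2
  obtain ⟨e0, he0, he0'⟩ : ∃ e0 > 0, ∀ s ∈ Icc S.D0 t1, e0 ≤ s - S.sg g s := by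
    have hc : ContinuousOn (fun s => s - S.sg g s) (Icc S.D0 t1) :=
      continuousOn_id.sub ((S.sg_cont hg).mono (fun t ht => ht.1))
    obtain ⟨s0, hs0, hmin⟩ := isCompact_Icc.exists_isMinOn ⟨S.D0, ⟨le_rfl, h3⟩⟩ hc
    refine ⟨s0 - S.sg g s0, ?_, fun s hs => hmin hs⟩
    have := k4 s0 hs0.1 (lt_of_le_of_lt hs0.2 h1)
    linarith
  refine ⟨min e0 (t1 - t), lt_min he0 (by linarith), ?_⟩
  intro g' hg' u hu0 hut hag s hs0 hsu
  obtain ⟨m1, m2, m3, m4⟩ := S.Ts_spec hg'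
  have h5 : s ≤ t1 := by
    have := min_le_right e0 (t1 - t)
    linarith
  have h6 : s ≤ u + e0 := by
    have := min_le_left e0 (t1 - t)
    linarith
  by_cases hD : s < S.D0
  · rw [S.Psi_lt (hD.trans k1), S.Psi_lt (hD.trans m1), max_eq_right hD.le, S.lam_D0 hg,
      S.lam_D0 hg']
  · push Not at hD
    have h7 := he0' s ⟨hD, h5⟩
    have h8 : s < S.Ts g := lt_of_le_of_lt h5 h1
    obtain ⟨h9, h10⟩ := S.agree_lt hg hg' hag hD (by linarith) h8
    rw [S.Psi_lt h8, S.Psi_lt h9, max_eq_left hD, h10]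

/-- Robust capture. -/
theorem no_CWe : ¬ CWe (Hp S.p.c.y) S.x0 := by
  rintro ⟨G, hG⟩
  refine delayed hG S.Psi S.Ts (fun g h1 h2 => S.Psi_LL ⟨h1, h2⟩) ?_ ?_ ?_
  · intro g h1 h2
    have h := S.Ts_spec (g := g) ⟨h1, h2⟩
    exact ⟨S.D0_pos.le.trans h.1.le, S.Psi_ge le_rfl⟩
  · intro g g' h1 h2 h1' h2' u hag s hs0 hsu
    exact S.Psi_causal ⟨h1, h2⟩ ⟨h1', h2'⟩ hag hs0 hsu
  · intro g h1 h2 t ht0 htT
    obtain ⟨e, he, h⟩ := S.Psi_margin (g := g) ⟨h1, h2⟩ htT
    exact ⟨e, he, fun g' h1' h2' u hu0 hut hag s hs0 hsu =>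
      h g' ⟨h1', h2'⟩ u hu0 hut hag s hs0 hsu⟩

end Setup

lemma exists_ee (B : ℝ) (hB : 1 ≤ B) : ∃ ee > 0, ee * (B ^ 2 + 2 * B) ≤ 1 / 2 ∧
    2 * (B + 2) * ee * B ≤ 1 ∧ 12 * (B + 4) * ee ≤ al / (1 + B) ^ 4 := by
  have ha := al_pos
  refine ⟨min (min (1 / (2 * (B ^ 2 + 2 * B))) (1 / (2 * (B + 2) * B)))
    (al / (1 + B) ^ 4 / (12 * (B + 4))), ?_, ?_, ?_, ?_⟩
  · apply lt_min (lt_min _ _) <;> positivity
  · set m := min (min (1 / (2 * (B ^ 2 + 2 * B))) (1 / (2 * (B + 2) * B)))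
      (al / (1 + B) ^ 4 / (12 * (B + 4))) with hm
    have h1 : m ≤ 1 / (2 * (B ^ 2 + 2 * B)) := (min_le_left _ _).trans (min_le_left _ _)
    rw [le_div_iff₀ (by positivity)] at h1
    linarith
  · set m := min (min (1 / (2 * (B ^ 2 + 2 * B))) (1 / (2 * (B + 2) * B)))
      (al / (1 + B) ^ 4 / (12 * (B + 4))) with hm
    have h1 : m ≤ 1 / (2 * (B + 2) * B) := (min_le_left _ _).trans (min_le_right _ _)
    rw [le_div_iff₀ (by positivity)] at h1
    linarith
  · set m := min (min (1 / (2 * (B ^ 2 + 2 * B))) (1 / (2 * (B + 2) * B)))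
      (al / (1 + B) ^ 4 / (12 * (B + 4))) with hm
    have h1 : m ≤ al / (1 + B) ^ 4 / (12 * (B + 4)) := min_le_right _ _
    rw [le_div_iff₀ (by positivity)] at h1
    linarith

theorem capture_level {x : X} (hx : x ≠ omX) : ¬ CWe (Hp (yX x)) x := by
  by_cases hH : x ∈ HH
  · rcases HH_cases hH with h | ⟨z, hz, h⟩
    · exact absurd h hx
    · rintro ⟨G, hG⟩
      have e : Hp (yX x) = x := by rw [h, yX_Hp hz]
      rw [e] at hG
      have h1 : LL (fun _ : ℝ => x) := fun t t' => by simp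
      have h2 := hG.path _ h1 rfl
      exact hG.safe _ h1 rfl 0 le_rfl h2.2
  · obtain ⟨hp, he⟩ := lift_off hH
    obtain ⟨ee, hee, h1, h2, h3⟩ := exists_ee (1 + (lift x).c.y) (by
      have := (lift x).c.hy; linarith)
    have := (Setup.mk (lift x) hp ee hee h1 h2 h3).no_CWe
    rw [yX_off hH]
    intro hc
    apply this
    have e2 : (Setup.mk (lift x) hp ee hee h1 h2 h3).x0 = x := he.symm
    rw [e2]
    exact hc

end

end H44LC
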