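import Pool.Agent.H44.LC.Real

set_option autoImplicit false

open Set

namespace H44LC

noncomputable section

/-! ### Local to global -/

lemma ltg_right {M : Type*} [PseudoMetricSpace M] (f : ℝ → M) (K a b : ℝ) (hab : a ≤ b)
    (hc : ContinuousOn f (Icc a b))
    (h : ∀ t ∈ Ico a b, ∃ κ > 0, ∀ t' ∈ Icc a b, t < t' → t' < t + κ →
      dist (f t) (f t') ≤ K * (t' - t)) :
    dist (f a) (f b) ≤ K * (b - a) := by
  have hcl : IsClosed ({t | dist (f a) (f t) ≤ K * (t - a)} ∩ Icc a b) := by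
    have h1 : ContinuousOn (fun t => dist (f a) (f t) - K * (t - a)) (Icc a b) :=
      (continuous_dist.comp_continuousOn (continuousOn_const.prodMk hc)).sub (by fun_prop)
    have h2 := h1.preimage_isClosed_of_isClosed isClosed_Icc (isClosed_Iic (a := (0:ℝ)))
    convert h2 using 1
    ext t
    simp only [mem_inter_iff, mem_ofPred_eq, mem_preimage, mem_Iic, sub_nonpos]
    tauto
  have hsub := hcl.Icc_subset_of_forall_exists_gt (by simp) (by
    rintro t ⟨ht1, ht2⟩ z hz
    obtain ⟨κ, hκ, h3⟩ := h t ht2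
    have hz' : t < z := hz
    set t' := min (min z b) (t + κ / 2) with ht'
    have h4 : t < t' := by
      rw [ht']
      apply lt_min (lt_min hz' ht2.2); linarith
    have h5 : t' ≤ b := (min_le_left _ _).trans (min_le_right _ _)
    have h6 : t' ≤ z := (min_le_left _ _).trans (min_le_left _ _)
    have h7 : t' < t + κ := lt_of_le_of_lt (min_le_right _ _) (by linarith)
    refine ⟨t', ?_, h4, h6⟩
    have h8 := h3 t' ⟨ht2.1.trans h4.le, h5⟩ h4 h7
    have h9 : dist (f a) (f t) ≤ K * (t - a) := ht1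
    change dist (f a) (f t') ≤ K * (t' - a)
    calc dist (f a) (f t') ≤ dist (f a) (f t) + dist (f t) (f t') := dist_triangle _ _ _
      _ ≤ K * (t - a) + K * (t' - t) := add_le_add h9 h8
      _ = K * (t' - a) := by ring)
  exact hsub ⟨hab, le_rfl⟩

lemma ltg {M : Type*} [PseudoMetricSpace M] (f : ℝ → M) (K a b : ℝ) (hK : 0 ≤ K) (hab : a ≤ b)
    (h : ∀ t ∈ Icc a b, ∃ κ > 0, ∀ t' ∈ Icc a b, |t' - t| < κ →
      dist (f t) (f t') ≤ K * |t' - t|) :
    dist (f a) (f b) ≤ K * (b - a) := by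
  apply ltg_right f K a b hab
  · intro t ht
    rw [Metric.continuousWithinAt_iff]
    intro e he
    obtain ⟨κ, hκ, h1⟩ := h t ht
    refine ⟨min κ (e / (K + 1)), lt_min hκ (by positivity), fun {t'} ht' hd => ?_⟩
    rw [Real.dist_eq] at hd
    have h2 := h1 t' ht' (lt_of_lt_of_le hd (min_le_left _ _))
    rw [dist_comm]
    have h3 := lt_of_lt_of_le hd (min_le_right _ _)
    have h4 : (K + 1) * |t' - t| < e := by
      rw [lt_div_iff₀ (by positivity)] at h3
      linarith
    have h5 := abs_nonneg (t' - t)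
    nlinarith
  · intro t ht
    obtain ⟨κ, hκ, h1⟩ := h t ⟨ht.1, ht.2.le⟩
    refine ⟨κ, hκ, fun t' ht' h2 h3 => ?_⟩
    have h4 : |t' - t| = t' - t := abs_of_pos (by linarith)
    have := h1 t' ht' (by rw [h4]; linarith)
    rwa [h4] at this

/-! ### Gates -/

/-- Gate positions (distance to the end of the spine). -/
def xg (n : ℕ) : ℝ := (1 / 2) ^ (n + 4)
/-- The losses. -/
def eps (n : ℕ) : ℝ := xg n / 16
/-- Clock time at the top of the tooth. -/
def wt (n : ℕ) : ℝ := 2 ^ (n + 3) - 1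
/-- Tooth heights. -/
def Sg (n : ℕ) : ℝ := wt n - xg n
/-- Gate positions on the spine. -/
def ug (n : ℕ) : ℝ := (-1) ^ n * (1 - xg n)

lemma xg_pos (n : ℕ) : 0 < xg n := by unfold xg; positivity

lemma xg_le (n : ℕ) : xg n ≤ 1 / 16 := by
  unfold xg
  calc (1 / 2 : ℝ) ^ (n + 4) ≤ (1 / 2) ^ 4 :=
        pow_le_pow_of_le_one (by norm_num) (by norm_num) (by omega)
    _ = 1 / 16 := by norm_num

lemma xg_succ (n : ℕ) : xg (n + 1) = xg n / 2 := by
  unfold xg; ring

lemma xg_anti {m n : ℕ} (h : m ≤ n) : xg n ≤ xg m := by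
  unfold xg
  exact pow_le_pow_of_le_one (by norm_num) (by norm_num) (by omega)

lemma xg_strictAnti {m n : ℕ} (h : m < n) : xg n < xg m := by
  have h1 : xg n ≤ xg (m + 1) := xg_anti h
  rw [xg_succ] at h1
  have := xg_pos m
  linarith

lemma eps_pos (n : ℕ) : 0 < eps n := by
  have := xg_pos n
  unfold eps; positivity

/-- `1 + w_n = 1/(2 x_n)`. -/
lemma two_xg_mul (n : ℕ) : 2 * xg n * (1 + wt n) = 1 := by
  unfold xg wt
  have : (1 / 2 : ℝ) ^ (n + 4) = ((2:ℝ) ^ (n + 3))⁻¹ / 2 := by
    rw [one_div, inv_pow, pow_succ, mul_inv]; ring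
  rw [this]
  have h2 : (2:ℝ) ^ (n + 3) ≠ 0 := by positivity
  field_simp
  ring

lemma wt_ge (n : ℕ) : 7 ≤ wt n := by
  unfold wt
  have : (2:ℝ) ^ 3 ≤ 2 ^ (n + 3) := pow_le_pow_right₀ (by norm_num) (by omega)
  norm_num at this ⊢
  linarith

lemma Sg_ge (n : ℕ) : 6 ≤ Sg n := by
  unfold Sg
  have := wt_ge n
  have := xg_le n
  linarith

lemma Sg_pos (n : ℕ) : 0 < Sg n := by
  have := Sg_ge n
  linarith

lemma A_wt (n : ℕ) : A (wt n) = Sg n + al + eps n := by
  have h := two_xg_mul n
  have hw := wt_ge n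
  unfold A Sg eps
  have h1 : (1 + wt n) ≠ 0 := by linarith
  have h2 : wt n / (1 + wt n) = 1 - 2 * xg n := by
    rw [div_eq_iff h1]
    nlinarith
  have h3 : al * wt n / (1 + wt n) = al * (wt n / (1 + wt n)) := by ring
  rw [h3, h2]
  unfold al
  ring

lemma abs_ug (n : ℕ) : |ug n| = 1 - xg n := by
  unfold ug
  rw [abs_mul, abs_pow, abs_neg, abs_one, one_pow, one_mul]
  apply abs_of_pos
  have := xg_le n
  linarith

lemma ug_inj {m n : ℕ} (h : ug m = ug n) : m = n := by
  have h1 : xg m = xg n := by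
    have := congrArg abs h
    rw [abs_ug, abs_ug] at this
    linarith
  by_contra hne
  rcases lt_or_gt_of_ne hne with h2 | h2
  · exact absurd h1 (xg_strictAnti h2).ne'
  · exact absurd h1 (xg_strictAnti h2).ne

/-! ### The fibre -/

/-- The coiled comb. -/
@[ext]
structure F where
  k : ℝ
  y : ℝ
  hk : |k| ≤ 1
  hy : 0 ≤ y
  hg : y = 0 ∨ ∃ n, k = ug n ∧ y ≤ Sg n

/-- Coil size. -/
def dl (k : ℝ) : ℝ := 1 - |k|

lemma dl_nonneg (c : F) : 0 ≤ dl c.k := by
  have := c.hk
  unfold dl; linarith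

lemma dl_ug (n : ℕ) : dl (ug n) = xg n := by
  unfold dl; rw [abs_ug]; ring

lemma dl_pos_of_y (c : F) (h : 0 < c.y) : 0 < dl c.k := by
  rcases c.hg with h1 | ⟨n, h1, _⟩
  · linarith
  · rw [h1, dl_ug]; exact xg_pos n

lemma dl_lip (k k' : ℝ) : |dl k - dl k'| ≤ |k - k'| := by
  unfold dl
  have h := abs_abs_sub_abs_le k' k
  rw [abs_sub_comm k k']
  refine le_trans (le_of_eq ?_) h
  congr 1
  ring

def rho (c c' : F) : ℝ :=
  if c.k = c'.k then min |c.y - c'.y| (dl c.k)
  else |c.k - c'.k| + min c.y (dl c.k) + min c'.y (dl c'.k)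

def rhat (c c' : F) : ℝ :=
  if c.k = c'.k then |c.y - c'.y| else |c.k - c'.k| + c.y + c'.y

lemma rho_same {c c' : F} (h : c.k = c'.k) : rho c c' = min |c.y - c'.y| (dl c.k) := by
  simp [rho, h]

lemma rho_diff {c c' : F} (h : c.k ≠ c'.k) :
    rho c c' = |c.k - c'.k| + min c.y (dl c.k) + min c'.y (dl c'.k) := by
  simp [rho, h]

lemma rhat_same {c c' : F} (h : c.k = c'.k) : rhat c c' = |c.y - c'.y| := by
  simp [rhat, h]

lemma rhat_diff {c c' : F} (h : c.k ≠ c'.k) : rhat c c' = |c.k - c'.k| + c.y + c'.y := by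
  simp [rhat, h]

lemma mn_nonneg (c : F) : 0 ≤ min c.y (dl c.k) := le_min c.hy (dl_nonneg c)

lemma rho_nonneg (c c' : F) : 0 ≤ rho c c' := by
  unfold rho
  split_ifs with h
  · exact le_min (abs_nonneg _) (dl_nonneg c)
  · have := mn_nonneg c
    have := mn_nonneg c'
    have := abs_nonneg (c.k - c'.k)
    linarith

lemma rho_comm (c c' : F) : rho c c' = rho c' c := by
  unfold rho
  by_cases h : c.k = c'.k
  · rw [if_pos h, if_pos h.symm, abs_sub_comm, h]
  · rw [if_neg h, if_neg (Ne.symm h), abs_sub_comm]; ring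

lemma rhat_comm (c c' : F) : rhat c c' = rhat c' c := by
  unfold rhat
  by_cases h : c.k = c'.k
  · rw [if_pos h, if_pos h.symm, abs_sub_comm]
  · rw [if_neg h, if_neg (Ne.symm h), abs_sub_comm]; ring

lemma rho_self (c : F) : rho c c = 0 := by
  rw [rho_same rfl]; simp [dl_nonneg c]

lemma rho_le_rhat (c c' : F) : rho c c' ≤ rhat c c' := by
  unfold rho rhat
  split_ifs with h
  · exact min_le_left _ _
  · have := min_le_left c.y (dl c.k)
    have := min_le_left c'.y (dl c'.k)
    linarith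

lemma abs_k_le_rho (c c' : F) : |c.k - c'.k| ≤ rho c c' := by
  unfold rho
  split_ifs with h
  · rw [h, sub_self, abs_zero]
    exact le_min (abs_nonneg _) (dl_nonneg c')
  · have := mn_nonneg c
    have := mn_nonneg c'
    linarith

lemma abs_y_le_rhat (c c' : F) : |c.y - c'.y| ≤ rhat c c' := by
  unfold rhat
  split_ifs with h
  · exact le_rfl
  · have h1 := abs_nonneg (c.k - c'.k)
    have := c.hy
    have := c'.hy
    rw [abs_le]; constructor <;> linarith

lemma min_abs_le (c c' : F) : min |c.y - c'.y| (dl c.k) ≤ min c.y (dl c.k) + min c'.y (dl c.k) := by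
  have h1 := c.hy
  have h2 := c'.hy
  have h3 := dl_nonneg c
  rcases le_total c.y (dl c.k) with ha | ha <;> rcases le_total c'.y (dl c.k) with hb | hb
  · rw [min_eq_left ha, min_eq_left hb]
    apply (min_le_left _ _).trans
    rw [abs_le]; constructor <;> linarith
  · rw [min_eq_right hb]
    apply (min_le_right _ _).trans
    have := mn_nonneg c
    linarith
  · rw [min_eq_right ha]
    apply (min_le_right _ _).trans
    have : 0 ≤ min c'.y (dl c.k) := le_min h2 h3
    linarith
  · rw [min_eq_right ha]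
    apply (min_le_right _ _).trans
    have : 0 ≤ min c'.y (dl c.k) := le_min h2 h3
    linarith

lemma min_le_min_add (c c' : F) : min c.y (dl c.k) ≤ min |c.y - c'.y| (dl c.k) + min c'.y (dl c.k) := by
  have h1 := c.hy
  have h2 := c'.hy
  have h3 := dl_nonneg c
  rcases le_total |c.y - c'.y| (dl c.k) with ha | ha
  · rw [min_eq_left ha]
    rcases le_total c'.y (dl c.k) with hb | hb
    · rw [min_eq_left hb]
      apply (min_le_left _ _).trans
      have := le_abs_self (c.y - c'.y)
      linarith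
    · rw [min_eq_right hb]
      apply (min_le_right _ _).trans
      have := abs_nonneg (c.y - c'.y)
      linarith
  · rw [min_eq_right ha]
    apply (min_le_right _ _).trans
    have : 0 ≤ min c'.y (dl c.k) := le_min h2 h3
    linarith

lemma rho_tri (c1 c2 c3 : F) : rho c1 c3 ≤ rho c1 c2 + rho c2 c3 := by
  by_cases h12 : c1.k = c2.k <;> by_cases h23 : c2.k = c3.k
  · have h13 : c1.k = c3.k := h12.trans h23
    rw [rho_same h12, rho_same h23, rho_same h13, ← h12]
    have h3 := dl_nonneg c1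
    have ht : |c1.y - c3.y| ≤ |c1.y - c2.y| + |c2.y - c3.y| := abs_sub_le _ _ _
    rcases le_total |c1.y - c2.y| (dl c1.k) with ha | ha
    · rw [min_eq_left ha]
      rcases le_total |c2.y - c3.y| (dl c1.k) with hb | hb
      · rw [min_eq_left hb]
        exact (min_le_left _ _).trans ht
      · rw [min_eq_right hb]
        apply (min_le_right _ _).trans
        have := abs_nonneg (c1.y - c2.y)
        linarith
    · rw [min_eq_right ha]
      apply (min_le_right _ _).trans
      have : 0 ≤ min |c2.y - c3.y| (dl c1.k) := le_min (abs_nonneg _) h3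
      linarith
  · have h13 : c1.k ≠ c3.k := by rw [h12]; exact h23
    rw [rho_same h12, rho_diff h23, rho_diff h13]
    have h4 := min_le_min_add c1 c2
    rw [h12] at h4 ⊢
    linarith
  · have h13 : c1.k ≠ c3.k := by rw [← h23]; exact h12
    rw [rho_diff h12, rho_same h23, rho_diff h13]
    have h4 := min_le_min_add c3 c2
    rw [← h23] at h4 ⊢
    rw [abs_sub_comm c3.y c2.y] at h4
    linarith
  · by_cases h13 : c1.k = c3.k
    · rw [rho_diff h12, rho_diff h23, rho_same h13]
      have h4 := min_abs_le c1 c3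
      have h5 := mn_nonneg c2
      have h6 := abs_nonneg (c1.k - c2.k)
      have h7 := abs_nonneg (c2.k - c1.k)
      rw [← h13]
      linarith
    · rw [rho_diff h12, rho_diff h23, rho_diff h13]
      have h5 := mn_nonneg c2
      have h6 := abs_sub_le c1.k c2.k c3.k
      linarith

lemma rhat_nonneg (c c' : F) : 0 ≤ rhat c c' := (rho_nonneg c c').trans (rho_le_rhat c c')

lemma rhat_tri (c1 c2 c3 : F) : rhat c1 c3 ≤ rhat c1 c2 + rhat c2 c3 := by
  have hy1 := c1.hy
  have hy2 := c2.hy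
  have hy3 := c3.hy
  by_cases h12 : c1.k = c2.k <;> by_cases h23 : c2.k = c3.k
  · have h13 : c1.k = c3.k := h12.trans h23
    rw [rhat_same h12, rhat_same h23, rhat_same h13]
    exact abs_sub_le _ _ _
  · have h13 : c1.k ≠ c3.k := by rw [h12]; exact h23
    rw [rhat_same h12, rhat_diff h23, rhat_diff h13, h12]
    have := le_abs_self (c1.y - c2.y)
    linarith
  · have h13 : c1.k ≠ c3.k := by rw [← h23]; exact h12
    rw [rhat_diff h12, rhat_same h23, rhat_diff h13, ← h23]
    have := neg_abs_le (c2.y - c3.y)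
    linarith
  · by_cases h13 : c1.k = c3.k
    · rw [rhat_diff h12, rhat_diff h23, rhat_same h13]
      have h6 := abs_nonneg (c1.k - c2.k)
      have h7 := abs_nonneg (c2.k - c3.k)
      rw [abs_le]; constructor <;> linarith
    · rw [rhat_diff h12, rhat_diff h23, rhat_diff h13]
      have h6 := abs_sub_le c1.k c2.k c3.k
      linarith

instance : MetricSpace F where
  dist := rho
  dist_self := rho_self
  dist_comm := rho_comm
  dist_triangle := rho_tri
  eq_of_dist_eq_zero := by
    intro c c' h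
    have h : rho c c' = 0 := h
    by_cases hk : c.k = c'.k
    · rw [rho_same hk] at h
      have h1 : c.y = c'.y := by
        by_cases hy : 0 < c.y ∨ 0 < c'.y
        · have hd : 0 < dl c.k := by
            rcases hy with hy | hy
            · exact dl_pos_of_y c hy
            · rw [hk]; exact dl_pos_of_y c' hy
          rcases min_choice |c.y - c'.y| (dl c.k) with h2 | h2
          · rw [h2] at h
            exact sub_eq_zero.1 (abs_eq_zero.1 h)
          · rw [h2] at h; linarith
        · push Not at hy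
          have := c.hy
          have := c'.hy
          linarith [hy.1, hy.2]
      exact F.ext hk h1
    · rw [rho_diff hk] at h
      have h5 := mn_nonneg c
      have h6 := mn_nonneg c'
      have h7 : 0 < |c.k - c'.k| := abs_pos.2 (sub_ne_zero.2 hk)
      linarith

lemma dist_F (c c' : F) : dist c c' = rho c c' := rfl

lemma near_tooth {c c' : F} (h : rho c c' < min c.y (dl c.k)) :
    c'.k = c.k ∧ |c.y - c'.y| = rho c c' := by
  have hk : c.k = c'.k := by
    by_contra hk
    rw [rho_diff hk] at h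
    have h5 := mn_nonneg c'
    have h7 := abs_nonneg (c.k - c'.k)
    linarith
  refine ⟨hk.symm, ?_⟩
  rw [rho_same hk] at h ⊢
  rcases min_choice |c.y - c'.y| (dl c.k) with h2 | h2
  · exact h2.symm
  · rw [h2] at h
    exact absurd (lt_of_lt_of_le h (min_le_right _ _)) (lt_irrefl _)

/-! ### Lipschitz paths in the comb -/

lemma path_pos (c : ℝ → F) (a b : ℝ) (hab : a ≤ b)
    (hL : ∀ t ∈ Icc a b, ∀ t' ∈ Icc a b, dist (c t) (c t') ≤ |t - t'|)
    (hp : ∀ t ∈ Icc a b, 0 < (c t).y) :
    (c a).k = (c b).k ∧ |(c a).y - (c b).y| ≤ b - a := by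
  have key : ∀ t ∈ Icc a b, ∃ κ > 0, ∀ t' ∈ Icc a b, |t' - t| < κ →
      (c t').k = (c t).k ∧ |(c t).y - (c t').y| ≤ |t' - t| := by
    intro t ht
    refine ⟨min (c t).y (dl (c t).k), lt_min (hp t ht) (dl_pos_of_y _ (hp t ht)), ?_⟩
    intro t' ht' hd
    have h1 := hL t ht t' ht'
    rw [dist_F, abs_sub_comm] at h1
    obtain ⟨h2, h3⟩ := near_tooth (lt_of_le_of_lt h1 hd)
    exact ⟨h2, h3.le.trans h1⟩
  constructor
  · have h1 := ltg (fun t => (c t).k) 0 a b le_rfl hab (by
      intro t ht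
      obtain ⟨κ, hκ, h2⟩ := key t ht
      refine ⟨κ, hκ, fun t' ht' hd => ?_⟩
      simp [(h2 t' ht' hd).1])
    rw [zero_mul] at h1
    exact dist_le_zero.1 h1
  · have h1 := ltg (fun t => (c t).y) 1 a b zero_le_one hab (by
      intro t ht
      obtain ⟨κ, hκ, h2⟩ := key t ht
      refine ⟨κ, hκ, fun t' ht' hd => ?_⟩
      rw [Real.dist_eq, one_mul]
      exact (h2 t' ht' hd).2)
    rwa [Real.dist_eq, one_mul] at h1

lemma path_end (c : ℝ → F) (a b : ℝ) (hab : a ≤ b)
    (hL : ∀ t ∈ Icc a b, ∀ t' ∈ Icc a b, dist (c t) (c t') ≤ |t - t'|)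
    (hp : ∀ t ∈ Ico a b, 0 < (c t).y) (hb : (c b).y = 0) :
    (c a).k = (c b).k ∧ (c a).y ≤ b - a := by
  rcases hab.eq_or_lt with h0 | h0
  · subst h0
    simp [hb]
  have hpa : 0 < (c a).y := hp a ⟨le_rfl, h0⟩
  have hda : 0 < dl (c a).k := dl_pos_of_y _ hpa
  have h1 : ∀ t ∈ Ico a b, (c a).k = (c t).k ∧ |(c a).y - (c t).y| ≤ t - a := by
    intro t ht
    apply path_pos c a t ht.1
    · intro s hs s' hs'
      exact hL s ⟨hs.1, hs.2.trans ht.2.le⟩ s' ⟨hs'.1, hs'.2.trans ht.2.le⟩
    · intro s hs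
      exact hp s ⟨hs.1, lt_of_le_of_lt hs.2 ht.2⟩
  have hk : (c a).k = (c b).k := by
    by_contra hne
    have hpos : 0 < |(c a).k - (c b).k| := abs_pos.2 (sub_ne_zero.2 hne)
    set t := max a (b - |(c a).k - (c b).k| / 2) with ht
    have ht1 : t ∈ Ico a b := ⟨le_max_left _ _, max_lt h0 (by linarith)⟩
    have h2 := hL t ⟨ht1.1, ht1.2.le⟩ b ⟨h0.le, le_rfl⟩
    rw [dist_F] at h2
    have h3 := (abs_k_le_rho (c t) (c b)).trans h2
    rw [← (h1 t ht1).1] at h3
    rw [abs_sub_comm t b, abs_of_pos (by linarith [ht1.2] : 0 < b - t)] at h3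
    have h4 : b - |(c a).k - (c b).k| / 2 ≤ t := le_max_right _ _
    linarith
  refine ⟨hk, ?_⟩
  apply le_of_forall_pos_le_add
  intro e he
  set t := max a (b - min e (dl (c a).k) / 2) with ht
  have hm : 0 < min e (dl (c a).k) := lt_min he hda
  have ht1 : t ∈ Ico a b := ⟨le_max_left _ _, max_lt h0 (by linarith)⟩
  have h2 := hL t ⟨ht1.1, ht1.2.le⟩ b ⟨h0.le, le_rfl⟩
  have hkt : (c t).k = (c b).k := (h1 t ht1).1.symm.trans hk
  rw [dist_F, rho_same hkt, hb, sub_zero, abs_of_nonneg (c t).hy, abs_sub_comm t b,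
    abs_of_pos (by linarith [ht1.2] : 0 < b - t), ← (h1 t ht1).1] at h2
  have h4 : b - min e (dl (c a).k) / 2 ≤ t := le_max_right _ _
  have h5 := min_le_right e (dl (c a).k)
  have h6 : (c t).y ≤ b - t := by
    rcases min_choice (c t).y (dl (c a).k) with h7 | h7
    · rw [h7] at h2; exact h2
    · rw [h7] at h2; linarith
  have h7 := (abs_le.1 (h1 t ht1).2).2
  linarith

/-- Lipschitz paths in the coiled comb are Lipschitz for the path metric. -/
lemma comb_path (c : ℝ → F) (a b : ℝ) (hab : a ≤ b)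
    (hL : ∀ t ∈ Icc a b, ∀ t' ∈ Icc a b, dist (c t) (c t') ≤ |t - t'|) :
    rhat (c a) (c b) ≤ b - a := by
  set I : Set ℝ := {t | t ∈ Icc a b ∧ (c t).y = 0} with hI
  by_cases hne : I.Nonempty
  · have hIc : IsClosed I := by
      rw [← isOpen_compl_iff, Metric.isOpen_iff]
      intro t ht
      by_cases htab : t ∈ Icc a b
      · have hy : 0 < (c t).y := by
          rcases (c t).hy.eq_or_lt with h | h
          · exact absurd ⟨htab, h.symm⟩ ht
          · exact h
        refine ⟨min (c t).y (dl (c t).k), lt_min hy (dl_pos_of_y _ hy), ?_⟩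
        intro t' ht' hin
        rw [Metric.mem_ball, Real.dist_eq] at ht'
        have h1 := hL t htab t' hin.1
        rw [dist_F, abs_sub_comm] at h1
        have hlt := lt_of_le_of_lt h1 ht'
        obtain ⟨h2, h3⟩ := near_tooth hlt
        rw [hin.2, sub_zero, abs_of_pos hy] at h3
        rw [← h3] at hlt
        exact absurd (lt_of_lt_of_le hlt (min_le_left _ _)) (lt_irrefl _)
      · have : (Icc a b)ᶜ ∈ nhds t := isClosed_Icc.isOpen_compl.mem_nhds htab
        obtain ⟨e, he, h1⟩ := Metric.mem_nhds_iff.1 this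
        exact ⟨e, he, fun t' ht' hin => h1 ht' hin.1⟩
    have hIk : IsCompact I := by
      apply isCompact_Icc.of_isClosed_subset hIc
      intro t ht; exact ht.1
    obtain ⟨t1, h1⟩ := hIk.exists_isLeast hne
    obtain ⟨t2, h2⟩ := hIk.exists_isGreatest hne
    have h12 : t1 ≤ t2 := h1.2 h2.1
    have ha1 : a ≤ t1 := h1.1.1.1
    have h2b : t2 ≤ b := h2.1.1.2
    have hA := path_end c a t1 ha1
      (fun t ht t' ht' => hL t ⟨ht.1, ht.2.trans (h12.trans h2b)⟩ t'
        ⟨ht'.1, ht'.2.trans (h12.trans h2b)⟩)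
      (by
        intro t ht
        rcases (c t).hy.eq_or_lt with h | h
        · exact absurd (h1.2 ⟨⟨ht.1, ht.2.le.trans (h12.trans h2b)⟩, h.symm⟩) (not_le.2 ht.2)
        · exact h) h1.1.2
    have hB := path_end (fun t => c (-t)) (-b) (-t2) (by linarith)
      (fun t ht t' ht' => by
        have := hL (-t) ⟨by linarith [ht.2], by linarith [ht.1]⟩ (-t')
          ⟨by linarith [ht'.2], by linarith [ht'.1]⟩
        rw [show -t - -t' = -(t - t') by ring, abs_neg] at this
        exact this)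
      (by
        intro t ht
        rcases (c (-t)).hy.eq_or_lt with h | h
        · exact absurd (h2.2 ⟨⟨by linarith [ht.2], by linarith [ht.1]⟩, h.symm⟩)
            (not_le.2 (by linarith [ht.2]))
        · exact h) (by simpa using h2.1.2)
    simp only [neg_neg] at hB
    have hK : |(c t1).k - (c t2).k| ≤ t2 - t1 := by
      have h3 := hL t1 ⟨ha1, h12.trans h2b⟩ t2 ⟨ha1.trans h12, h2b⟩
      rw [dist_F, abs_sub_comm t1 t2, abs_of_nonneg (sub_nonneg.2 h12)] at h3
      exact (abs_k_le_rho _ _).trans h3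
    have hya := (c a).hy
    have hyb := (c b).hy
    by_cases hk : (c a).k = (c b).k
    · rw [rhat_same hk, abs_le]
      constructor <;> linarith [hA.2, hB.2]
    · rw [rhat_diff hk, hA.1, hB.1]
      linarith [hA.2, hB.2]
  · have hp : ∀ t ∈ Icc a b, 0 < (c t).y := by
      intro t ht
      rcases (c t).hy.eq_or_lt with h | h
      · exact absurd ⟨t, ht, h.symm⟩ hne
      · exact h
    obtain ⟨h1, h2⟩ := path_pos c a b hab hL hp
    rw [rhat_same h1]
    exact h2

end

end H44LC
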