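import Pool.Agent.H44.LC.Glue

set_option autoImplicit false

open Set Filter Topology

namespace H44LC

noncomputable section

lemma rho_le_zero_y (c : F) (k0 : ℝ) (h0 : |k0| ≤ 1) :
    rho c ⟨k0, 0, h0, le_rfl, Or.inl rfl⟩ ≤ |c.k - k0| + c.y := by
  have h1 := c.hy
  have h2 := abs_nonneg (c.k - k0)
  have h3 := min_le_left c.y (dl c.k)
  by_cases hk : c.k = k0
  · rw [rho_same (by exact hk)]
    simp only [sub_zero, abs_of_nonneg h1]
    linarith
  · rw [rho_diff (by exact hk)]
    have h4 : min (0:ℝ) (dl k0) ≤ 0 := min_le_left _ _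
    simp only
    linarith

lemma rho_le_zero_dl (c : F) (k0 : ℝ) (h0 : |k0| ≤ 1) :
    rho c ⟨k0, 0, h0, le_rfl, Or.inl rfl⟩ ≤ |c.k - k0| + dl c.k := by
  have h1 := c.hy
  have h2 := abs_nonneg (c.k - k0)
  have h3 := min_le_right c.y (dl c.k)
  by_cases hk : c.k = k0
  · rw [rho_same (by exact hk)]
    simp only [sub_zero, abs_of_nonneg h1]
    linarith
  · rw [rho_diff (by exact hk)]
    have h4 : min (0:ℝ) (dl k0) ≤ 0 := min_le_left _ _
    simp only
    linarith

lemma tendsto_of_bound {f : Ultrafilter Z} {z0 : Z} {e : Z → ℝ}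
    (hs : Tendsto (fun p : Z => p.s) f (𝓝 z0.s))
    (he : Tendsto e f (𝓝 0)) (hb : ∀ᶠ p in (f : Filter Z), rho p.c z0.c ≤ e p) :
    (f : Filter Z) ≤ 𝓝 z0 := by
  have h1 : Tendsto (fun p : Z => 2 * (|p.s - z0.s| + e p)) f (𝓝 0) := by
    have h2 : Tendsto (fun p : Z => |p.s - z0.s|) f (𝓝 0) := by
      have := (hs.sub_const z0.s).abs
      simpa using this
    have := (h2.add he).const_mul 2
    simpa using this
  have h3 : Tendsto (fun p : Z => dist p z0) f (𝓝 0) := by
    apply squeeze_zero' (Eventually.of_forall fun _ => dist_nonneg) _ h1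
    filter_upwards [hb] with p hp
    have h4 := dist_Z_le p z0
    have h5 : max |p.s - z0.s| (rho p.c z0.c) ≤ |p.s - z0.s| + e p := by
      apply max_le
      · linarith [(rho_nonneg p.c z0.c).trans hp]
      · linarith [abs_nonneg (p.s - z0.s)]
    linarith
  have h4 : Tendsto (id : Z → Z) f (𝓝 z0) := tendsto_iff_dist_tendsto_zero.2 h3
  simpa [Tendsto] using h4

lemma ZN_compact (N : ℝ) : IsCompact {p : Z | p.s ≤ N} := by
  rw [isCompact_iff_ultrafilter_le_nhds]
  intro f hf
  have hf' : ∀ᶠ p in (f : Filter Z), p.s ≤ N := le_principal_iff.1 hf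
  let g : Z → ℝ × ℝ × ℝ := fun p => (p.s, p.c.k, p.c.y)
  have hbox : IsCompact (Icc (0:ℝ) N ×ˢ (Icc (-1:ℝ) 1 ×ˢ Icc (0:ℝ) N)) :=
    isCompact_Icc.prod (isCompact_Icc.prod isCompact_Icc)
  rw [isCompact_iff_ultrafilter_le_nhds] at hbox
  obtain ⟨⟨s0, k0, y0⟩, hmem, hlim⟩ := hbox (f.map g) (by
    rw [le_principal_iff, Ultrafilter.coe_map, mem_map]
    filter_upwards [hf'] with p hp
    exact ⟨⟨p.s_nonneg, hp⟩, ⟨abs_le.1 p.c.hk, ⟨p.c.hy, p.hs.trans hp⟩⟩⟩)
  have hg : Tendsto g f (𝓝 (s0, k0, y0)) := by
    rw [Ultrafilter.coe_map] at hlim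
    exact hlim
  have hs : Tendsto (fun p : Z => p.s) f (𝓝 s0) := (continuous_fst.tendsto _).comp hg
  have hk : Tendsto (fun p : Z => p.c.k) f (𝓝 k0) :=
    ((continuous_fst.comp continuous_snd).tendsto _).comp hg
  have hy : Tendsto (fun p : Z => p.c.y) f (𝓝 y0) :=
    ((continuous_snd.comp continuous_snd).tendsto _).comp hg
  have hs0 : s0 ≤ N := hmem.1.2
  have hs00 : 0 ≤ s0 := hmem.1.1
  have hk0 : |k0| ≤ 1 := abs_le.2 hmem.2.1
  have hy0 : 0 ≤ y0 := hmem.2.2.1
  have hys : y0 ≤ s0 := le_of_tendsto_of_tendsto' hy hs (fun p => p.hs)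
  rcases hy0.eq_or_lt with h0 | h0
  · refine ⟨⟨s0, ⟨k0, 0, hk0, le_rfl, Or.inl rfl⟩, hs00⟩, hs0, ?_⟩
    apply tendsto_of_bound (e := fun p => |p.c.k - k0| + p.c.y) hs
    · have h1 := (hk.sub_const k0).abs
      have h2 := h1.add hy
      simpa [← h0] using h2
    · exact Eventually.of_forall fun p => rho_le_zero_y p.c k0 hk0
  · rcases hk0.eq_or_lt with h1 | h1
    · refine ⟨⟨s0, ⟨k0, 0, hk0, le_rfl, Or.inl rfl⟩, hs00⟩, hs0, ?_⟩
      apply tendsto_of_bound (e := fun p => |p.c.k - k0| + dl p.c.k) hs
      · have h1' := (hk.sub_const k0).abs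
        have h2 : Tendsto (fun p : Z => dl p.c.k) f (𝓝 0) := by
          have := (hk.abs).const_sub 1
          rw [h1, sub_self] at this
          exact this
        have h3 := h1'.add h2
        simpa using h3
      · exact Eventually.of_forall fun p => rho_le_zero_dl p.c k0 hk0
    · -- eventually the gate is constant
      obtain ⟨N0, hN0⟩ := exists_pow_lt_of_lt_one (show (0:ℝ) < (1 - |k0|) / 2 by linarith)
        (show (1/2:ℝ) < 1 by norm_num)
      have hxN : xg N0 < (1 - |k0|) / 2 := by
        refine lt_of_le_of_lt ?_ hN0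
        unfold xg
        exact pow_le_pow_of_le_one (by norm_num) (by norm_num) (by omega)
      set Sf : Set ℝ := ug '' {n | n < N0} with hSf
      have hfin : Sf.Finite := (finite_lt_nat N0).image _
      have hev1 : ∀ᶠ p in (f : Filter Z), p.c.k ∈ Sf := by
        have ha : ∀ᶠ p in (f : Filter Z), 0 < p.c.y := hy.eventually (lt_mem_nhds h0)
        have hb : ∀ᶠ p in (f : Filter Z), |p.c.k| < (1 + |k0|) / 2 :=
          (hk.abs).eventually (gt_mem_nhds (by linarith))
        filter_upwards [ha, hb] with p hpa hpb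
        rcases p.c.hg with h2 | ⟨n, hn, _⟩
        · linarith
        · refine ⟨n, ?_, hn.symm⟩
          by_contra hcon
          have hcon' : N0 ≤ n := not_lt.1 hcon
          have := xg_anti hcon'
          rw [hn, abs_ug] at hpb
          linarith
      have hev2 : ∀ᶠ p in (f : Filter Z), p.c.k = k0 := by
        have hc : IsClosed (Sf \ {k0}) := (hfin.subset sdiff_subset).isClosed
        have ho : (Sf \ {k0})ᶜ ∈ 𝓝 k0 := hc.isOpen_compl.mem_nhds (by simp)
        filter_upwards [hev1, hk.eventually ho] with p h2 h3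
        by_contra h4
        exact h3 ⟨h2, h4⟩
      obtain ⟨p1, hp1, hp1'⟩ := (hev1.and hev2).exists
      obtain ⟨n, _, hn⟩ := hp1
      have hkn : k0 = ug n := by rw [hn, hp1']
      have hyS : y0 ≤ Sg n := by
        apply le_of_tendsto hy
        filter_upwards [hev2] with p hp
        rcases p.c.hg with h2 | ⟨m, hm, hm2⟩
        · rw [h2]; exact (Sg_pos n).le
        · have : m = n := ug_inj (by rw [← hm, hp, hkn])
          rw [← this]; exact hm2
      refine ⟨⟨s0, ⟨k0, y0, hk0, hy0, Or.inr ⟨n, hkn, hyS⟩⟩, hys⟩, hs0, ?_⟩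
      apply tendsto_of_bound (e := fun p => |p.c.y - y0|) hs
      · have := (hy.sub_const y0).abs
        simpa using this
      · filter_upwards [hev2] with p hp
        rw [rho_same (by exact hp)]
        exact min_le_left _ _

lemma continuous_qq : Continuous qq := by
  rw [Metric.continuous_iff]
  intro p e he
  exact ⟨e, he, fun q hq => lt_of_le_of_lt (dist_qq_le q p) hq⟩

instance : CompactSpace X := by
  apply compact_of_near omX
  intro e he
  refine ⟨qq '' {p : Z | p.s ≤ 2 / e + 1} ∪ HH, ((ZN_compact _).image continuous_qq).union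
    isCompact_HH, fun x => ?_⟩
  cases x with
  | on h => left; right; exact on_mem h
  | off p hp =>
    by_cases hps : p.s ≤ 2 / e + 1
    · left; left
      exact ⟨p, hps, qq_off hp⟩
    · right
      push Not at hps
      have h2e : 0 < 2 / e := by positivity
      have hb := off_bounds hp
      have hy : 0 < p.c.y := by linarith
      rcases p.c.hg with h0 | ⟨n, hn, hyS⟩
      · linarith
      · have hle : p.s - 1 ≤ Sg n := by linarith
        set a : Z := ⟨p.s, ⟨p.c.k, p.s - 1, p.c.hk, by linarith, Or.inr ⟨n, hn, hle⟩⟩,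
          by simp⟩ with ha
        have haA : a ∈ AZ := Or.inl (by simp [ha])
        have h1 : dist (X.off p hp) (Hp (p.s - 1)) ≤ dist p a := by
          have := dist_qq_le p a
          rw [qq_off hp, qq_Hp haA] at this
          simpa [ha] using this
        have h2 : dist p a ≤ 2 * xg n := by
          apply (dist_Z_le p a).trans
          have h3 : |p.s - a.s| = 0 := by simp [ha]
          have h4 : rho p.c a.c ≤ xg n := by
            rw [rho_same (by simp [ha])]
            apply (min_le_right _ _).trans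
            rw [hn, dl_ug]
          rw [h3]
          have := xg_pos n
          have : max 0 (rho p.c a.c) ≤ xg n := max_le this.le h4
          linarith
        have h3 : dist (Hp (p.s - 1)) omX = bt (p.s - 1) := dist_Hp_om (by linarith)
        have h4 : dist (X.off p hp) omX ≤ 2 * xg n + bt (p.s - 1) := by
          have := dist_triangle (X.off p hp) (Hp (p.s - 1)) omX
          linarith
        have h5 := two_xg_mul n
        have h6 : p.s ≤ 1 + wt n := by
          have := xg_pos n
          unfold Sg at hle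
          linarith
        have hps0 : 0 < p.s := by linarith
        have h7 : 2 * xg n ≤ 1 / p.s := by
          rw [le_div_iff₀ hps0]
          have := xg_pos n
          nlinarith
        have h8 : bt (p.s - 1) ≤ 1 / p.s := by
          unfold bt
          apply one_div_le_one_div_of_le hps0
          linarith
        have h9 : 2 / p.s < e := by
          rw [div_lt_iff₀ hps0]
          have : 2 / e * e = 2 := by field_simp
          nlinarith
        have : 2 / p.s = 1 / p.s + 1 / p.s := by ring
        linarith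

end

end H44LC
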