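import Pool.Agent.H44.LC.Capture2

set_option autoImplicit false

open Set Filter Topology

namespace H44LC

noncomputable section

lemma dist_Hp_le {z z' : ℝ} (hz : 0 ≤ z) (hz' : 0 ≤ z') : dist (Hp z) (Hp z') ≤ |z - z'| := by
  rw [dist_Hp hz hz']; exact min_le_left _ _

/-- Lion on the ray at least as high as the Christian: no Christian strategy. -/
theorem capture_below {x : X} (hx : x ≠ omX) {z : ℝ} (hz : 0 ≤ z) (h : yX x ≤ z) :
    ¬ CWe (Hp z) x := by
  rintro ⟨G, hG⟩
  set l : ℝ → X := fun t => Hp (z - min (max t 0) z) with hl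
  have hmem : ∀ t : ℝ, 0 ≤ z - min (max t 0) z := fun t => by
    have := min_le_right (max t 0) z; linarith
  have hlL : LL l := by
    intro t t'
    apply (dist_Hp_le (hmem t) (hmem t')).trans
    have e : z - min (max t 0) z - (z - min (max t' 0) z) = -(min (max t 0) z - min (max t' 0) z) := by
      ring
    rw [e, abs_neg]
    apply (abs_min_sub _ _ _).trans
    exact abs_max_sub_max_le_abs t t' 0
  have hl0 : l 0 = Hp z := by
    simp [hl, hz]
  have hlt : ∀ t, 0 ≤ t → t ≤ z → l t = Hp (z - t) := by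
    intro t h0 h1
    simp only [hl]
    rw [max_eq_left h0, min_eq_left h1]
  obtain ⟨hg, hg0⟩ := hG.path l hlL hl0
  set g := G l with hgdef
  have hav : ∀ t, 0 ≤ t → g t ≠ omX := fun t ht => avoid (γ := g) hg ht (by rw [hg0]; exact hx)
  have hcont : ContinuousOn (fun t => yX (g t) + t) (Icc 0 z) := by
    rw [Metric.continuousOn_iff]
    intro u hu e he
    refine ⟨e / 2, by positivity, fun v hv hd => ?_⟩
    rw [Real.dist_eq] at hd ⊢
    rcases le_total u v with h1 | h1
    · rw [abs_of_nonneg (by linarith)] at hd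
      have h2 := abs_le.1 (y_lip (γ := g) hg h1 (fun w hw => hav w (hu.1.trans hw.1)))
      rw [abs_lt]; constructor <;> linarith
    · rw [abs_sub_comm, abs_of_nonneg (by linarith)] at hd
      have h2 := abs_le.1 (y_lip (γ := g) hg h1 (fun w hw => hav w (hv.1.trans hw.1)))
      rw [abs_lt]; constructor <;> linarith
  have h1 := intermediate_value_Icc hz hcont
  have h2 : z ∈ Icc (yX (g 0) + 0) (yX (g z) + z) := by
    constructor
    · rw [hg0]; linarith
    · have := yX_nonneg (g z); linarith
  obtain ⟨t1, ht1, ht2⟩ := h1 h2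
  have h3 := restart hG hlL hl0 ht1.1
  rw [hlt t1 ht1.1 ht1.2] at h3
  have h4 : z - t1 = yX (g t1) := by
    have : yX (g t1) + t1 = z := ht2
    linarith
  rw [h4] at h3
  exact capture_level (hav t1 ht1.1) h3

/-! ### Exit paths -/

def spF (e : ℝ) (he : |e| = 1) (w : ℝ) : F :=
  ⟨e * (1 - min (max w 0) 1), 0, by
    rw [abs_mul, he, one_mul]
    have h1 : 0 ≤ min (max w 0) 1 := le_min (le_max_right _ _) zero_le_one
    have h2 : min (max w 0) 1 ≤ 1 := min_le_right _ _
    rw [abs_of_nonneg (by linarith)]; linarith, le_rfl, Or.inl rfl⟩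

def thF (n : ℕ) (y : ℝ) : F :=
  ⟨ug n, min (max y 0) (Sg n), by rw [abs_ug]; linarith [xg_pos n],
    le_min (le_max_right _ _) (Sg_pos n).le, Or.inr ⟨n, rfl, min_le_right _ _⟩⟩

open Classical in
def cf (e : ℝ) (he : |e| = 1) (n : ℕ) (w : ℝ) : F :=
  if w ≤ xg n then spF e he w else thF n (w - xg n)

lemma side_eq {e : ℝ} (he : |e| = 1) {n : ℕ} (hs : |e - ug n| = xg n) : ug n = e * (1 - xg n) := by
  have hx := xg_le n
  have hx0 := xg_pos n
  have h1 := abs_ug n
  rcases (abs_eq (by norm_num : (0:ℝ) ≤ 1)).1 he with h | h <;>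
    rcases (abs_eq (by linarith : (0:ℝ) ≤ 1 - xg n)).1 h1 with h2 | h2 <;>
    rw [h, h2] at hs ⊢
  · ring
  · rw [abs_of_pos (by linarith)] at hs; linarith
  · rw [abs_of_neg (by linarith)] at hs; linarith
  · ring

lemma rho_cf {e : ℝ} (he : |e| = 1) {n : ℕ} (hs : |e - ug n| = xg n) {w w' : ℝ} (hw : 0 ≤ w)
    (hww : w ≤ w') : rho (cf e he n w) (cf e he n w') ≤ w' - w := by
  have hx := xg_le n
  have hx0 := xg_pos n
  have hu := side_eq he hs
  apply (rho_le_rhat _ _).trans
  have hsp : ∀ w, 0 ≤ w → w ≤ xg n → (spF e he w).k = e * (1 - w) := by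
    intro w h0 h1
    simp only [spF]
    rw [max_eq_left h0, min_eq_left (by linarith)]
  by_cases h1 : w' ≤ xg n
  · have h2 : w ≤ xg n := hww.trans h1
    have e1 : cf e he n w = spF e he w := by simp [cf, h2]
    have e2 : cf e he n w' = spF e he w' := by simp [cf, h1]
    rw [e1, e2]
    have hk : |(spF e he w).k - (spF e he w').k| = w' - w := by
      rw [hsp w hw h2, hsp w' (hw.trans hww) h1,
        show e * (1 - w) - e * (1 - w') = e * (w' - w) by ring, abs_mul, he, one_mul,
        abs_of_nonneg (by linarith)]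
    unfold rhat
    split_ifs with h
    · simp only [spF, sub_self, abs_zero]; linarith
    · rw [hk]; simp [spF]
  · have e2 : cf e he n w' = thF n (w' - xg n) := by simp [cf, h1]
    push Not at h1
    have hy' : (thF n (w' - xg n)).y ≤ w' - xg n := by
      simp only [thF]
      rw [max_eq_left (by linarith)]
      exact min_le_left _ _
    by_cases h2 : w ≤ xg n
    · have e1 : cf e he n w = spF e he w := by simp [cf, h2]
      rw [e1, e2]
      have hk : |(spF e he w).k - (thF n (w' - xg n)).k| = xg n - w := by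
        rw [hsp w hw h2]
        simp only [thF]
        rw [hu, show e * (1 - w) - e * (1 - xg n) = e * (xg n - w) by ring, abs_mul, he, one_mul,
          abs_of_nonneg (by linarith)]
      have hy0 := (thF n (w' - xg n)).hy
      have e3 : (spF e he w).y = 0 := rfl
      unfold rhat
      split_ifs with h
      · rw [e3, zero_sub, abs_neg, abs_of_nonneg hy0]; linarith
      · rw [hk, e3]; linarith
    · have e1 : cf e he n w = thF n (w - xg n) := by simp [cf, h2]
      push Not at h2
      rw [e1, e2, rhat_same (show (thF n (w - xg n)).k = (thF n (w' - xg n)).k from rfl)]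
      simp only [thF]
      rw [max_eq_left (by linarith), max_eq_left (by linarith)]
      apply (abs_min_sub _ _ _).trans
      rw [abs_sub_comm, abs_of_nonneg (by linarith)]
      linarith

lemma cf_y_le {e : ℝ} (he : |e| = 1) (n : ℕ) {w : ℝ} (hw : 0 ≤ w) : (cf e he n w).y ≤ w := by
  have hx0 := xg_pos n
  unfold cf
  split_ifs with h
  · exact hw
  · push Not at h
    simp only [thF]
    rw [max_eq_left (by linarith)]
    apply (min_le_left _ _).trans
    linarith

def body (e : ℝ) (he : |e| = 1) (n : ℕ) (t : ℝ) : X :=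
  qq (mkZ (min (W t) (wt n)) (cf e he n (min (W t) (wt n))))

lemma A_W_sub {t t' : ℝ} (h : t ≤ t') : A (W t') - A (W t) ≤ t' - t := by
  rcases le_total 0 t with h0 | h0
  · rw [A_W h0, A_W (h0.trans h)]
  · rw [W_neg h0, A_zero]
    rcases le_total 0 t' with h1 | h1
    · rw [A_W h1]; linarith
    · rw [W_neg h1, A_zero]; linarith

lemma A_min_sub {a b c : ℝ} (ha : 0 ≤ a) (hc : 0 ≤ c) (h : a ≤ b) :
    A (min b c) - A (min a c) ≤ A b - A a := by
  rcases le_total b c with h1 | h1
  · rw [min_eq_left h1, min_eq_left (h.trans h1)]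
  · rw [min_eq_right h1]
    rcases le_total a c with h2 | h2
    · rw [min_eq_left h2]
      have := A_mono hc h1
      linarith
    · rw [min_eq_right h2]
      have := A_mono ha h
      linarith

lemma LL_of_le {γ : ℝ → X} (h : ∀ t t', t ≤ t' → dist (γ t) (γ t') ≤ t' - t) : LL γ := by
  intro t t'
  rcases le_total t t' with h1 | h1
  · rw [abs_sub_comm, abs_of_nonneg (sub_nonneg.2 h1)]
    exact h t t' h1
  · rw [abs_of_nonneg (sub_nonneg.2 h1), dist_comm]
    exact h t' t h1

lemma body_LL {e : ℝ} (he : |e| = 1) {n : ℕ} (hs : |e - ug n| = xg n) : LL (body e he n) := by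
  apply LL_of_le
  intro t t' htt
  have hw := W_mono' htt
  have hwt := wt_ge n
  have h0 : 0 ≤ min (W t) (wt n) := le_min (W_nonneg _) (by linarith)
  have h1 : min (W t) (wt n) ≤ min (W t') (wt n) := min_le_min hw le_rfl
  apply (dist_qq_le _ _).trans
  rw [dist_Z]
  have e1 : (mkZ (min (W t) (wt n)) (cf e he n (min (W t) (wt n)))).s = min (W t) (wt n) :=
    max_eq_left (cf_y_le he n h0)
  have e2 : (mkZ (min (W t') (wt n)) (cf e he n (min (W t') (wt n)))).s = min (W t') (wt n) :=
    max_eq_left (cf_y_le he n (h0.trans h1))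
  have e3 : Dm (min (W t) (wt n)) (min (W t') (wt n)) (rho (cf e he n (min (W t) (wt n)))
      (cf e he n (min (W t') (wt n)))) = _ := Dm_eq h1 (rho_cf he hs h0 h1)
  rw [e1, e2]
  change Dm (min (W t) (wt n)) (min (W t') (wt n)) (rho (cf e he n (min (W t) (wt n)))
      (cf e he n (min (W t') (wt n)))) ≤ _
  rw [e3]
  have := A_min_sub (c := wt n) (W_nonneg t) (by linarith) hw
  have := A_W_sub htt
  linarith

def tail (n : ℕ) (t : ℝ) : X := Hp (Sg n + max t 0)

lemma tail_LL (n : ℕ) : LL (tail n) := by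
  intro t t'
  have h := Sg_pos n
  have h1 := le_max_right t 0
  have h2 := le_max_right t' 0
  apply (dist_Hp_le (by linarith) (by linarith)).trans
  rw [add_sub_add_left_eq_sub]
  exact abs_max_sub_max_le_abs t t' 0

lemma body_top {e : ℝ} (he : |e| = 1) (n : ℕ) : body e he n (A (wt n)) = Hp (Sg n) := by
  have hwt := wt_ge n
  have hx := xg_le n
  have hx0 := xg_pos n
  have hS := Sg_pos n
  have hw : min (W (A (wt n))) (wt n) = wt n := by
    rw [W_A (by linarith), min_self]
  have hc : cf e he n (wt n) = topF n := by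
    have h1 : ¬ (wt n ≤ xg n) := by linarith
    simp only [cf, h1, if_false]
    apply F.ext
    · rfl
    · change min (max (wt n - xg n) 0) (Sg n) = Sg n
      have : wt n - xg n = Sg n := rfl
      rw [this, max_eq_left hS.le, min_self]
  unfold body
  rw [hw, hc]
  have e1 : (mkZ (wt n) (topF n)).s = wt n := by
    apply max_eq_left
    change wt n - xg n ≤ wt n
    linarith
  have e2 : (mkZ (wt n) (topF n)).c = topF n := rfl
  have hA : mkZ (wt n) (topF n) ∈ AZ := Or.inr ⟨n, rfl, rfl⟩
  rw [qq_Hp hA, e1, e2]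
  congr 1
  apply max_eq_right
  change wt n - 1 ≤ wt n - xg n
  linarith

/-- The exit path of gate `n`. -/
def ex (e : ℝ) (he : |e| = 1) (n : ℕ) : ℝ → X := cat (body e he n) (A (wt n)) (tail n)

lemma ex_LL {e : ℝ} (he : |e| = 1) {n : ℕ} (hs : |e - ug n| = xg n) : LL (ex e he n) := by
  apply (body_LL he hs).cat (tail_LL n)
  rw [body_top he n]
  simp [tail]

lemma ex_tail {e : ℝ} (he : |e| = 1) {n : ℕ} {t : ℝ} (ht : A (wt n) ≤ t) :
    ex e he n t = Hp (Sg n + (t - A (wt n))) := by
  unfold ex
  rw [cat_ge (by rw [body_top he n]; simp [tail]) ht]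
  unfold tail
  rw [max_eq_left (by linarith)]

def wpt (e : ℝ) (he : |e| = 1) (w : ℝ) : X := qq (mkZ w (spF e he w))

def walk (e : ℝ) (he : |e| = 1) (t : ℝ) : X := wpt e he (min (W t) (1 / 16))

lemma walk_LL {e : ℝ} (he : |e| = 1) : LL (walk e he) := by
  apply LL_of_le
  intro t t' htt
  have hw := W_mono' htt
  have h0 : 0 ≤ min (W t) (1 / 16) := le_min (W_nonneg _) (by norm_num)
  have h1 : min (W t) (1 / 16) ≤ min (W t') (1 / 16) := min_le_min hw le_rfl
  have h2 : min (W t') (1 / 16) ≤ 1 / 16 := min_le_right _ _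
  unfold walk wpt
  apply (dist_qq_le _ _).trans
  rw [dist_Z]
  have e1 : (mkZ (min (W t) (1 / 16)) (spF e he (min (W t) (1 / 16)))).s = min (W t) (1 / 16) :=
    max_eq_left h0
  have e2 : (mkZ (min (W t') (1 / 16)) (spF e he (min (W t') (1 / 16)))).s = min (W t') (1 / 16) :=
    max_eq_left (h0.trans h1)
  have hr : rho (spF e he (min (W t) (1 / 16))) (spF e he (min (W t') (1 / 16))) ≤
      min (W t') (1 / 16) - min (W t) (1 / 16) := by
    apply (rho_le_rhat _ _).trans
    set a := min (W t) (1 / 16) with ha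
    set b := min (W t') (1 / 16) with hb
    have hk : |(spF e he a).k - (spF e he b).k| = b - a := by
      simp only [spF]
      rw [max_eq_left h0, max_eq_left (h0.trans h1), min_eq_left (by linarith),
        min_eq_left (by linarith), show e * (1 - a) - e * (1 - b) = e * (b - a) by ring, abs_mul,
        he, one_mul, abs_of_nonneg (by linarith)]
    unfold rhat
    split_ifs with h
    · simp only [spF, sub_self, abs_zero]; linarith
    · rw [hk]; simp [spF]
  have e3 : Dm (min (W t) (1 / 16)) (min (W t') (1 / 16)) (rho (spF e he (min (W t) (1 / 16)))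
      (spF e he (min (W t') (1 / 16)))) = _ := Dm_eq h1 hr
  rw [e1, e2]
  change Dm (min (W t) (1 / 16)) (min (W t') (1 / 16)) (rho (spF e he (min (W t) (1 / 16)))
      (spF e he (min (W t') (1 / 16)))) ≤ _
  rw [e3]
  have := A_min_sub (c := 1 / 16) (W_nonneg t) (by norm_num) hw
  have := A_W_sub htt
  linarith

lemma wpt_zero {e : ℝ} (he : |e| = 1) : wpt e he 0 = stX e he := by
  unfold wpt stX
  congr 1
  apply Z.ext
  · change max 0 0 = 0
    simp
  · apply F.ext
    · change e * (1 - min (max 0 0) 1) = e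
      simp
    · rfl

lemma walk_zero {e : ℝ} (he : |e| = 1) : walk e he 0 = stX e he := by
  unfold walk
  rw [W_zero, min_eq_left (by norm_num), wpt_zero]

lemma ex_early {e : ℝ} (he : |e| = 1) {n : ℕ} {w : ℝ} (h0 : 0 ≤ w) (hw : w ≤ xg n) :
    ex e he n (A w) = wpt e he w := by
  have hwt := wt_ge n
  have hx := xg_le n
  unfold ex
  rw [cat_le (A_mono h0 (by linarith))]
  unfold body
  rw [W_A h0, min_eq_left (by linarith)]
  have : cf e he n w = spF e he w := by simp [cf, hw]
  rw [this]
  rfl

lemma walk_early {e : ℝ} (he : |e| = 1) {n : ℕ} {w : ℝ} (h0 : 0 ≤ w) (hw : w ≤ xg n) :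
    walk e he (A w) = wpt e he w := by
  have hx := xg_le n
  unfold walk
  rw [W_A h0, min_eq_left (by linarith)]

lemma ex_zero {e : ℝ} (he : |e| = 1) {n : ℕ} : ex e he n 0 = stX e he := by
  have := ex_early he (n := n) le_rfl (xg_pos n).le
  rw [A_zero, wpt_zero] at this
  exact this

lemma ex_eq_walk {e : ℝ} (he : |e| = 1) {n : ℕ} {t : ℝ} (h0 : 0 ≤ t) (ht : t ≤ A (xg n)) :
    ex e he n t = walk e he t := by
  have hW : W t ≤ xg n := by
    have := W_mono h0 ht
    rwa [W_A (xg_pos n).le] at this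
  have h1 := ex_early he (n := n) (W_nonneg t) hW
  have h2 := walk_early he (n := n) (W_nonneg t) hW
  rw [A_W h0] at h1 h2
  rw [h1, h2]

lemma wpt_lift {e : ℝ} (he : |e| = 1) {w : ℝ} (h0 : 0 ≤ w) (hw : w ≤ 1 / 16) :
    wpt e he w ∉ HH ∧ (lift (wpt e he w)).c = spF e he w := by
  have hn : mkZ w (spF e he w) ∉ AZ := by
    intro h
    have := one_le_s_of_mem h
    have e1 : (mkZ w (spF e he w)).s = w := max_eq_left h0
    rw [e1] at this
    linarith
  unfold wpt
  rw [qq_off hn]
  exact ⟨off_notMem hn, rfl⟩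

end

end H44LC
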