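import Pool.Agent.H44.LC.Path

set_option autoImplicit false

open Set Filter Topology
open scoped NNReal

namespace H44LC

noncomputable section

/-- 1-Lipschitz paths in a metric space. -/
def LL {M : Type*} [MetricSpace M] (γ : ℝ → M) : Prop := ∀ t t', dist (γ t) (γ t') ≤ |t - t'|

variable {M : Type*} [MetricSpace M]

/-- A winning Christian strategy, in real-time form. -/
structure CW (x y : M) (G : (ℝ → M) → (ℝ → M)) : Prop where
  path : ∀ l, LL l → l 0 = x → LL (G l) ∧ G l 0 = y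
  causal : ∀ l l', LL l → l 0 = x → LL l' → l' 0 = x → ∀ t, (∀ s, 0 ≤ s → s ≤ t → l s = l' s) →
    ∀ s, 0 ≤ s → s ≤ t → G l s = G l' s
  safe : ∀ l, LL l → l 0 = x → ∀ t, 0 ≤ t → G l t ≠ l t

def CWe (x y : M) : Prop := ∃ G, CW x y G

/-! ### Concatenation and restart -/

def cat (l : ℝ → M) (t0 : ℝ) (l' : ℝ → M) : ℝ → M := fun s => if s ≤ t0 then l s else l' (s - t0)

lemma cat_le {l : ℝ → M} {t0 : ℝ} {l' : ℝ → M} {s : ℝ} (h : s ≤ t0) : cat l t0 l' s = l s := by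
  simp [cat, h]

lemma cat_ge {l : ℝ → M} {t0 : ℝ} {l' : ℝ → M} (h0 : l' 0 = l t0) {s : ℝ} (h : t0 ≤ s) :
    cat l t0 l' s = l' (s - t0) := by
  rcases h.eq_or_lt with h1 | h1
  · rw [← h1, cat_le le_rfl, sub_self, h0]
  · simp [cat, not_le.2 h1]

lemma LL.cat {l l' : ℝ → M} (hl : LL l) (hl' : LL l') {t0 : ℝ} (h0 : l' 0 = l t0) :
    LL (cat l t0 l') := by
  have key : ∀ s s', s ≤ s' → dist (H44LC.cat l t0 l' s) (H44LC.cat l t0 l' s') ≤ s' - s := by
    intro s s' hss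
    rcases le_total s' t0 with h1 | h1
    · rw [cat_le h1, cat_le (hss.trans h1)]
      have := hl s s'
      rwa [abs_sub_comm, abs_of_nonneg (sub_nonneg.2 hss)] at this
    · rcases le_total s t0 with h2 | h2
      · rw [cat_le h2, cat_ge h0 h1]
        have h3 := hl s t0
        have h4 := hl' 0 (s' - t0)
        rw [h0] at h4
        rw [abs_sub_comm, abs_of_nonneg (sub_nonneg.2 h2)] at h3
        rw [zero_sub, abs_neg, abs_of_nonneg (sub_nonneg.2 h1)] at h4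
        have := dist_triangle (l s) (l t0) (l' (s' - t0))
        linarith
      · rw [cat_ge h0 h1, cat_ge h0 h2]
        have := hl' (s - t0) (s' - t0)
        rwa [show s - t0 - (s' - t0) = -(s' - s) by ring, abs_neg,
          abs_of_nonneg (sub_nonneg.2 hss)] at this
  intro s s'
  rcases le_total s s' with h | h
  · rw [abs_sub_comm, abs_of_nonneg (sub_nonneg.2 h)]
    exact key s s' h
  · rw [abs_of_nonneg (sub_nonneg.2 h), dist_comm]
    exact key s' s h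

lemma restart {x y : M} {G : (ℝ → M) → (ℝ → M)} (hG : CW x y G) {l : ℝ → M} (hl : LL l)
    (hl0 : l 0 = x) {t0 : ℝ} (ht0 : 0 ≤ t0) : CWe (l t0) (G l t0) := by
  refine ⟨fun l' t => G (cat l t0 l') (t0 + t), ?_, ?_, ?_⟩
  · intro l' hl' hl'0
    have h1 : LL (cat l t0 l') := hl.cat hl' hl'0
    have h2 : cat l t0 l' 0 = x := by rw [cat_le ht0, hl0]
    obtain ⟨h3, h4⟩ := hG.path _ h1 h2
    constructor
    · intro t t'
      have := h3 (t0 + t) (t0 + t')
      rwa [show t0 + t - (t0 + t') = t - t' by ring] at this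
    · simp only [add_zero]
      exact hG.causal _ _ h1 h2 hl hl0 t0 (fun s _ hs => cat_le hs) t0 ht0 le_rfl
  · intro l1 l2 h1 h10 h2 h20 t hag s hs0 hst
    have a1 : LL (cat l t0 l1) := hl.cat h1 h10
    have a2 : LL (cat l t0 l2) := hl.cat h2 h20
    refine hG.causal _ _ a1 (by rw [cat_le ht0, hl0]) a2 (by rw [cat_le ht0, hl0]) (t0 + t) ?_
      (t0 + s) (by linarith) (by linarith)
    intro u hu0 hut
    rcases le_total u t0 with h3 | h3
    · rw [cat_le h3, cat_le h3]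
    · rw [cat_ge h10 h3, cat_ge h20 h3]
      exact hag _ (by linarith) (by linarith)
  · intro l' hl' hl'0 t ht
    have h1 : LL (cat l t0 l') := hl.cat hl' hl'0
    have := hG.safe _ h1 (by rw [cat_le ht0, hl0]) (t0 + t) (by linarith)
    rwa [cat_ge hl'0 (by linarith), add_sub_cancel_left] at this

/-! ### A delayed Lion strategy beats every causal strategy of the Christian -/

theorem delayed [CompactSpace M] {x p : M} {G : (ℝ → M) → (ℝ → M)} (hG : CW x p G)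
    (Ψ : (ℝ → M) → (ℝ → M)) (Ts : (ℝ → M) → ℝ)
    (hΨ1 : ∀ g, LL g → g 0 = p → LL (Ψ g) ∧ Ψ g 0 = x)
    (hT : ∀ g, LL g → g 0 = p → 0 ≤ Ts g ∧ Ψ g (Ts g) = g (Ts g))
    (hΨ0 : ∀ g g', LL g → g 0 = p → LL g' → g' 0 = p → ∀ u, (∀ s, 0 ≤ s → s ≤ u → g s = g' s) →
      ∀ s, 0 ≤ s → s ≤ u → Ψ g s = Ψ g' s)
    (hΨ2 : ∀ g, LL g → g 0 = p → ∀ t, 0 ≤ t → t < Ts g → ∃ e > 0, ∀ g', LL g' → g' 0 = p →
      ∀ u, 0 ≤ u → u ≤ t → (∀ s, 0 ≤ s → s ≤ u → g s = g' s) →
      ∀ s, 0 ≤ s → s ≤ u + e → Ψ g s = Ψ g' s) : False := by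
  -- iterates
  let f : ℕ → (ℝ → M) := fun k => Nat.rec (fun _ => x) (fun _ h => Ψ (G h)) k
  have f0 : f 0 = fun _ => x := rfl
  have fs : ∀ k, f (k + 1) = Ψ (G (f k)) := fun k => rfl
  have hf : ∀ k, LL (f k) ∧ f k 0 = x := by
    intro k
    induction k with
    | zero =>
      rw [f0]
      exact ⟨fun t t' => by simp, rfl⟩
    | succ k ih =>
      rw [fs]
      obtain ⟨h1, h2⟩ := hG.path _ ih.1 ih.2
      exact hΨ1 _ h1 h2
  have hgp : ∀ k, LL (G (f k)) ∧ G (f k) 0 = p := fun k => hG.path _ (hf k).1 (hf k).2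
  -- ultrafilter limit
  have hlim : ∀ t : ℝ, ∃ L : M, Tendsto (fun k => f k t) (hyperfilter ℕ : Filter ℕ) (𝓝 L) := by
    intro t
    have h1 := (isCompact_iff_ultrafilter_le_nhds.1 (isCompact_univ (X := M)))
      ((hyperfilter ℕ).map (fun k => f k t)) (by simp)
    obtain ⟨L, _, hL⟩ := h1
    exact ⟨L, hL⟩
  choose Fi hF using hlim
  have hFL : LL Fi := by
    intro t t'
    have h1 := (hF t).dist (hF t')
    exact le_of_tendsto h1 (Eventually.of_forall fun k => (hf k).1 t t')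
  have hF0 : Fi 0 = x := by
    have h1 : Tendsto (fun k => f k 0) (hyperfilter ℕ : Filter ℕ) (𝓝 x) := by
      have : (fun k => f k 0) = fun _ => x := funext fun k => (hf k).2
      rw [this]
      exact tendsto_const_nhds
    exact tendsto_nhds_unique (hF 0) h1
  obtain ⟨hg1, hg2⟩ := hG.path _ hFL hF0
  set g := G Fi with hg
  obtain ⟨hT0, hTc⟩ := hT g hg1 hg2
  set T := Ts g with hTdef
  -- stabilisation
  have hstep : ∀ k u, (∀ s, 0 ≤ s → s ≤ u → f k s = f (k + 1) s) →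
      (∀ s, 0 ≤ s → s ≤ u → f (k + 1) s = f (k + 2) s) := by
    intro k u h
    have h1 := hG.causal _ _ (hf k).1 (hf k).2 (hf (k + 1)).1 (hf (k + 1)).2 u h
    have h2 := hΨ0 _ _ (hgp k).1 (hgp k).2 (hgp (k + 1)).1 (hgp (k + 1)).2 u h1
    exact h2
  have hstab : ∀ k u, (∀ s, 0 ≤ s → s ≤ u → f k s = f (k + 1) s) →
      ∀ j, ∀ s, 0 ≤ s → s ≤ u → f k s = f (k + j) s ∧ f (k + j) s = f (k + j + 1) s := by
    intro k u h j
    induction j with
    | zero => exact fun s hs hu => ⟨rfl, h s hs hu⟩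
    | succ j ih =>
      intro s hs hu
      have h1 := ih s hs hu
      have h2 := hstep (k + j) u (fun s hs hu => (ih s hs hu).2) s hs hu
      exact ⟨h1.1.trans h1.2, h2⟩
  have hlimeq : ∀ k u, (∀ s, 0 ≤ s → s ≤ u → f k s = f (k + 1) s) →
      ∀ s, 0 ≤ s → s ≤ u → Fi s = f k s := by
    intro k u h s hs hu
    have h1 : Tendsto (fun j => f j s) (hyperfilter ℕ : Filter ℕ) (𝓝 (f k s)) := by
      have h2 : ∀ᶠ j in (hyperfilter ℕ : Filter ℕ), f j s = f k s := by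
        have h3 : ∀ᶠ j in atTop, f j s = f k s := by
          filter_upwards [eventually_ge_atTop k] with j hj
          obtain ⟨i, rfl⟩ := Nat.exists_eq_add_of_le hj
          exact (hstab k u h i s hs hu).1.symm
        exact Nat.hyperfilter_le_atTop h3
      exact (tendsto_congr' h2).2 tendsto_const_nhds
    exact tendsto_nhds_unique (hF s) h1
  have hgeq : ∀ k u, (∀ s, 0 ≤ s → s ≤ u → f k s = f (k + 1) s) →
      ∀ s, 0 ≤ s → s ≤ u → g s = G (f k) s := by
    intro k u h s hs hu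
    exact hG.causal _ _ hFL hF0 (hf k).1 (hf k).2 u (hlimeq k u h) s hs hu
  -- all times before T are stable
  have hU : ∀ v, 0 ≤ v → v < T → ∃ k, ∀ s, 0 ≤ s → s ≤ v → f k s = f (k + 1) s := by
    intro v0 hv0 hv0T
    by_contra hcon
    set U : Set ℝ := {v | 0 ≤ v ∧ v ≤ v0 ∧ ∃ k, ∀ s, 0 ≤ s → s ≤ v → f k s = f (k + 1) s} with hUd
    have hU0 : (0:ℝ) ∈ U := ⟨le_rfl, hv0, 0, fun s hs hs' => by
      have : s = 0 := le_antisymm hs' hs
      rw [this, (hf 0).2, (hf (0 + 1)).2]⟩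
    have hUb : BddAbove U := ⟨v0, fun v hv => hv.2.1⟩
    set vs := sSup U with hvs
    have hvs0 : 0 ≤ vs := le_csSup hUb hU0
    have hvsv : vs ≤ v0 := csSup_le ⟨0, hU0⟩ (fun v hv => hv.2.1)
    obtain ⟨e, he, hE⟩ := hΨ2 g hg1 hg2 vs hvs0 (lt_of_le_of_lt hvsv hv0T)
    obtain ⟨u, hu, hu2⟩ := exists_lt_of_lt_csSup ⟨0, hU0⟩ (show vs - e / 2 < vs by linarith)
    obtain ⟨hu0, _, k, hk⟩ := hu
    have huv : u ≤ vs := le_csSup hUb ⟨hu0, ‹_›, k, hk⟩
    have hk1 := hstep k u hk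
    have h1 := hE (G (f k)) (hgp k).1 (hgp k).2 u hu0 huv (hgeq k u hk)
    have h2 := hE (G (f (k + 1))) (hgp (k + 1)).1 (hgp (k + 1)).2 u hu0 huv (hgeq (k + 1) u hk1)
    have h3 : ∀ s, 0 ≤ s → s ≤ u + e → f (k + 1) s = f (k + 2) s := by
      intro s hs hsu
      have e1 : f (k + 1) s = Ψ (G (f k)) s := rfl
      have e2 : f (k + 2) s = Ψ (G (f (k + 1))) s := rfl
      rw [e1, e2, ← h1 s hs hsu, ← h2 s hs hsu]
    by_cases h4 : v0 ≤ u + e
    · exact hcon ⟨k + 1, fun s hs hsv => h3 s hs (hsv.trans h4)⟩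
    · push Not at h4
      have : u + e ≤ vs := le_csSup hUb ⟨by linarith, h4.le, k + 1, h3⟩
      linarith
  have hfin : ∀ v, 0 ≤ v → v < T → Fi v = Ψ g v := by
    intro v hv0 hvT
    obtain ⟨k, hk⟩ := hU v hv0 hvT
    rw [hlimeq k v hk v hv0 le_rfl, hk v hv0 le_rfl]
    change Ψ (G (f k)) v = Ψ g v
    exact hΨ0 _ _ (hgp k).1 (hgp k).2 hg1 hg2 v (fun s hs hsv => (hgeq k v hk s hs hsv).symm) v
      hv0 le_rfl
  have hΨL := hΨ1 g hg1 hg2
  have hend : Fi T = Ψ g T := by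
    rcases hT0.eq_or_lt with h0 | h0
    · rw [← h0, hF0, hΨL.2]
    · have : dist (Fi T) (Ψ g T) ≤ 0 := by
        apply le_of_end (C := 2) h0
        intro t ht
        have h1 := hFL T t
        have h2 := hΨL.1 t T
        rw [abs_of_pos (by linarith [ht.2])] at h1
        rw [abs_sub_comm, abs_of_pos (by linarith [ht.2])] at h2
        rw [hfin t ht.1 ht.2] at h1
        have := dist_triangle (Fi T) (Ψ g t) (Ψ g T)
        linarith
      exact dist_le_zero.1 this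
  exact hG.safe _ hFL hF0 T hT0 (by rw [hend, hTc])

end

end H44LC
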