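import Pool.Agent.H44.LC.Space

set_option autoImplicit false

open Set
open scoped NNReal

namespace H44LC

noncomputable section

/-- The glued space. -/
inductive X
  | off (p : Z) (h : p ∉ AZ) : X
  | on (h : Hh) : X

open Classical in
/-- The quotient map. -/
def qq (p : Z) : X := if h : p ∈ AZ then X.on (pr p) else X.off p h

lemma qq_on {p : Z} (h : p ∈ AZ) : qq p = X.on (pr p) := by simp [qq, h]
lemma qq_off {p : Z} (h : p ∉ AZ) : qq p = X.off p h := by simp [qq, h]

def IsObs (φ : X → ℝ) : Prop :=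
  (∀ p q : Z, |φ (qq p) - φ (qq q)| ≤ dist p q) ∧
  (∀ h h' : Hh, |φ (X.on h) - φ (X.on h')| ≤ dist h h')

def baseF : F := ⟨0, 0, by simp, le_rfl, Or.inl rfl⟩

def baseZ : Z := ⟨1, baseF, by simp [baseF]⟩

lemma baseZ_mem : baseZ ∈ AZ := Or.inl (by simp [baseZ, baseF])

def bd : X → ℝ
  | X.off p _ => dist p baseZ
  | X.on h => dist h (pr baseZ)

lemma obs_bd {φ : X → ℝ} (hφ : IsObs φ) (x : X) : |φ x - φ (qq baseZ)| ≤ bd x := by
  cases x with
  | off p h =>
    rw [← qq_off h]
    have := hφ.1 p baseZ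
    rw [qq_off h] at this ⊢
    exact this
  | on h =>
    rw [qq_on baseZ_mem]
    exact hφ.2 h _

lemma obs_const : IsObs (fun _ => 0) := by
  constructor <;> intros <;> simp

def gd (x x' : X) : ℝ := ⨆ φ : {φ : X → ℝ // IsObs φ}, |φ.1 x - φ.1 x'|

instance : Nonempty {φ : X → ℝ // IsObs φ} := ⟨⟨_, obs_const⟩⟩

lemma le_gd {φ : X → ℝ} (hφ : IsObs φ) (x x' : X) : |φ x - φ x'| ≤ gd x x' := by
  have hb : BddAbove (range fun φ : {φ : X → ℝ // IsObs φ} => |φ.1 x - φ.1 x'|) := by
    refine ⟨bd x + bd x', ?_⟩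
    rintro _ ⟨ψ, rfl⟩
    have h1 := obs_bd ψ.2 x
    have h2 := obs_bd ψ.2 x'
    have h3 := abs_sub_le (ψ.1 x) (ψ.1 (qq baseZ)) (ψ.1 x')
    rw [abs_sub_comm (ψ.1 (qq baseZ))] at h3
    change |ψ.1 x - ψ.1 x'| ≤ _
    linarith
  exact le_ciSup hb ⟨φ, hφ⟩

lemma gd_le {x x' : X} {c : ℝ} (h : ∀ φ : X → ℝ, IsObs φ → |φ x - φ x'| ≤ c) : gd x x' ≤ c :=
  ciSup_le (fun φ => h φ.1 φ.2)

/-! ### Observables -/

lemma abs_min_sub (a b κ : ℝ) : |min a κ - min b κ| ≤ |a - b| := by
  rcases le_total a κ with h1 | h1 <;> rcases le_total b κ with h2 | h2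
  · rw [min_eq_left h1, min_eq_left h2]
  · rw [min_eq_left h1, min_eq_right h2, abs_sub_comm a κ, abs_sub_comm a b,
      abs_of_nonneg (by linarith), abs_of_nonneg (by linarith)]
    linarith
  · rw [min_eq_right h1, min_eq_left h2, abs_of_nonneg (by linarith), abs_of_nonneg (by linarith)]
    linarith
  · rw [min_eq_right h1, min_eq_right h2, sub_self, abs_zero]
    exact abs_nonneg _

def ob2 (p0 : Z) (κ : ℝ) : X → ℝ
  | X.off p _ => min (dist p0 p) κ
  | X.on _ => κ

lemma ob2_qq {p0 : Z} {κ : ℝ} (hκ : ∀ a ∈ AZ, κ ≤ dist p0 a) (p : Z) :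
    ob2 p0 κ (qq p) = min (dist p0 p) κ := by
  by_cases h : p ∈ AZ
  · rw [qq_on h]
    exact (min_eq_right (hκ p h)).symm
  · rw [qq_off h]; rfl

lemma ob2_obs {p0 : Z} {κ : ℝ} (hκ : ∀ a ∈ AZ, κ ≤ dist p0 a) : IsObs (ob2 p0 κ) := by
  constructor
  · intro p q
    rw [ob2_qq hκ, ob2_qq hκ]
    apply (abs_min_sub _ _ _).trans
    rw [dist_comm p0 p, dist_comm p0 q]
    exact abs_dist_sub_le _ _ _
  · intro h h'
    change |κ - κ| ≤ _
    simp

instance : Nonempty AZ := ⟨⟨baseZ, baseZ_mem⟩⟩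

def EE (h0 : Hh) (p : Z) : ℝ := ⨅ a : AZ, (dist p a.1 + dist (pr a.1) h0)

lemma EE_bdd (h0 : Hh) (p : Z) : BddBelow (range fun a : AZ => dist p a.1 + dist (pr a.1) h0) :=
  ⟨0, by rintro _ ⟨a, rfl⟩; positivity⟩

lemma EE_le (h0 : Hh) (p : Z) {a : Z} (ha : a ∈ AZ) : EE h0 p ≤ dist p a + dist (pr a) h0 :=
  ciInf_le (EE_bdd h0 p) ⟨a, ha⟩

lemma le_EE {h0 : Hh} {p : Z} {c : ℝ} (h : ∀ a ∈ AZ, c ≤ dist p a + dist (pr a) h0) :
    c ≤ EE h0 p := le_ciInf (fun a => h a.1 a.2)

lemma EE_lip (h0 : Hh) (p q : Z) : EE h0 p ≤ dist p q + EE h0 q := by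
  have : EE h0 p - dist p q ≤ EE h0 q := by
    apply le_EE
    intro a ha
    have h1 := EE_le h0 p ha
    have h2 := dist_triangle p q a
    linarith
  linarith

lemma EE_on (h0 : Hh) {a : Z} (ha : a ∈ AZ) : EE h0 a = dist (pr a) h0 := by
  apply le_antisymm
  · have := EE_le h0 a ha
    simpa using this
  · apply le_EE
    intro b hb
    have h1 := pr_lip ha hb
    have h2 := dist_triangle (pr a) (pr b) h0
    linarith

def ob1 (h0 : Hh) : X → ℝ
  | X.off p _ => EE h0 p
  | X.on h => dist h h0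

lemma ob1_qq (h0 : Hh) (p : Z) : ob1 h0 (qq p) = EE h0 p := by
  by_cases h : p ∈ AZ
  · rw [qq_on h, EE_on h0 h]; rfl
  · rw [qq_off h]; rfl

lemma ob1_obs (h0 : Hh) : IsObs (ob1 h0) := by
  constructor
  · intro p q
    rw [ob1_qq, ob1_qq, abs_le]
    have h1 := EE_lip h0 p q
    have h2 := EE_lip h0 q p
    rw [dist_comm q p] at h2
    constructor <;> linarith
  · intro h h'
    exact abs_dist_sub_le _ _ _

lemma gd_qq_le (p q : Z) : gd (qq p) (qq q) ≤ dist p q := gd_le (fun _ hφ => hφ.1 p q)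

lemma gd_on_on (h h' : Hh) : gd (X.on h) (X.on h') = dist h h' := by
  apply le_antisymm
  · exact gd_le (fun _ hφ => hφ.2 h h')
  · have := le_gd (ob1_obs h') (X.on h) (X.on h')
    change |dist h h' - dist h' h'| ≤ _ at this
    rw [dist_self, sub_zero, abs_of_nonneg dist_nonneg] at this
    exact this

lemma le_gd_off_on {p : Z} (hp : p ∉ AZ) (h : Hh) {c : ℝ}
    (hc : ∀ a ∈ AZ, c ≤ dist p a + dist (pr a) h) : c ≤ gd (X.off p hp) (X.on h) := by
  have := le_gd (ob1_obs h) (X.off p hp) (X.on h)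
  change |EE h p - dist h h| ≤ _ at this
  rw [dist_self, sub_zero] at this
  exact (le_EE hc).trans ((le_abs_self _).trans this)

lemma le_gd_off_off {p p' : Z} (hp : p ∉ AZ) (hp' : p' ∉ AZ) {κ : ℝ} (hκ0 : 0 ≤ κ)
    (hκ : ∀ a ∈ AZ, κ ≤ dist p a) : min (dist p p') κ ≤ gd (X.off p hp) (X.off p' hp') := by
  have := le_gd (ob2_obs hκ) (X.off p hp) (X.off p' hp')
  change |min (dist p p) κ - min (dist p p') κ| ≤ _ at this
  rw [dist_self, min_eq_left hκ0, zero_sub, abs_neg] at this
  exact (le_abs_self _).trans this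

instance : MetricSpace X where
  dist := gd
  dist_self := by
    intro x
    apply le_antisymm
    · apply gd_le; intro φ _; simp
    · have := le_gd obs_const x x
      simpa using this
  dist_comm := by
    intro x y
    unfold gd
    congr 1
    ext φ
    exact abs_sub_comm _ _
  dist_triangle := by
    intro x y z
    apply gd_le
    intro φ hφ
    have h1 := le_gd hφ x y
    have h2 := le_gd hφ y z
    have h3 := abs_sub_le (φ x) (φ y) (φ z)
    linarith
  eq_of_dist_eq_zero := by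
    intro x y h
    have h : gd x y = 0 := h
    cases x with
    | off p hp =>
      obtain ⟨κ, hκ, hκ2⟩ := away hp
      cases y with
      | off p' hp' =>
        have h1 := le_gd_off_off hp hp' hκ.le hκ2
        rw [h] at h1
        have h2 : dist p p' = 0 := by
          rcases min_choice (dist p p') κ with h3 | h3
          · rw [h3] at h1; exact le_antisymm h1 dist_nonneg
          · rw [h3] at h1; linarith
        have h3 := eq_of_dist_eq_zero h2
        subst h3
        rfl
      | on h0 =>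
        have h1 := le_gd_off_on hp h0 (c := κ) (fun a ha => by
          have := hκ2 a ha
          have : 0 ≤ dist (pr a) h0 := dist_nonneg
          linarith)
        rw [h] at h1
        linarith
    | on h0 =>
      cases y with
      | off p' hp' =>
        obtain ⟨κ, hκ, hκ2⟩ := away hp'
        have h1 := le_gd_off_on hp' h0 (c := κ) (fun a ha => by
          have := hκ2 a ha
          have : 0 ≤ dist (pr a) h0 := dist_nonneg
          linarith)
        have h4 : gd (X.off p' hp') (X.on h0) = gd (X.on h0) (X.off p' hp') := by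
          unfold gd
          congr 1
          ext φ
          exact abs_sub_comm _ _
        rw [h4, h] at h1
        linarith
      | on h1 =>
        rw [gd_on_on] at h
        rw [eq_of_dist_eq_zero h]

lemma dist_X (x y : X) : dist x y = gd x y := rfl

lemma dist_qq_le (p q : Z) : dist (qq p) (qq q) ≤ dist p q := gd_qq_le p q

lemma dist_on_on (h h' : Hh) : dist (X.on h) (X.on h') = dist h h' := gd_on_on h h'

/-- The ray. -/
def HH : Set X := range X.on

lemma off_notMem {p : Z} (hp : p ∉ AZ) : X.off p hp ∉ HH := by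
  rintro ⟨h, hh⟩
  cases hh

lemma on_mem (h : Hh) : X.on h ∈ HH := ⟨h, rfl⟩

lemma continuous_on' : Continuous X.on := by
  apply Isometry.continuous
  exact Isometry.of_dist_eq dist_on_on

lemma isCompact_HH : IsCompact HH := isCompact_range continuous_on'

lemma isClosed_HH : IsClosed HH := isCompact_HH.isClosed

lemma HH_nonempty : HH.Nonempty := ⟨_, on_mem Hh.om⟩

lemma infDist_le_of_mem {p : Z} (hp : p ∉ AZ) {a : Z} (ha : a ∈ AZ) :
    Metric.infDist (X.off p hp) HH ≤ dist p a := by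
  have h1 : Metric.infDist (X.off p hp) HH ≤ dist (X.off p hp) (X.on (pr a)) :=
    Metric.infDist_le_dist_of_mem (on_mem _)
  have h2 := dist_qq_le p a
  rw [qq_on ha, qq_off hp] at h2
  exact h1.trans h2

lemma infDist_pos {x : X} (hx : x ∉ HH) : 0 < Metric.infDist x HH :=
  (isClosed_HH.notMem_iff_infDist_pos HH_nonempty).1 hx

lemma dist_off_le {p p' : Z} (hp : p ∉ AZ) (hp' : p' ∉ AZ) :
    dist (X.off p hp) (X.off p' hp') ≤ dist p p' := by
  have := dist_qq_le p p'
  rwa [qq_off hp, qq_off hp'] at this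

/-- The map is locally isometric off the ray. -/
lemma loc {p p' : Z} (hp : p ∉ AZ) (hp' : p' ∉ AZ)
    (h : dist (X.off p hp) (X.off p' hp') < Metric.infDist (X.off p hp) HH) :
    dist p p' = dist (X.off p hp) (X.off p' hp') := by
  apply le_antisymm _ (dist_off_le hp hp')
  have h1 := le_gd_off_off hp hp' (κ := Metric.infDist (X.off p hp) HH) Metric.infDist_nonneg
    (fun a ha => infDist_le_of_mem hp ha)
  rw [← dist_X] at h1
  rcases min_choice (dist p p') (Metric.infDist (X.off p hp) HH) with h2 | h2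
  · rw [h2] at h1; exact h1
  · rw [h2] at h1; linarith

/-! ### Coordinates -/

/-- A total lift. -/
def lift : X → Z
  | X.off p _ => p
  | X.on _ => baseZ

/-- The height. -/
def yX : X → ℝ
  | X.off p _ => p.c.y
  | X.on (some z) => z
  | X.on none => 0

def omX : X := X.on Hh.om

/-- Points of the ray. -/
def Hp (z : ℝ) : X := X.on (Hh.pt (Real.toNNReal z))

lemma yX_nonneg (x : X) : 0 ≤ yX x := by
  cases x with
  | off p h => exact p.c.hy
  | on h =>
    cases h with
    | none => exact le_rfl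
    | some z => exact z.2

lemma yX_Hp {z : ℝ} (hz : 0 ≤ z) : yX (Hp z) = z := Real.coe_toNNReal z hz

lemma dist_Hp {z z' : ℝ} (hz : 0 ≤ z) (hz' : 0 ≤ z') :
    dist (Hp z) (Hp z') = min |z - z'| (bt z + bt z') := by
  unfold Hp
  rw [dist_on_on, dist_pt_pt, Real.coe_toNNReal z hz, Real.coe_toNNReal z' hz']

lemma dist_Hp_om {z : ℝ} (hz : 0 ≤ z) : dist (Hp z) omX = bt z := by
  unfold Hp omX
  rw [dist_on_on, dist_pt_om, Real.coe_toNNReal z hz]

lemma HH_cases {x : X} (hx : x ∈ HH) : x = omX ∨ ∃ z : ℝ, 0 ≤ z ∧ x = Hp z := by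
  obtain ⟨h, rfl⟩ := hx
  cases h with
  | none => left; rfl
  | some z =>
    right
    refine ⟨z, z.2, ?_⟩
    unfold Hp
    rw [Real.toNNReal_coe]
    rfl

lemma Hp_mem (z : ℝ) : Hp z ∈ HH := on_mem _

lemma lift_off {x : X} (hx : x ∉ HH) : ∃ h : lift x ∉ AZ, x = X.off (lift x) h := by
  cases x with
  | off p h => exact ⟨h, rfl⟩
  | on h => exact absurd (on_mem h) hx

lemma yX_off {x : X} (hx : x ∉ HH) : yX x = (lift x).c.y := by
  cases x with
  | off p h => rfl
  | on h => exact absurd (on_mem h) hx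

lemma qq_lift {x : X} (hx : x ∉ HH) : qq (lift x) = x := by
  cases x with
  | off p h => exact qq_off h
  | on h => exact absurd (on_mem h) hx

lemma qq_Hp {p : Z} (h : p ∈ AZ) : qq p = Hp (max (p.s - 1) p.c.y) := by
  rw [qq_on h]
  unfold Hp pr
  congr 2
  apply NNReal.coe_injective
  rw [Real.coe_toNNReal _ (mx_nonneg p)]
  rfl

/-- Off the ray the strip coordinates satisfy strict inequalities. -/
lemma off_bounds {p : Z} (hp : p ∉ AZ) : p.s < 1 + p.c.y := by
  by_contra h
  push Not at h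
  exact hp (Or.inl h)

lemma dist_om_ge {x : X} (hx : x ≠ omX) {Y : ℝ} (hY : yX x ≤ Y) : bt (Y + 2) ≤ dist x omX := by
  have hY0 : 0 ≤ Y := (yX_nonneg x).trans hY
  cases x with
  | off p hp =>
    apply le_gd_off_on
    intro a ha
    have hb := off_bounds hp
    have hy : p.c.y ≤ Y := hY
    have h1 := abs_s_le p a
    have h2 := neg_abs_le (p.s - a.s)
    have e : dist (pr a) Hh.om = bt (prz a) := rfl
    rw [e]
    have hz : (0:ℝ) ≤ prz a := (prz a).2
    by_cases h3 : (prz a : ℝ) ≤ Y + 2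
    · have := bt_anti hz h3
      have : 0 ≤ dist p a := dist_nonneg
      linarith
    · push Not at h3
      have h4 : (prz a : ℝ) ≤ a.s := by
        rw [prz_coe]
        exact max_le (by linarith) a.hs
      have h5 : bt (Y + 2) ≤ 1 / 8 := bt_le (by linarith)
      have h6 := bt_pos hz
      linarith
  | on h =>
    cases h with
    | none => exact absurd rfl hx
    | some z =>
      have hz : (z:ℝ) ≤ Y := hY
      have h1 : dist (X.on (some z)) omX = bt (z:ℝ) := dist_on_on _ _
      rw [h1]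
      exact bt_anti z.2 (by linarith)

end

end H44LC
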