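import Pool.Agent.H44.LC.Exits

set_option autoImplicit false

open Set Filter Topology
open scoped NNReal

namespace H44LC

noncomputable section

/-- A winning Lion strategy, in real-time form. -/
structure LW {M : Type*} [MetricSpace M] (x y : M) (G : (ℝ → M) → (ℝ → M)) : Prop where
  path : ∀ c, LL c → c 0 = y → LL (G c) ∧ G c 0 = x
  causal : ∀ c c', LL c → c 0 = y → LL c' → c' 0 = y → ∀ t, (∀ s, 0 ≤ s → s ≤ t → c s = c' s) →
    ∀ s, 0 ≤ s → s ≤ t → G c s = G c' s
  win : ∀ c, LL c → c 0 = y → ∃ t, 0 ≤ t ∧ G c t = c t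

lemma he1 : |(1:ℝ)| = 1 := abs_one
lemma hem1 : |(-1:ℝ)| = 1 := by rw [abs_neg, abs_one]

lemma ug_even (j : ℕ) : ug (0 + 2 * j) = 1 - xg (0 + 2 * j) := by
  unfold ug
  rw [zero_add, pow_mul]
  norm_num

lemma ug_odd (j : ℕ) : ug (1 + 2 * j) = -(1 - xg (1 + 2 * j)) := by
  unfold ug
  rw [pow_add, pow_mul]
  norm_num

lemma side_even (j : ℕ) : |1 - ug (0 + 2 * j)| = xg (0 + 2 * j) := by
  rw [ug_even]
  have := xg_pos (0 + 2 * j)
  rw [show (1:ℝ) - (1 - xg (0 + 2 * j)) = xg (0 + 2 * j) by ring, abs_of_pos this]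

lemma side_odd (j : ℕ) : |-1 - ug (1 + 2 * j)| = xg (1 + 2 * j) := by
  rw [ug_odd]
  have := xg_pos (1 + 2 * j)
  rw [show (-1:ℝ) - -(1 - xg (1 + 2 * j)) = -xg (1 + 2 * j) by ring, abs_neg, abs_of_pos this]

lemma side_ne {n : ℕ} (h1 : |1 - ug n| = xg n) (h2 : |-1 - ug n| = xg n) : False := by
  have hx := xg_le n
  have h3 := abs_le.1 h1.le
  have h4 := abs_le.1 h2.le
  linarith

/-- Neither player... part 1: the Lion has no winning strategy. -/
theorem no_lion : ¬ ∃ G, LW (stX (-1) hem1) (stX 1 he1) G := by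
  rintro ⟨G, hG⟩
  have hwk : walk 1 he1 0 = stX 1 he1 := walk_zero he1
  refine no_rigid (γ := G (walk 1 he1)) (e := -1) (he := hem1) 0 (fun j => ?_)
  set n := 0 + 2 * j with hn
  have hside : |1 - ug n| = xg n := side_even j
  set c : ℝ → X := ex 1 he1 n with hc
  have hcL : LL c := ex_LL he1 hside
  have hc0 : c 0 = stX 1 he1 := ex_zero he1
  obtain ⟨hl, hl0⟩ := hG.path c hcL hc0
  obtain ⟨t, ht0, ht⟩ := hG.win c hcL hc0
  -- concatenated path
  set γ : ℝ → X := cat (G c) t (fun s => c (t + s)) with hγ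
  have hsh : LL (fun s => c (t + s)) := by
    intro u v
    have := hcL (t + u) (t + v)
    rwa [show t + u - (t + v) = u - v by ring] at this
  have hj0 : (fun s => c (t + s)) 0 = G c t := by
    simp only [add_zero]; exact ht.symm
  have hγL : LL γ := hl.cat hsh hj0
  have hγ0 : γ 0 = stX (-1) hem1 := by
    rw [hγ, cat_le ht0, hl0]
  have hγge : ∀ s, t ≤ s → γ s = c s := by
    intro s hs
    rw [hγ, cat_ge hj0 hs]
    simp
  set T := max t (A (wt n)) with hT
  have hAw := A_nonneg (show 0 ≤ wt n by linarith [wt_ge n])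
  have hTt : t ≤ T := le_max_left _ _
  have hTA : A (wt n) ≤ T := le_max_right _ _
  have hγT : γ T = Hp (Sg n + (T - A (wt n))) := by
    rw [hγge T hTt, hc, ex_tail he1 hTA]
  have hSg := Sg_pos n
  obtain ⟨m, hnm, hm, hR⟩ := rigid (γ := γ) hγL hγ0 (n := n) (T := T)
    (z := Sg n + (T - A (wt n))) (by linarith) (by linarith) hγT (by rw [A_wt]; linarith)
  have hne : n ≠ m := by
    intro h
    rw [← h] at hm
    exact side_ne hside hm
  have hlt : n < m := lt_of_le_of_ne hnm hne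
  have hxn := xg_le n
  have hxn0 := xg_pos n
  have hxm := xg_le m
  have hxm0 := xg_pos m
  -- capture happens after the gate
  have htg : A (xg n) < t := by
    by_contra hcon
    push Not at hcon
    obtain ⟨_, h1⟩ := hR (xg n) hxn0.le le_rfl
    rw [hγge _ hcon, hc, ex_early he1 hxn0.le le_rfl, (wpt_lift he1 hxn0.le hxn).2] at h1
    have hk : (spF 1 he1 (xg n)).k = 1 - xg n := by
      simp only [spF]
      rw [max_eq_left hxn0.le, min_eq_left (by linarith), one_mul]
    have hum : ug m = -1 * (1 - xg m) := side_eq hem1 hm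
    have hkne : (spF 1 he1 (xg n)).k ≠ (topF m).k := by
      rw [hk]
      change 1 - xg n ≠ ug m
      rw [hum]
      intro h; linarith
    rw [rhat_diff hkne, hk] at h1
    simp only [topF, spF] at h1
    rw [hum, abs_of_pos (by linarith)] at h1
    have h2 : wt m = Sg m + xg m := by unfold Sg; ring
    have h3 : eps n ≤ 1 := by unfold eps; linarith
    linarith
  refine ⟨m, hlt, hm, fun w hw0 hwn => ?_⟩
  have hAwle : A w ≤ A (xg n) := A_mono hw0 hwn
  obtain ⟨h1, h2⟩ := hR w hw0 hwn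
  have h3 : γ (A w) = G (walk 1 he1) (A w) := by
    rw [hγ, cat_le (by linarith)]
    exact hG.causal _ _ hcL hc0 (walk_LL he1) hwk (A (xg n))
      (fun s hs0 hs => ex_eq_walk he1 hs0 hs) (A w) (A_nonneg hw0) hAwle
  rw [h3] at h1 h2
  exact ⟨h1, h2⟩

/-- Part 2: the Christian has no winning strategy. -/
theorem no_christian : ¬ ∃ G, CW (stX (-1) hem1) (stX 1 he1) G := by
  rintro ⟨G, hG⟩
  have hwk : walk (-1) hem1 0 = stX (-1) hem1 := walk_zero hem1
  refine no_rigid (γ := G (walk (-1) hem1)) (e := 1) (he := he1) 1 (fun j => ?_)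
  set n := 1 + 2 * j with hn
  have hside : |-1 - ug n| = xg n := side_odd j
  set l : ℝ → X := ex (-1) hem1 n with hl
  have hlL : LL l := ex_LL hem1 hside
  have hl0 : l 0 = stX (-1) hem1 := ex_zero hem1
  obtain ⟨hg, hg0⟩ := hG.path l hlL hl0
  set g := G l with hgd
  have hav : ∀ t, 0 ≤ t → g t ≠ omX := fun t ht =>
    avoid (γ := g) hg ht (by rw [hg0]; exact stX_ne_om _ _)
  have hAw := A_nonneg (show 0 ≤ wt n by linarith [wt_ge n])
  have hSg := Sg_ge n
  have habove : ∀ t, A (wt n) ≤ t → Sg n + (t - A (wt n)) < yX (g t) := by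
    intro t ht
    by_contra hcon
    push Not at hcon
    have ht0 : 0 ≤ t := hAw.trans ht
    have h1 := restart hG hlL hl0 ht0
    rw [hl, ex_tail hem1 ht] at h1
    exact capture_below (hav t ht0) (by linarith) hcon h1
  have hex : ∃ T, A (wt n) ≤ T ∧ g T ∈ HH := by
    by_contra hcon
    push Not at hcon
    have hstep : ∀ i : ℕ, (lift (g (A (wt n) + i))).c.k = (lift (g (A (wt n)))).c.k := by
      intro i
      induction i with
      | zero => simp
      | succ i ih =>
        rw [← ih]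
        by_contra hne
        have hi : (0:ℝ) ≤ i := Nat.cast_nonneg i
        have h1 := off_rhat (γ := g) hg (a := A (wt n) + i) (b := A (wt n) + (i + 1 : ℕ))
          (fun u hu => hcon u (by linarith [hu.1])) (t := A (wt n) + i)
          (t' := A (wt n) + (i + 1 : ℕ))
          ⟨le_rfl, by push_cast; linarith⟩ ⟨by push_cast; linarith, le_rfl⟩
          (by push_cast; linarith)
        rw [rhat_diff (fun h => hne h.symm)] at h1
        have h2 := habove (A (wt n) + i) (by linarith)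
        rw [yX_off (hcon _ (by linarith))] at h2
        have h3 := (lift (g (A (wt n) + (i + 1 : ℕ)))).c.hy
        have h4 := abs_nonneg ((lift (g (A (wt n) + i))).c.k -
          (lift (g (A (wt n) + (i + 1 : ℕ)))).c.k)
        push_cast at h1 h3 h4
        linarith
    have h0 := habove (A (wt n)) le_rfl
    rw [yX_off (hcon _ le_rfl)] at h0
    rcases (lift (g (A (wt n)))).c.hg with h1 | ⟨m, hm, _⟩
    · linarith
    · obtain ⟨i, hi⟩ := exists_nat_gt (Sg m)
      have hi0 : (0:ℝ) ≤ i := Nat.cast_nonneg i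
      have h2 := habove (A (wt n) + i) (by linarith)
      rw [yX_off (hcon _ (by linarith))] at h2
      have h3 : (lift (g (A (wt n) + i))).c.y ≤ Sg m := by
        rcases (lift (g (A (wt n) + i))).c.hg with h4 | ⟨m', hm', h4⟩
        · rw [h4]; exact (Sg_pos m).le
        · have : m' = m := ug_inj (by rw [← hm', hstep, hm])
          rw [← this]; exact h4
      linarith
  obtain ⟨T, hTA, hTH⟩ := hex
  have hT0 : 0 ≤ T := hAw.trans hTA
  rcases HH_cases hTH with h | ⟨z, hz, hTz⟩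
  · exact absurd h (hav T hT0)
  have hlag := habove T hTA
  rw [hTz, yX_Hp hz, A_wt] at hlag
  obtain ⟨m, hnm, hm, hR⟩ := rigid (γ := g) hg hg0 (n := n) hT0 hz hTz (by linarith)
  have hne : n ≠ m := by
    intro h
    rw [← h] at hm
    exact side_ne hm hside
  refine ⟨m, lt_of_le_of_ne hnm hne, hm, fun w hw0 hwn => ?_⟩
  obtain ⟨h1, h2⟩ := hR w hw0 hwn
  have h3 : g (A w) = G (walk (-1) hem1) (A w) :=
    hG.causal _ _ hlL hl0 (walk_LL hem1) hwk (A (xg n))
      (fun s hs0 hs => ex_eq_walk hem1 hs0 hs) (A w) (A_nonneg hw0) (A_mono hw0 hwn)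
  rw [h3] at h1 h2
  exact ⟨h1, h2⟩

/-! ### Translation to `ℝ≥0` -/

lemma lip_of_LL {γ : ℝ → X} (h : LL γ) : LipschitzWith 1 (fun s : ℝ≥0 => γ s) := by
  apply LipschitzWith.of_dist_le_mul
  intro s s'
  rw [NNReal.coe_one, one_mul]
  exact h s s'

lemma LL_of_lip {γ : ℝ≥0 → X} (h : LipschitzWith 1 γ) : LL (fun t : ℝ => γ t.toNNReal) := by
  intro t t'
  have h1 := h.dist_le_mul t.toNNReal t'.toNNReal
  rw [NNReal.coe_one, one_mul, NNReal.dist_eq, Real.coe_toNNReal', Real.coe_toNNReal'] at h1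
  exact h1.trans (abs_max_sub_max_le_abs t t' 0)

theorem main :
    (¬ ∃ F : (ℝ≥0 → X) → (ℝ≥0 → X),
          (∀ c : ℝ≥0 → X, LipschitzWith 1 c → c 0 = stX 1 he1 →
              LipschitzWith 1 (F c) ∧ F c 0 = stX (-1) hem1) ∧
          (∀ c c' : ℝ≥0 → X, LipschitzWith 1 c → c 0 = stX 1 he1 →
              LipschitzWith 1 c' → c' 0 = stX 1 he1 →
              ∀ t : ℝ≥0, (∀ s, s ≤ t → c s = c' s) → ∀ s, s ≤ t → F c s = F c' s) ∧
          (∀ c : ℝ≥0 → X, LipschitzWith 1 c → c 0 = stX 1 he1 → ∃ t : ℝ≥0, F c t = c t)) ∧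
      (¬ ∃ G : (ℝ≥0 → X) → (ℝ≥0 → X),
          (∀ l : ℝ≥0 → X, LipschitzWith 1 l → l 0 = stX (-1) hem1 →
              LipschitzWith 1 (G l) ∧ G l 0 = stX 1 he1) ∧
          (∀ l l' : ℝ≥0 → X, LipschitzWith 1 l → l 0 = stX (-1) hem1 →
              LipschitzWith 1 l' → l' 0 = stX (-1) hem1 →
              ∀ t : ℝ≥0, (∀ s, s ≤ t → l s = l' s) → ∀ s, s ≤ t → G l s = G l' s) ∧
          (∀ l : ℝ≥0 → X, LipschitzWith 1 l → l 0 = stX (-1) hem1 → ∀ t : ℝ≥0, G l t ≠ l t)) := by
  constructor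
  · rintro ⟨F, hF1, hF2, hF3⟩
    apply no_lion
    refine ⟨fun c t => F (fun s : ℝ≥0 => c s) t.toNNReal, ?_, ?_, ?_⟩
    · intro c hc hc0
      obtain ⟨h1, h2⟩ := hF1 (fun s : ℝ≥0 => c s) (lip_of_LL hc) (by simpa using hc0)
      exact ⟨LL_of_lip h1, by simpa using h2⟩
    · intro c c' hc hc0 hc' hc0' t hag s hs0 hst
      apply hF2 _ _ (lip_of_LL hc) (by simpa using hc0) (lip_of_LL hc') (by simpa using hc0')
        t.toNNReal
      · intro u hu
        have hu' : (u:ℝ) ≤ t := by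
          have := NNReal.coe_le_coe.2 hu
          rwa [Real.coe_toNNReal t (hs0.trans hst)] at this
        exact hag u u.2 hu'
      · exact Real.toNNReal_le_toNNReal hst
    · intro c hc hc0
      obtain ⟨t, ht⟩ := hF3 (fun s : ℝ≥0 => c s) (lip_of_LL hc) (by simpa using hc0)
      refine ⟨t, t.2, ?_⟩
      simpa using ht
  · rintro ⟨G, hG1, hG2, hG3⟩
    apply no_christian
    refine ⟨fun l t => G (fun s : ℝ≥0 => l s) t.toNNReal, ?_, ?_, ?_⟩
    · intro c hc hc0
      obtain ⟨h1, h2⟩ := hG1 (fun s : ℝ≥0 => c s) (lip_of_LL hc) (by simpa using hc0)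
      exact ⟨LL_of_lip h1, by simpa using h2⟩
    · intro c c' hc hc0 hc' hc0' t hag s hs0 hst
      apply hG2 _ _ (lip_of_LL hc) (by simpa using hc0) (lip_of_LL hc') (by simpa using hc0')
        t.toNNReal
      · intro u hu
        have hu' : (u:ℝ) ≤ t := by
          have := NNReal.coe_le_coe.2 hu
          rwa [Real.coe_toNNReal t (hs0.trans hst)] at this
        exact hag u u.2 hu'
      · exact Real.toNNReal_le_toNNReal hst
    · intro l hl hl0 t ht0 hcon
      apply hG3 (fun s : ℝ≥0 => l s) (lip_of_LL hl) (by simpa using hl0) t.toNNReal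
      have hcon' : G (fun s : ℝ≥0 => l s) t.toNNReal = l t := hcon
      rw [hcon', Real.coe_toNNReal t ht0]

end

end H44LC
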