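import Pool.Agent.H44.LC.Cpt

set_option autoImplicit false

open Set Filter Topology
open scoped NNReal

namespace H44LC

noncomputable section

/-- 1-Lipschitz paths (two-sided time). -/
def L1 (γ : ℝ → X) : Prop := ∀ t t', dist (γ t) (γ t') ≤ |t - t'|

lemma L1.rev {γ : ℝ → X} (h : L1 γ) : L1 (fun t => γ (-t)) := by
  intro t t'
  have := h (-t) (-t')
  rwa [show -t - -t' = -(t - t') by ring, abs_neg] at this

lemma L1.continuous {γ : ℝ → X} (h : L1 γ) : Continuous γ := by
  rw [Metric.continuous_iff]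
  intro t e he
  refine ⟨e, he, fun t' ht' => ?_⟩
  rw [Real.dist_eq] at ht'
  exact lt_of_le_of_lt (h t' t) ht'

lemma lift_dist {x y : X} (hx : x ∉ HH) (hy : y ∉ HH) (h : dist x y < Metric.infDist x HH) :
    dist (lift x) (lift y) = dist x y := by
  obtain ⟨h1, h1'⟩ := lift_off hx
  obtain ⟨h2, h2'⟩ := lift_off hy
  rw [h1', h2'] at h
  have := loc h1 h2 h
  rw [← h1', ← h2'] at this
  exact this

/-- On intervals off the ray the path lifts to a 1-Lipschitz path of the strip. -/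
lemma off_lift {γ : ℝ → X} (h : L1 γ) {a b : ℝ} (ho : ∀ t ∈ Icc a b, γ t ∉ HH)
    {t t' : ℝ} (ht : t ∈ Icc a b) (ht' : t' ∈ Icc a b) :
    dist (lift (γ t)) (lift (γ t')) ≤ |t - t'| := by
  have key : ∀ t t', t ∈ Icc a b → t' ∈ Icc a b → t ≤ t' →
      dist (lift (γ t)) (lift (γ t')) ≤ t' - t := by
    intro t t' ht ht' htt
    have := ltg (fun u => lift (γ u)) 1 t t' zero_le_one htt (by
      intro u hu
      have hu' : u ∈ Icc a b := ⟨ht.1.trans hu.1, hu.2.trans ht'.2⟩
      refine ⟨_, infDist_pos (ho u hu'), fun v hv hd => ?_⟩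
      have hv' : v ∈ Icc a b := ⟨ht.1.trans hv.1, hv.2.trans ht'.2⟩
      have h1 := h u v
      rw [abs_sub_comm] at h1
      rw [one_mul, lift_dist (ho u hu') (ho v hv') (lt_of_le_of_lt h1 hd)]
      exact h1)
    rwa [one_mul] at this
  rcases le_total t t' with h1 | h1
  · rw [abs_sub_comm, abs_of_nonneg (sub_nonneg.2 h1)]
    exact key t t' ht ht' h1
  · rw [abs_of_nonneg (sub_nonneg.2 h1), dist_comm]
    exact key t' t ht' ht h1

lemma off_rhat {γ : ℝ → X} (h : L1 γ) {a b : ℝ} (ho : ∀ t ∈ Icc a b, γ t ∉ HH)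
    {t t' : ℝ} (ht : t ∈ Icc a b) (ht' : t' ∈ Icc a b) (htt : t ≤ t') :
    rhat (lift (γ t)).c (lift (γ t')).c ≤ t' - t := by
  apply comb_path (fun u => (lift (γ u)).c) t t' htt
  intro u hu v hv
  have hu' : u ∈ Icc a b := ⟨ht.1.trans hu.1, hu.2.trans ht'.2⟩
  have hv' : v ∈ Icc a b := ⟨ht.1.trans hv.1, hv.2.trans ht'.2⟩
  exact (rho_le_dist _ _).trans (off_lift h ho hu' hv')

lemma exists_lim {f : ℝ → ℝ} {a b : ℝ}
    (h : ∀ t ∈ Ico a b, ∀ t' ∈ Ico a b, |f t - f t'| ≤ |t - t'|) :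
    ∃ L, ∀ t ∈ Ico a b, |f t - L| ≤ b - t := by
  have h1 : LipschitzOnWith 1 f (Ico a b) := by
    apply LipschitzOnWith.of_dist_le_mul
    intro x hx y hy
    rw [Real.dist_eq, Real.dist_eq]
    simpa using h x hx y hy
  obtain ⟨g, hg, hfg⟩ := h1.extend_real
  refine ⟨g b, fun t ht => ?_⟩
  rw [hfg ht]
  have := hg.dist_le_mul t b
  rw [Real.dist_eq, Real.dist_eq, abs_sub_comm t b, abs_of_pos (by linarith [ht.2] : 0 < b - t)] at this
  simpa using this

lemma le_of_end {a b x y C : ℝ} (hab : a < b) (h : ∀ t ∈ Ico a b, x ≤ y + C * (b - t)) : x ≤ y := by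
  by_contra hcon
  push Not at hcon
  set d := (x - y) / (2 * (|C| + 1)) with hd
  have hC := abs_nonneg C
  have hdp : 0 < d := by
    apply div_pos (by linarith) (by linarith)
  set t := max a (b - d) with ht
  have ht1 : t ∈ Ico a b := ⟨le_max_left _ _, max_lt hab (by linarith)⟩
  have h1 := h t ht1
  have h2 : b - t ≤ d := by
    have : b - d ≤ t := le_max_right _ _
    linarith
  have h3 : C * (b - t) ≤ |C| * d := by
    have h4 : 0 < b - t := by linarith [ht1.2]
    calc C * (b - t) ≤ |C| * (b - t) := mul_le_mul_of_nonneg_right (le_abs_self C) h4.le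
      _ ≤ |C| * d := mul_le_mul_of_nonneg_left h2 hC
  have h5 : d * (2 * (|C| + 1)) = x - y := by
    rw [hd]; field_simp
  nlinarith

/-- Behaviour at the first contact with the ray. -/
lemma limit_end {γ : ℝ → X} (h : L1 γ) {a b : ℝ} (hab : a < b) (ho : ∀ t ∈ Ico a b, γ t ∉ HH)
    (hb : γ b ∈ HH) :
    ∃ p : Z, p ∈ AZ ∧ p.s ≤ 1 + p.c.y ∧ γ b = Hp p.c.y ∧
      ∀ t ∈ Ico a b, |(lift (γ t)).s - p.s| ≤ b - t ∧ rhat (lift (γ t)).c p.c ≤ b - t := by
  have hL : ∀ t ∈ Ico a b, ∀ t' ∈ Ico a b, t ≤ t' →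
      dist (lift (γ t)) (lift (γ t')) ≤ |t - t'| ∧
      rhat (lift (γ t)).c (lift (γ t')).c ≤ t' - t := by
    intro t ht t' ht' htt
    have ho' : ∀ u ∈ Icc a t', γ u ∉ HH := fun u hu => ho u ⟨hu.1, lt_of_le_of_lt hu.2 ht'.2⟩
    exact ⟨off_lift h ho' ⟨ht.1, htt⟩ ⟨ht'.1, le_rfl⟩, off_rhat h ho' ⟨ht.1, htt⟩ ⟨ht'.1, le_rfl⟩ htt⟩
  have hs := exists_lim (f := fun t => (lift (γ t)).s) (a := a) (b := b) (by
    intro t ht t' ht'
    rcases le_total t t' with h1 | h1
    · exact (abs_s_le _ _).trans (hL t ht t' ht' h1).1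
    · rw [abs_sub_comm, abs_sub_comm t t']
      exact (abs_s_le _ _).trans (hL t' ht' t ht h1).1)
  have hk := exists_lim (f := fun t => (lift (γ t)).c.k) (a := a) (b := b) (by
    intro t ht t' ht'
    rcases le_total t t' with h1 | h1
    · exact (abs_k_le_rho _ _).trans ((rho_le_dist _ _).trans (hL t ht t' ht' h1).1)
    · rw [abs_sub_comm, abs_sub_comm t t']
      exact (abs_k_le_rho _ _).trans ((rho_le_dist _ _).trans (hL t' ht' t ht h1).1))
  have hy := exists_lim (f := fun t => (lift (γ t)).c.y) (a := a) (b := b) (by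
    intro t ht t' ht'
    rcases le_total t t' with h1 | h1
    · rw [abs_sub_comm t t', abs_of_nonneg (sub_nonneg.2 h1)]
      exact (abs_y_le_rhat _ _).trans (hL t ht t' ht' h1).2
    · rw [abs_sub_comm, abs_of_nonneg (sub_nonneg.2 h1)]
      exact (abs_y_le_rhat _ _).trans (hL t' ht' t ht h1).2)
  obtain ⟨s, hs⟩ := hs
  obtain ⟨k, hk⟩ := hk
  obtain ⟨y, hy⟩ := hy
  have hk1 : |k| ≤ 1 := by
    apply le_of_end (C := 1) hab
    intro t ht
    have h1 := hk t ht
    have h2 := (lift (γ t)).c.hk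
    have h3 : |k| ≤ |(lift (γ t)).c.k| + |k - (lift (γ t)).c.k| := by
      have := abs_add_le (lift (γ t)).c.k (k - (lift (γ t)).c.k)
      simpa using this
    rw [abs_sub_comm] at h3
    linarith
  have hy0 : 0 ≤ y := by
    apply le_of_end (C := 1) hab
    intro t ht
    have h1 := (abs_le.1 (hy t ht)).2
    have := (lift (γ t)).c.hy
    linarith
  have hys : y ≤ s := by
    apply le_of_end (C := 2) hab
    intro t ht
    have h1 := (abs_le.1 (hy t ht)).1
    have h2 := (abs_le.1 (hs t ht)).2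
    have := (lift (γ t)).hs
    linarith
  have hsy : s ≤ 1 + y := by
    apply le_of_end (C := 2) hab
    intro t ht
    have h1 := (abs_le.1 (hy t ht)).2
    have h2 := (abs_le.1 (hs t ht)).1
    obtain ⟨h3, _⟩ := lift_off (ho t ht)
    have := off_bounds h3
    linarith
  -- behaviour of k when y > 0
  have hkey : 0 < y → ∀ t ∈ Ico (max a (b - y / 4)) b, (lift (γ t)).c.k = k := by
    intro hyp t ht
    have hta : t ∈ Ico a b := ⟨(le_max_left _ _).trans ht.1, ht.2⟩
    have htb : b - y / 4 ≤ t := (le_max_right _ _).trans ht.1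
    have hsame : ∀ t' ∈ Ico t b, (lift (γ t)).c.k = (lift (γ t')).c.k := by
      intro t' ht'
      by_contra hne
      have ht'a : t' ∈ Ico a b := ⟨hta.1.trans ht'.1, ht'.2⟩
      have h1 := (hL t hta t' ht'a ht'.1).2
      rw [rhat_diff hne] at h1
      have h2 := (abs_le.1 (hy t hta)).1
      have h3 := (abs_le.1 (hy t' ht'a)).1
      have h4 := abs_nonneg ((lift (γ t)).c.k - (lift (γ t')).c.k)
      have := ht'.1
      linarith
    have h5 : |(lift (γ t)).c.k - k| ≤ 0 := by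
      apply le_of_end (a := t) (b := b) (C := 1) ht.2
      intro t' ht'
      rw [hsame t' ht']
      have := hk t' ⟨hta.1.trans ht'.1, ht'.2⟩
      linarith
    exact sub_eq_zero.1 (abs_eq_zero.1 (le_antisymm h5 (abs_nonneg _)))
  have hg : y = 0 ∨ ∃ n, k = ug n ∧ y ≤ Sg n := by
    rcases hy0.eq_or_lt with h0 | h0
    · left; exact h0.symm
    · right
      set t1 := max a (b - y / 4) with ht1
      have ht1b : t1 < b := max_lt hab (by linarith)
      have h2 := hkey h0 t1 ⟨le_rfl, ht1b⟩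
      have hy1 := (abs_le.1 (hy t1 ⟨le_max_left _ _, ht1b⟩)).1
      have hb1 : b - y / 4 ≤ t1 := le_max_right _ _
      rcases (lift (γ t1)).c.hg with h3 | ⟨n, hn, _⟩
      · linarith
      · refine ⟨n, by rw [← h2, hn], ?_⟩
        apply le_of_end (a := t1) (b := b) (C := 1) ht1b
        intro t' ht'
        have hta : t' ∈ Ico a b := ⟨(le_max_left _ _).trans ht'.1, ht'.2⟩
        have h4 := (abs_le.1 (hy t' hta)).1
        rcases (lift (γ t')).c.hg with h5 | ⟨m, hm, hm2⟩
        · have := Sg_pos n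
          linarith
        · have : m = n := by
            apply ug_inj
            rw [← hm, hkey h0 t' ht', ← h2, hn]
          rw [← this]
          linarith
  set cF : F := ⟨k, y, hk1, hy0, hg⟩ with hcF
  set p : Z := ⟨s, cF, hys⟩ with hp
  have hr2 : ∀ t ∈ Ico (max a (b - y / 4)) b, rhat (lift (γ t)).c cF ≤ 2 * (b - t) := by
    intro t ht
    have hta : t ∈ Ico a b := ⟨(le_max_left _ _).trans ht.1, ht.2⟩
    have h1 := hy t hta
    have h2 := hk t hta
    have h3 : 0 < b - t := by linarith [ht.2]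
    by_cases hkk : (lift (γ t)).c.k = cF.k
    · rw [rhat_same hkk]
      simp only [hcF]
      linarith
    · rcases hy0.eq_or_lt with h0 | h0
      · rw [rhat_diff hkk]
        simp only [hcF]
        have := (abs_le.1 h1).2
        linarith
      · exact absurd (hkey h0 t ht) hkk
  have hmax : max a (b - y / 4) < b ∨ y = 0 := by
    rcases hy0.eq_or_lt with h0 | h0
    · right; exact h0.symm
    · left; exact max_lt hab (by linarith)
  have hr : ∀ t ∈ Ico a b, rhat (lift (γ t)).c cF ≤ b - t := by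
    intro t ht
    rcases hmax with hm | hm
    · set t1 := max t (max a (b - y / 4)) with ht1
      have ht1b : t1 < b := max_lt ht.2 hm
      have : rhat (lift (γ t)).c cF - (b - t) ≤ 0 := by
        apply le_of_end (a := t1) (b := b) (C := 1) ht1b
        intro t' ht'
        have ha' : t' ∈ Ico a b := ⟨ht.1.trans ((le_max_left _ _).trans ht'.1), ht'.2⟩
        have h1 := (hL t ht t' ha' ((le_max_left _ _).trans ht'.1)).2
        have h2 := hr2 t' ⟨(le_max_right _ _).trans ht'.1, ht'.2⟩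
        have h3 := rhat_tri (lift (γ t)).c (lift (γ t')).c cF
        linarith
      linarith
    · have : rhat (lift (γ t)).c cF - (b - t) ≤ 0 := by
        apply le_of_end (a := t) (b := b) (C := 1) ht.2
        intro t' ht'
        have ha' : t' ∈ Ico a b := ⟨ht.1.trans ht'.1, ht'.2⟩
        have h1 := (hL t ht t' ha' ht'.1).2
        have h2 : rhat (lift (γ t')).c cF ≤ 2 * (b - t') := by
          have h1 := hy t' ha'
          have h2 := hk t' ha'
          have h3 : 0 < b - t' := by linarith [ht'.2]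
          by_cases hkk : (lift (γ t')).c.k = cF.k
          · rw [rhat_same hkk]
            simp only [hcF]
            linarith
          · rw [rhat_diff hkk]
            simp only [hcF]
            have := (abs_le.1 h1).2
            linarith
        have h3 := rhat_tri (lift (γ t)).c (lift (γ t')).c cF
        linarith
      linarith
  have hq : γ b = qq p := by
    have : dist (γ b) (qq p) ≤ 0 := by
      apply le_of_end (C := 3) hab
      intro t ht
      have h0 : 0 < b - t := by linarith [ht.2]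
      have h1 := h b t
      rw [abs_of_pos h0] at h1
      have h2 := dist_qq_le (lift (γ t)) p
      rw [qq_lift (ho t ht)] at h2
      have h3 := dist_Z_le (lift (γ t)) p
      have h4 : max |(lift (γ t)).s - p.s| (rho (lift (γ t)).c p.c) ≤ b - t :=
        max_le (hs t ht) ((rho_le_rhat _ _).trans (hr t ht))
      have h5 := dist_triangle (γ b) (γ t) (qq p)
      linarith
    exact dist_le_zero.1 this
  have hpA : p ∈ AZ := by
    by_contra hcon
    rw [hq, qq_off hcon] at hb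
    exact off_notMem hcon hb
  refine ⟨p, hpA, hsy, ?_, fun t ht => ⟨hs t ht, hr t ht⟩⟩
  rw [hq, qq_Hp hpA]
  congr 1
  apply max_eq_right
  change s - 1 ≤ y
  linarith

lemma limit_end_y {γ : ℝ → X} (h : L1 γ) {a b : ℝ} (hab : a < b) (ho : ∀ t ∈ Ico a b, γ t ∉ HH)
    (hb : γ b ∈ HH) : |yX (γ a) - yX (γ b)| ≤ b - a := by
  obtain ⟨p, _, _, hb2, h3⟩ := limit_end h hab ho hb
  rw [hb2, yX_Hp p.c.hy, yX_off (ho a ⟨le_rfl, hab⟩)]
  exact (abs_y_le_rhat _ _).trans (h3 a ⟨le_rfl, hab⟩).2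

lemma limit_start_y {γ : ℝ → X} (h : L1 γ) {a b : ℝ} (hab : a < b) (ho : ∀ t ∈ Ioc a b, γ t ∉ HH)
    (hb : γ a ∈ HH) : |yX (γ a) - yX (γ b)| ≤ b - a := by
  have := limit_end_y h.rev (a := -b) (b := -a) (by linarith)
    (fun t ht => ho (-t) ⟨by linarith [ht.2], by linarith [ht.1]⟩) (by simpa using hb)
  simp only [neg_neg] at this
  rw [abs_sub_comm]
  linarith

lemma ray_right {γ : ℝ → X} (h : L1 γ) {t t' z : ℝ} (htt : t ≤ t') (hz : 0 ≤ z)
    (ht : γ t = Hp z) (hom : ∀ u ∈ Icc t t', γ u ≠ omX) (hb : t' - t < bt z) :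
    |yX (γ t) - yX (γ t')| ≤ t' - t := by
  set I : Set ℝ := {u | u ∈ Icc t t' ∧ γ u ∈ HH} with hI
  have hIc : IsCompact I := by
    apply isCompact_Icc.of_isClosed_subset _ (fun u hu => hu.1)
    exact isClosed_Icc.inter (isClosed_HH.preimage h.continuous)
  have hne : I.Nonempty := ⟨t, ⟨le_rfl, htt⟩, by rw [ht]; exact Hp_mem z⟩
  obtain ⟨τ, hτ⟩ := hIc.exists_isGreatest hne
  have hτ1 := hτ.1.1
  rcases HH_cases hτ.1.2 with h1 | ⟨zτ, hzτ, h1⟩
  · exact absurd h1 (hom τ hτ1)
  have h2 : |yX (γ t) - yX (γ τ)| ≤ τ - t := by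
    rw [ht, h1, yX_Hp hz, yX_Hp hzτ]
    have h3 := h t τ
    rw [ht, h1, dist_Hp hz hzτ, abs_sub_comm t τ,
      abs_of_nonneg (show 0 ≤ τ - t by linarith [hτ1.1])] at h3
    rcases min_choice |z - zτ| (bt z + bt zτ) with h4 | h4
    · rw [h4] at h3; exact h3
    · rw [h4] at h3
      have := bt_pos hzτ
      linarith [hτ1.2]
  rcases hτ1.2.eq_or_lt with h3 | h3
  · rw [← h3]; exact h2
  · have h4 := limit_start_y h h3 (fun u hu => by
      intro hcon
      have := hτ.2 ⟨⟨hτ1.1.trans hu.1.le, hu.2⟩, hcon⟩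
      linarith [hu.1]) hτ.1.2
    have := abs_sub_le (yX (γ t)) (yX (γ τ)) (yX (γ t'))
    linarith

/-- The height is 1-Lipschitz along paths avoiding `ω`. -/
lemma y_lip {γ : ℝ → X} (h : L1 γ) {a b : ℝ} (hab : a ≤ b) (hom : ∀ u ∈ Icc a b, γ u ≠ omX) :
    |yX (γ a) - yX (γ b)| ≤ b - a := by
  have := ltg (fun u => yX (γ u)) 1 a b zero_le_one hab (by
    intro t ht
    by_cases hH : γ t ∈ HH
    · rcases HH_cases hH with h1 | ⟨z, hz, h1⟩
      · exact absurd h1 (hom t ht)
      · refine ⟨bt z, bt_pos hz, fun t' ht' hd => ?_⟩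
        rw [one_mul, Real.dist_eq]
        rcases le_total t t' with h2 | h2
        · rw [abs_of_nonneg (sub_nonneg.2 h2)] at hd ⊢
          exact ray_right h h2 hz h1 (fun u hu => hom u ⟨ht.1.trans hu.1, hu.2.trans ht'.2⟩) hd
        · rw [abs_sub_comm t' t, abs_of_nonneg (sub_nonneg.2 h2)] at hd ⊢
          have h3 := ray_right h.rev (t := -t) (t' := -t') (by linarith) hz (by simpa using h1)
            (fun u hu => hom (-u) ⟨by linarith [hu.2, ht'.1], by linarith [hu.1, ht.2]⟩)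
            (by linarith)
          simp only [neg_neg] at h3
          linarith
    · refine ⟨_, infDist_pos hH, fun t' ht' hd => ?_⟩
      rw [one_mul, Real.dist_eq]
      have hoff : ∀ u, |u - t| < Metric.infDist (γ t) HH → γ u ∉ HH := by
        intro u hu hcon
        have h1 := Metric.infDist_le_dist_of_mem (x := γ t) hcon
        have h2 := h t u
        rw [abs_sub_comm] at h2
        linarith
      rcases le_total t t' with h2 | h2
      · rw [abs_of_nonneg (sub_nonneg.2 h2)] at hd ⊢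
        have ho : ∀ u ∈ Icc t t', γ u ∉ HH := fun u hu => hoff u (by
          rw [abs_of_nonneg (by linarith [hu.1])]; linarith [hu.2])
        rw [yX_off hH, yX_off (ho t' ⟨h2, le_rfl⟩)]
        exact (abs_y_le_rhat _ _).trans (off_rhat h ho ⟨le_rfl, h2⟩ ⟨h2, le_rfl⟩ h2)
      · rw [abs_sub_comm t' t, abs_of_nonneg (sub_nonneg.2 h2)] at hd ⊢
        have ho : ∀ u ∈ Icc t' t, γ u ∉ HH := fun u hu => hoff u (by
          rw [abs_sub_comm, abs_of_nonneg (by linarith [hu.2])]; linarith [hu.1])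
        rw [yX_off hH, yX_off (ho t' ⟨le_rfl, h2⟩), abs_sub_comm]
        exact (abs_y_le_rhat _ _).trans (off_rhat h ho ⟨le_rfl, h2⟩ ⟨h2, le_rfl⟩ h2))
  rwa [Real.dist_eq, one_mul] at this

/-- `ω` is not reached in finite time. -/
lemma avoid {γ : ℝ → X} (h : L1 γ) {a b : ℝ} (hab : a ≤ b) (ha : γ a ≠ omX) : γ b ≠ omX := by
  intro hb
  set I : Set ℝ := {u | u ∈ Icc a b ∧ γ u = omX} with hI
  have hIc : IsCompact I := by
    apply isCompact_Icc.of_isClosed_subset _ (fun u hu => hu.1)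
    exact isClosed_Icc.inter (isClosed_singleton.preimage h.continuous)
  obtain ⟨τ, hτ⟩ := hIc.exists_isLeast ⟨b, ⟨hab, le_rfl⟩, hb⟩
  have hτ1 := hτ.1.1
  have haτ : a < τ := lt_of_le_of_ne hτ1.1 (fun h0 => ha (by rw [h0]; exact hτ.1.2))
  set Y := yX (γ a) + (b - a) with hY
  have hpos : 0 < bt (Y + 2) := bt_pos (by have := yX_nonneg (γ a); linarith)
  have : bt (Y + 2) ≤ 0 := by
    apply le_of_end (C := 1) haτ
    intro t ht
    have hno : ∀ u ∈ Icc a t, γ u ≠ omX := by
      intro u hu hcon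
      have := hτ.2 ⟨⟨hu.1, (hu.2.trans ht.2.le).trans hτ1.2⟩, hcon⟩
      linarith [hu.2, ht.2]
    have h1 := y_lip h ht.1 hno
    have h2 : yX (γ t) ≤ Y := by
      have := (abs_le.1 h1).1
      linarith [ht.2, hτ1.2]
    have h3 := dist_om_ge (hno t ⟨ht.1, le_rfl⟩) h2
    have h4 := h t τ
    rw [hτ.1.2, abs_sub_comm, abs_of_pos (by linarith [ht.2])] at h4
    linarith
  linarith

/-! ### Start points and the clock -/

def stF (e : ℝ) (he : |e| = 1) : F := ⟨e, 0, he.le, le_rfl, Or.inl rfl⟩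
def stZ (e : ℝ) (he : |e| = 1) : Z := ⟨0, stF e he, le_rfl⟩

lemma stZ_notMem (e : ℝ) (he : |e| = 1) : stZ e he ∉ AZ := by
  intro h
  have := one_le_s_of_mem h
  simp only [stZ] at this
  linarith

/-- Start points. -/
def stX (e : ℝ) (he : |e| = 1) : X := qq (stZ e he)

lemma stX_eq (e : ℝ) (he : |e| = 1) : stX e he = X.off (stZ e he) (stZ_notMem e he) :=
  qq_off _

lemma stX_notMem (e : ℝ) (he : |e| = 1) : stX e he ∉ HH := by
  rw [stX_eq]; exact off_notMem _

lemma stX_ne_om (e : ℝ) (he : |e| = 1) : stX e he ≠ omX := by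
  intro h
  have := stX_notMem e he
  rw [h] at this
  exact this (on_mem _)

lemma clock_s {γ : ℝ → X} (h : L1 γ) {e : ℝ} {he : |e| = 1} (h0 : γ 0 = stX e he) {t : ℝ}
    (ht : 0 ≤ t) (ho : ∀ u ∈ Icc 0 t, γ u ∉ HH) : (lift (γ t)).s ≤ W t := by
  have h1 := off_lift h ho ⟨le_rfl, ht⟩ ⟨ht, le_rfl⟩
  have h2 : lift (γ 0) = stZ e he := by rw [h0, stX_eq]; rfl
  rw [h2, dist_Z] at h1
  have h3 := A_sub_le_Dm (r := rho (stZ e he).c (lift (γ t)).c) (stZ e he).s_nonneg
    (lift (γ t)).s_nonneg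
  have h4 : |(0:ℝ) - t| = t := by rw [zero_sub, abs_neg, abs_of_nonneg ht]
  rw [h4] at h1
  have h5 : A (stZ e he).s = 0 := by simp [stZ]
  apply le_of_A_le (W_nonneg _)
  rw [A_W ht]
  linarith

lemma clock_R {γ : ℝ → X} (h : L1 γ) {e : ℝ} {he : |e| = 1} (h0 : γ 0 = stX e he) {t t' : ℝ}
    (ht : 0 ≤ t) (htt : t ≤ t') (ho : ∀ u ∈ Icc 0 t', γ u ∉ HH) :
    rho (lift (γ t)).c (lift (γ t')).c ≤ W t' - W t := by
  have h1 := off_lift h ho ⟨ht, htt⟩ ⟨ht.trans htt, le_rfl⟩
  have h2 := clock_s h h0 ht (fun u hu => ho u ⟨hu.1, hu.2.trans htt⟩)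
  rw [abs_sub_comm, abs_of_nonneg (sub_nonneg.2 htt), dist_Z] at h1
  have h3 := Dm_clock (lift (γ t)).s_nonneg (lift (γ t')).s_nonneg (rho_nonneg _ _) h2
    (W_mono ht htt) (by rw [A_W ht, A_W (ht.trans htt)]; exact h1)
  exact (le_max_right _ _).trans h3

lemma clock_rhat {γ : ℝ → X} (h : L1 γ) {e : ℝ} {he : |e| = 1} (h0 : γ 0 = stX e he) {t t' : ℝ}
    (ht : 0 ≤ t) (htt : t ≤ t') (ho : ∀ u ∈ Icc 0 t', γ u ∉ HH) :
    rhat (lift (γ t)).c (lift (γ t')).c ≤ W t' - W t := by
  have ht' := ht.trans htt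
  have key : ∀ w w', W t ≤ w → w ≤ w' → w' ≤ W t' →
      rho (lift (γ (A w))).c (lift (γ (A w'))).c ≤ w' - w := by
    intro w w' h1 h2 h3
    have hw : 0 ≤ w := (W_nonneg t).trans h1
    have hw' : 0 ≤ w' := hw.trans h2
    have h4 : A w' ≤ t' := by
      have := A_mono hw' h3
      rwa [A_W ht'] at this
    have := clock_R h h0 (A_nonneg hw) (A_mono hw h2) (fun u hu => ho u ⟨hu.1, hu.2.trans h4⟩)
    rwa [W_A hw, W_A hw'] at this
  have := comb_path (fun w => (lift (γ (A w))).c) (W t) (W t') (W_mono ht htt) (by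
    intro w hw w' hw'
    rcases le_total w w' with h1 | h1
    · rw [abs_sub_comm, abs_of_nonneg (sub_nonneg.2 h1)]
      exact key w w' hw.1 h1 hw'.2
    · rw [abs_of_nonneg (sub_nonneg.2 h1), dist_comm]
      exact key w' w hw'.1 h1 hw.2)
  rwa [A_W ht, A_W ht'] at this

def topF (m : ℕ) : F := ⟨ug m, Sg m, by rw [abs_ug]; linarith [xg_pos m], (Sg_pos m).le,
  Or.inr ⟨m, rfl, le_rfl⟩⟩

/-- Rigidity property of a path. -/
def Rig (γ : ℝ → X) (n m : ℕ) : Prop :=
  ∀ w, 0 ≤ w → w ≤ xg n → γ (A w) ∉ HH ∧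
    rhat (lift (γ (A w))).c (topF m) ≤ wt m + eps n - w

lemma ug_side (e : ℝ) (he : |e| = 1) (m : ℕ) : |e - ug m| = xg m ∨ |e - ug m| = 2 - xg m := by
  have hx := xg_le m
  have hx0 := xg_pos m
  have h1 := abs_ug m
  rcases (abs_eq (by norm_num : (0:ℝ) ≤ 1)).1 he with h | h <;>
    rcases (abs_eq (by linarith : (0:ℝ) ≤ 1 - xg m)).1 h1 with h2 | h2 <;> rw [h, h2]
  · left; rw [show (1:ℝ) - (1 - xg m) = xg m by ring]; exact abs_of_pos hx0
  · right; rw [show (1:ℝ) - -(1 - xg m) = 2 - xg m by ring]; exact abs_of_pos (by linarith)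
  · right; rw [show (-1:ℝ) - (1 - xg m) = -(2 - xg m) by ring, abs_neg]
    exact abs_of_pos (by linarith)
  · left; rw [show (-1:ℝ) - -(1 - xg m) = -(xg m) by ring, abs_neg]; exact abs_of_pos hx0

/-- Lemma R. -/
lemma rigid {γ : ℝ → X} (h : L1 γ) {e : ℝ} {he : |e| = 1} (h0 : γ 0 = stX e he) {n : ℕ} {T z : ℝ}
    (hT : 0 ≤ T) (hz : 0 ≤ z) (hTz : γ T = Hp z) (hlag : T - z ≤ al + eps n) :
    ∃ m, n ≤ m ∧ |e - ug m| = xg m ∧ Rig γ n m := by
  set I : Set ℝ := {u | u ∈ Icc 0 T ∧ γ u ∈ HH} with hI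
  have hIc : IsCompact I := by
    apply isCompact_Icc.of_isClosed_subset _ (fun u hu => hu.1)
    exact isClosed_Icc.inter (isClosed_HH.preimage h.continuous)
  obtain ⟨τ, hτ⟩ := hIc.exists_isLeast ⟨T, ⟨hT, le_rfl⟩, by rw [hTz]; exact Hp_mem z⟩
  have hτ1 := hτ.1.1
  have hτ0 : 0 < τ := lt_of_le_of_ne hτ1.1 (fun h1 => stX_notMem e he (by
    rw [← h0, h1]; exact hτ.1.2))
  have hoff : ∀ t ∈ Ico 0 τ, γ t ∉ HH := by
    intro t ht hcon
    have := hτ.2 ⟨⟨ht.1, ht.2.le.trans hτ1.2⟩, hcon⟩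
    linarith [ht.2]
  obtain ⟨p, hpA, hps, hpτ, hlim⟩ := limit_end h hτ0 hoff hτ.1.2
  -- lag at contact
  have hlag2 : τ - p.c.y ≤ al + eps n := by
    have h1 := y_lip h hτ1.2 (fun u hu => avoid h (hτ0.le.trans hu.1) (by
      rw [h0]; exact stX_ne_om e he))
    rw [hpτ, hTz, yX_Hp p.c.hy, yX_Hp hz] at h1
    have := (abs_le.1 h1).1
    linarith
  have heps : eps n ≤ 1 / 256 := by
    have := xg_le n
    unfold eps; linarith
  have hal : al + eps n < 1 := by unfold al; linarith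
  have hsW : p.s ≤ W τ := by
    apply le_of_end (C := 1) hτ0
    intro t ht
    have h1 := (abs_le.1 (hlim t ht).1).1
    have h2 := clock_s h h0 ht.1 (fun u hu => hoff u ⟨hu.1, lt_of_le_of_lt hu.2 ht.2⟩)
    have h3 := W_mono ht.1 ht.2.le
    linarith
  have hcl : ∀ t ∈ Ico 0 τ, rhat (lift (γ t)).c p.c ≤ W τ - W t := by
    intro t ht
    apply le_of_end (a := t) (b := τ) (C := 1) ht.2
    intro t' ht'
    have h1 := clock_rhat h h0 ht.1 ht'.1
      (fun u hu => hoff u ⟨hu.1, lt_of_le_of_lt hu.2 ht'.2⟩)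
    have h2 := (hlim t' ⟨ht.1.trans ht'.1, ht'.2⟩).2
    have h3 := rhat_tri (lift (γ t)).c (lift (γ t')).c p.c
    have h4 := W_mono (ht.1.trans ht'.1) ht'.2.le
    linarith
  have hWτ : W τ ≤ τ := W_le hτ0.le
  rcases hpA with hd | ⟨m, hm1, hm2⟩
  · exfalso
    linarith
  · have hc : p.c = topF m := F.ext hm1 hm2
    have hy : p.c.y = Sg m := hm2
    have hxm := xg_le m
    have hxm0 := xg_pos m
    have h00 := hcl 0 ⟨le_rfl, hτ0⟩
    have hl0 : (lift (γ 0)).c = stF e he := by rw [h0, stX_eq]; rfl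
    have hne : e ≠ ug m := by
      intro hcon
      rw [hcon, abs_ug] at he
      linarith
    rw [hl0, hc, rhat_diff (by exact hne), W_zero, sub_zero] at h00
    simp only [stF, topF] at h00
    rcases ug_side e he m with hside | hside
    · rw [hside] at h00
      have hw : wt m ≤ W τ := by unfold Sg at h00; linarith
      have hwt := wt_ge m
      have hAw : A (wt m) ≤ τ := by
        have := A_mono (by linarith) hw
        rwa [A_W hτ0.le] at this
      rw [A_wt] at hAw
      have hee : eps m ≤ eps n := by linarith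
      have hnm : n ≤ m := by
        by_contra hcon
        push Not at hcon
        have := xg_strictAnti hcon
        unfold eps at hee
        linarith
      refine ⟨m, hnm, hside, fun w hw0 hwn => ?_⟩
      have hxn := xg_le n
      have hlt : A w < τ := by
        have h1 : A w < A (W τ) := A_lt hw0 (by linarith)
        rwa [A_W hτ0.le] at h1
      refine ⟨hoff _ ⟨A_nonneg hw0, hlt⟩, ?_⟩
      have h1 := hcl (A w) ⟨A_nonneg hw0, hlt⟩
      rw [W_A hw0, hc] at h1
      have h2 := A_sub_ge (by linarith) hw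
      rw [A_W hτ0.le, A_wt] at h2
      have h3 := eps_pos m
      linarith
    · exfalso
      rw [hside] at h00
      linarith

/-- No single path can be rigid for all gates of the other side. -/
lemma no_rigid {γ : ℝ → X} {e : ℝ} {he : |e| = 1} (b : ℕ)
    (hR : ∀ j : ℕ, ∃ m, b + 2 * j < m ∧ |e - ug m| = xg m ∧ Rig γ (b + 2 * j) m) : False := by
  choose M hM1 hM2 hM3 using hR
  have hstep : ∀ j, M (j + 1) = M j := by
    intro j
    set n := b + 2 * j with hn
    have hn2 : b + 2 * (j + 1) = n + 2 := by rw [hn]; ring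
    have h1 := hM3 j
    have h2 := hM3 (j + 1)
    rw [hn2] at h2
    rw [← hn] at h1
    have hlt2 : n + 2 < M (j + 1) := by rw [← hn2]; exact hM1 (j + 1)
    set m := M j with hm
    set m' := M (j + 1) with hm'
    have hx0 := xg_pos (n + 2)
    have hx1 : xg (n + 2) = xg n / 4 := by
      rw [show n + 2 = (n + 1) + 1 by ring, xg_succ, xg_succ]; ring
    have hxm' : xg m' ≤ xg (n + 2) / 2 := by
      rw [← xg_succ]; exact xg_anti hlt2
    obtain ⟨_, h3⟩ := h1 (xg (n + 2)) hx0.le (by linarith)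
    obtain ⟨_, h4⟩ := h2 (xg (n + 2)) hx0.le le_rfl
    set c := (lift (γ (A (xg (n + 2))))).c with hc
    have he2 : eps (n + 2) = xg (n + 2) / 16 := rfl
    have he1 : eps n = xg (n + 2) / 4 := by unfold eps; linarith
    have hck : c.k = ug m' := by
      by_contra hne
      rw [rhat_diff (by exact hne)] at h4
      simp only [topF] at h4
      have h5 := abs_nonneg (c.k - ug m')
      have h6 := c.hy
      have h7 : wt m' = Sg m' + xg m' := by unfold Sg; ring
      linarith
    by_contra hne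
    have hne' : c.k ≠ ug m := by
      rw [hck]; intro hcon; exact hne (ug_inj hcon)
    rw [rhat_diff (by exact hne')] at h3
    simp only [topF] at h3
    have h6 := c.hy
    have h7 : wt m = Sg m + xg m := by unfold Sg; ring
    have h8 : xg m - xg m' ≤ |c.k - ug m| := by
      rw [hck, ← hM2 j, ← hM2 (j + 1)]
      have := abs_sub_abs_le_abs_sub (e - ug m) (e - ug m')
      have h9 : (e - ug m) - (e - ug m') = ug m' - ug m := by ring
      rw [h9] at this
      exact this
    linarith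
  have hconst : ∀ j, M j = M 0 := by
    intro j
    induction j with
    | zero => rfl
    | succ j ih => rw [hstep, ih]
  have h1 := hM1 (M 0)
  have h2 := hconst (M 0)
  omega

end

end H44LC
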