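import Mathlib

set_option autoImplicit false

namespace H44LC

noncomputable section

/-- The warp constant. -/
def al : ℝ := 15 / 32

/-- The concave time function. -/
def A (s : ℝ) : ℝ := s + al * s / (1 + s)

/-- Its derivative. -/
def dA (s : ℝ) : ℝ := 1 + al / (1 + s) ^ 2

lemma al_pos : 0 < al := by unfold al; norm_num
lemma al_lt_one : al < 1 := by unfold al; norm_num

@[simp] lemma A_zero : A 0 = 0 := by simp [A]

lemma A_sub {a b : ℝ} (ha : 0 ≤ a) (hb : 0 ≤ b) :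
    A b - A a = (b - a) * (1 + al / ((1 + a) * (1 + b))) := by
  unfold A
  have h1 : (1 + a) ≠ 0 := by positivity
  have h2 : (1 + b) ≠ 0 := by positivity
  field_simp
  ring

lemma A_sub_ge {a b : ℝ} (ha : 0 ≤ a) (hab : a ≤ b) : b - a ≤ A b - A a := by
  rw [A_sub ha (ha.trans hab)]
  have h1 : 0 ≤ al / ((1 + a) * (1 + b)) := by
    have := al_pos
    have hb : 0 ≤ b := ha.trans hab
    positivity
  nlinarith [sub_nonneg.2 hab]

lemma A_sub_le {a b : ℝ} (ha : 0 ≤ a) (hab : a ≤ b) : A b - A a ≤ 2 * (b - a) := by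
  rw [A_sub ha (ha.trans hab)]
  have hb : 0 ≤ b := ha.trans hab
  have h1 : al / ((1 + a) * (1 + b)) ≤ 1 := by
    rw [div_le_one (by positivity)]
    have := al_lt_one
    nlinarith [mul_nonneg ha hb]
  nlinarith [sub_nonneg.2 hab]

lemma A_mono {a b : ℝ} (ha : 0 ≤ a) (hab : a ≤ b) : A a ≤ A b := by
  have := A_sub_ge ha hab
  linarith

lemma A_lt {a b : ℝ} (ha : 0 ≤ a) (hab : a < b) : A a < A b := by
  have := A_sub_ge ha hab.le
  linarith

lemma le_of_A_le {a b : ℝ} (hb : 0 ≤ b) (h : A a ≤ A b) : a ≤ b := by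
  by_contra hcon
  push Not at hcon
  exact absurd h (not_le.2 (A_lt hb hcon))

lemma A_ge {a : ℝ} (ha : 0 ≤ a) : a ≤ A a := by
  have := A_sub_ge le_rfl ha
  simpa using this

lemma A_nonneg {a : ℝ} (ha : 0 ≤ a) : 0 ≤ A a := ha.trans (A_ge ha)

lemma A_le_two {a : ℝ} (ha : 0 ≤ a) : A a ≤ 2 * a := by
  have := A_sub_le le_rfl ha
  simpa using this

lemma A_incr {a b h : ℝ} (ha : 0 ≤ a) (hab : a ≤ b) (hh : 0 ≤ h) :
    A (b + h) - A b ≤ A (a + h) - A a := by
  have hb : 0 ≤ b := ha.trans hab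
  rw [A_sub hb (by linarith), A_sub ha (by linarith)]
  have h1 : al / ((1 + b) * (1 + (b + h))) ≤ al / ((1 + a) * (1 + (a + h))) := by
    apply div_le_div_of_nonneg_left al_pos.le (by positivity)
    apply mul_le_mul <;> linarith
  nlinarith

lemma A_sub_le_dA {a b : ℝ} (ha : 0 ≤ a) (hab : a ≤ b) : A b - A a ≤ dA a * (b - a) := by
  have hb : 0 ≤ b := ha.trans hab
  rw [A_sub ha hb]
  have h1 : al / ((1 + a) * (1 + b)) ≤ al / (1 + a) ^ 2 := by
    apply div_le_div_of_nonneg_left al_pos.le (by positivity)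
    nlinarith
  unfold dA
  nlinarith [sub_nonneg.2 hab]

lemma dA_le_A_sub {a b : ℝ} (ha : 0 ≤ a) (hab : a ≤ b) : dA b * (b - a) ≤ A b - A a := by
  have hb : 0 ≤ b := ha.trans hab
  rw [A_sub ha hb]
  have h1 : al / (1 + b) ^ 2 ≤ al / ((1 + a) * (1 + b)) := by
    apply div_le_div_of_nonneg_left al_pos.le (by positivity)
    nlinarith
  unfold dA
  nlinarith [sub_nonneg.2 hab]

lemma dA_anti {a b : ℝ} (ha : 0 ≤ a) (hab : a ≤ b) : dA b ≤ dA a := by
  unfold dA
  have : al / (1 + b) ^ 2 ≤ al / (1 + a) ^ 2 := by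
    apply div_le_div_of_nonneg_left al_pos.le (by positivity)
    nlinarith
  linarith

lemma one_le_dA {a : ℝ} (ha : 0 ≤ a) : 1 ≤ dA a := by
  unfold dA
  have : 0 ≤ al / (1 + a) ^ 2 := by
    have := al_pos
    positivity
  linarith

lemma dA_pos {a : ℝ} (ha : 0 ≤ a) : 0 < dA a := by
  have := one_le_dA ha
  linarith

lemma dA_le_two {a : ℝ} (ha : 0 ≤ a) : dA a ≤ 2 := by
  unfold dA
  have : al / (1 + a) ^ 2 ≤ 1 := by
    rw [div_le_one (by positivity)]
    have := al_lt_one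
    nlinarith
  linarith

/-- Quantitative strictness of the decrease of `dA`. -/
lemma dA_gap {a b B : ℝ} (ha : 0 ≤ a) (hab : a ≤ b) (hB : b ≤ B) :
    al / (1 + B) ^ 4 * (b - a) ≤ dA a - dA b := by
  have hb : 0 ≤ b := ha.trans hab
  have hBB : 0 ≤ B := hb.trans hB
  unfold dA
  have e : (1 + al / (1 + a) ^ 2) - (1 + al / (1 + b) ^ 2)
      = (b - a) * (al * (2 + a + b) / ((1 + a) ^ 2 * (1 + b) ^ 2)) := by
    have h1 : (1 + a) ≠ 0 := by positivity
    have h2 : (1 + b) ≠ 0 := by positivity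
    field_simp
    ring
  rw [e, mul_comm]
  apply mul_le_mul_of_nonneg_left _ (sub_nonneg.2 hab)
  have h1 : (1 + a) ^ 2 * (1 + b) ^ 2 ≤ (1 + B) ^ 4 := by
    have h3 : (1 + a) ^ 2 ≤ (1 + B) ^ 2 := by
      apply pow_le_pow_left₀ (by positivity); linarith
    have h4 : (1 + b) ^ 2 ≤ (1 + B) ^ 2 := by
      apply pow_le_pow_left₀ (by positivity); linarith
    calc (1 + a) ^ 2 * (1 + b) ^ 2 ≤ (1 + B) ^ 2 * (1 + B) ^ 2 := by
          apply mul_le_mul h3 h4 <;> positivity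
      _ = (1 + B) ^ 4 := by ring
  calc al / (1 + B) ^ 4 ≤ al / ((1 + a) ^ 2 * (1 + b) ^ 2) :=
        div_le_div_of_nonneg_left al_pos.le (by positivity) h1
    _ ≤ al * (2 + a + b) / ((1 + a) ^ 2 * (1 + b) ^ 2) := by
        apply div_le_div_of_nonneg_right _ (by positivity)
        have := al_pos
        nlinarith

lemma continuousOn_A : ContinuousOn A (Set.Ici 0) := by
  unfold A
  apply ContinuousOn.add continuousOn_id
  apply ContinuousOn.div
  · exact (continuous_const.mul continuous_id).continuousOn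
  · exact (continuous_const.add continuous_id).continuousOn
  · intro x hx
    have : (0:ℝ) ≤ x := hx
    positivity

lemma exists_W (t : ℝ) (ht : 0 ≤ t) : ∃ w, 0 ≤ w ∧ A w = t := by
  have h1 : ContinuousOn A (Set.Icc 0 t) := continuousOn_A.mono (fun x hx => hx.1)
  have h2 := intermediate_value_Icc ht h1
  have h3 : t ∈ Set.Icc (A 0) (A t) := ⟨by simpa using ht, A_ge ht⟩
  obtain ⟨w, hw, hw2⟩ := h2 h3
  exact ⟨w, hw.1, hw2⟩

/-- The inverse of `A`. -/
def W (t : ℝ) : ℝ := if h : 0 ≤ t then (exists_W t h).choose else 0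

lemma W_nonneg (t : ℝ) : 0 ≤ W t := by
  unfold W
  split_ifs with h
  · exact (exists_W t h).choose_spec.1
  · exact le_rfl

lemma A_W {t : ℝ} (h : 0 ≤ t) : A (W t) = t := by
  unfold W
  rw [dif_pos h]
  exact (exists_W t h).choose_spec.2

lemma W_A {w : ℝ} (h : 0 ≤ w) : W (A w) = w := by
  have h1 := A_W (A_nonneg h)
  exact le_antisymm (le_of_A_le h h1.le) (le_of_A_le (W_nonneg _) h1.ge)

lemma W_mono {t t' : ℝ} (h : 0 ≤ t) (htt : t ≤ t') : W t ≤ W t' := by
  apply le_of_A_le (W_nonneg _)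
  rw [A_W h, A_W (h.trans htt)]
  exact htt

lemma W_sub_le {t t' : ℝ} (h : 0 ≤ t) (htt : t ≤ t') : W t' - W t ≤ t' - t := by
  have h1 := A_sub_ge (W_nonneg t) (W_mono h htt)
  rwa [A_W h, A_W (h.trans htt)] at h1

lemma W_zero : W 0 = 0 := by
  have := W_A (le_refl (0:ℝ))
  simpa using this

lemma W_le {t : ℝ} (h : 0 ≤ t) : W t ≤ t := by
  have := W_sub_le le_rfl h
  simpa [W_zero] using this

/-- The warped distance. -/
def Dm (s s' r : ℝ) : ℝ := 2 * A ((s + s' + max |s - s'| r) / 2) - A s - A s'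

lemma Dm_comm (s s' r : ℝ) : Dm s s' r = Dm s' s r := by
  unfold Dm
  rw [abs_sub_comm, add_comm s s']
  ring

lemma Dm_aux {s s' r : ℝ} : s ≤ (s + s' + max |s - s'| r) / 2 := by
  have h1 := le_max_left |s - s'| r
  have h2 := le_abs_self (s - s')
  linarith

lemma Dm_aux' {s s' r : ℝ} : s' ≤ (s + s' + max |s - s'| r) / 2 := by
  have h1 := le_max_left |s - s'| r
  have h2 := neg_abs_le (s - s')
  linarith

lemma Dm_tri {s1 s2 s3 r12 r23 r13 : ℝ} (h1 : 0 ≤ s1) (h2 : 0 ≤ s2) (h3 : 0 ≤ s3)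
    (hr : r13 ≤ r12 + r23) :
    Dm s1 s3 r13 ≤ Dm s1 s2 r12 + Dm s2 s3 r23 := by
  set u := (s1 + s2 + max |s1 - s2| r12) / 2 with hu
  set v := (s2 + s3 + max |s2 - s3| r23) / 2 with hv
  have hu1 : s1 ≤ u := Dm_aux
  have hu2 : s2 ≤ u := Dm_aux'
  have hv2 : s2 ≤ v := Dm_aux
  have hv3 : s3 ≤ v := Dm_aux'
  have hR : max |s1 - s3| r13 ≤ max |s1 - s2| r12 + max |s2 - s3| r23 := by
    apply max_le
    · calc |s1 - s3| ≤ |s1 - s2| + |s2 - s3| := abs_sub_le _ _ _
        _ ≤ _ := add_le_add (le_max_left _ _) (le_max_left _ _)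
    · exact hr.trans (add_le_add (le_max_right _ _) (le_max_right _ _))
  have h5 : (s1 + s3 + max |s1 - s3| r13) / 2 ≤ u + v - s2 := by
    rw [hu, hv]; linarith
  have h6 : 0 ≤ (s1 + s3 + max |s1 - s3| r13) / 2 := h1.trans Dm_aux
  have h7 := A_mono h6 h5
  have h8 := A_incr (a := s2) (b := u) (h := v - s2) h2 hu2 (by linarith)
  have e1 : u + (v - s2) = u + v - s2 := by ring
  have e2 : s2 + (v - s2) = v := by ring
  rw [e1, e2] at h8
  unfold Dm
  rw [← hu, ← hv]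
  linarith

lemma R_le_Dm {s s' r : ℝ} (hs : 0 ≤ s) (hs' : 0 ≤ s') : max |s - s'| r ≤ Dm s s' r := by
  unfold Dm
  have h1 := A_sub_ge hs (Dm_aux (s := s) (s' := s') (r := r))
  have h2 := A_sub_ge hs' (Dm_aux' (s := s) (s' := s') (r := r))
  linarith

lemma Dm_le {s s' r : ℝ} (hs : 0 ≤ s) (hs' : 0 ≤ s') : Dm s s' r ≤ 2 * max |s - s'| r := by
  unfold Dm
  have h1 := A_sub_le hs (Dm_aux (s := s) (s' := s') (r := r))
  have h2 := A_sub_le hs' (Dm_aux' (s := s) (s' := s') (r := r))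
  linarith

lemma A_sub_le_Dm {s s' r : ℝ} (hs : 0 ≤ s) (hs' : 0 ≤ s') : A s' - A s ≤ Dm s s' r := by
  unfold Dm
  have h1 := A_mono hs (Dm_aux (s := s) (s' := s') (r := r))
  have h2 := A_mono hs' (Dm_aux' (s := s) (s' := s') (r := r))
  linarith

lemma Dm_eq {s s' r : ℝ} (hss : s ≤ s') (hr : r ≤ s' - s) : Dm s s' r = A s' - A s := by
  unfold Dm
  have h1 : |s - s'| = s' - s := by rw [abs_sub_comm]; exact abs_of_nonneg (by linarith)
  rw [h1, max_eq_left hr]
  have : (s + s' + (s' - s)) / 2 = s' := by ring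
  rw [this]
  ring

/-- Passing to the clock in which the outward motion has speed one. -/
lemma Dm_clock {s s' r w w' : ℝ} (hs : 0 ≤ s) (hs' : 0 ≤ s') (hr : 0 ≤ r) (hsw : s ≤ w)
    (hw : w ≤ w') (h : Dm s s' r ≤ A w' - A w) : max |s - s'| r ≤ w' - w := by
  set u := (s + s' + max |s - s'| r) / 2 with hu
  have hu1 : s ≤ u := Dm_aux
  have hu2 : s' ≤ u := Dm_aux'
  have hR : max |s - s'| r = (u - s) + (u - s') := by rw [hu]; ring
  have h1 := A_incr (a := s) (b := w) (h := u - s) hs hsw (by linarith)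
  have h2 := A_incr (a := s') (b := w + (u - s)) (h := u - s') hs' (by linarith) (by linarith)
  have e1 : s + (u - s) = u := by ring
  have e2 : s' + (u - s') = u := by ring
  rw [e1] at h1
  rw [e2] at h2
  have h3 : A (w + (u - s) + (u - s')) ≤ A w' := by
    unfold Dm at h
    rw [← hu] at h
    linarith
  have h4 := le_of_A_le (by linarith) h3
  rw [hR]
  linarith

/-- Speed bound. -/
lemma Dm_speed {s s' r t : ℝ} (hs : 0 ≤ s) (hs' : 0 ≤ s') (h : Dm s s' r ≤ t) :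
    max |s - s'| r * dA (s + t) ≤ t := by
  set u := (s + s' + max |s - s'| r) / 2 with hu
  have hu1 : s ≤ u := Dm_aux
  have hu2 : s' ≤ u := Dm_aux'
  have hR0 : max |s - s'| r ≤ t := (R_le_Dm hs hs').trans h
  have hR : max |s - s'| r = (u - s) + (u - s') := by rw [hu]; ring
  have h1 := dA_le_A_sub hs hu1
  have h2 := dA_le_A_sub hs' hu2
  have h3 : dA (s + t) ≤ dA u := by
    apply dA_anti (hs.trans hu1)
    have : |s - s'| ≤ t := (le_max_left _ _).trans hR0
    linarith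
  have h4 : 0 ≤ max |s - s'| r := (abs_nonneg _).trans (le_max_left _ _)
  have h5 : max |s - s'| r * dA (s + t) ≤ max |s - s'| r * dA u :=
    mul_le_mul_of_nonneg_left h3 h4
  have h6 : max |s - s'| r * dA u ≤ Dm s s' r := by
    rw [hR]
    unfold Dm
    rw [← hu]
    nlinarith
  linarith

end

end H44LC
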