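import Pool.Agent.H44.LC.Comb

set_option autoImplicit false

open Set
open scoped NNReal

namespace H44LC

noncomputable section

/-! ### The compactified ray -/

def bt (z : ℝ) : ℝ := 1 / (8 * (1 + z))

lemma bt_pos {z : ℝ} (hz : 0 ≤ z) : 0 < bt z := by unfold bt; positivity

lemma bt_anti {z z' : ℝ} (hz : 0 ≤ z) (h : z ≤ z') : bt z' ≤ bt z := by
  unfold bt
  apply one_div_le_one_div_of_le (by positivity)
  linarith

lemma bt_le {z : ℝ} (hz : 0 ≤ z) : bt z ≤ 1 / 8 := by
  have := bt_anti le_rfl hz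
  have h0 : bt 0 = 1 / 8 := by unfold bt; norm_num
  linarith

lemma bt_sub_le {z z' : ℝ} (hz : 0 ≤ z) (h : z ≤ z') : bt z - bt z' ≤ z' - z := by
  unfold bt
  have hz' : 0 ≤ z' := hz.trans h
  have e : 1 / (8 * (1 + z)) - 1 / (8 * (1 + z')) = (z' - z) * (1 / (8 * (1 + z) * (1 + z'))) := by
    have h1 : (1 + z) ≠ 0 := by positivity
    have h2 : (1 + z') ≠ 0 := by positivity
    field_simp
    ring
  rw [e]
  have h3 : 1 / (8 * (1 + z) * (1 + z')) ≤ 1 := by
    rw [div_le_one (by positivity)]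
    nlinarith [mul_nonneg hz hz']
  nlinarith

lemma bt_lip {z z' : ℝ} (hz : 0 ≤ z) (hz' : 0 ≤ z') : bt z ≤ |z - z'| + bt z' := by
  rcases le_total z z' with h | h
  · have := bt_sub_le hz h
    rw [abs_sub_comm, abs_of_nonneg (sub_nonneg.2 h)]
    linarith
  · have := bt_anti hz' h
    have := abs_nonneg (z - z')
    linarith

/-- The compactified ray. -/
def Hh : Type := Option ℝ≥0

def Hh.pt (z : ℝ≥0) : Hh := some z
def Hh.om : Hh := none

def hdist : Hh → Hh → ℝ
  | some z, some z' => min |(z:ℝ) - z'| (bt z + bt z')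
  | some z, none => bt z
  | none, some z => bt z
  | none, none => 0

instance : MetricSpace Hh where
  dist := hdist
  dist_self := by
    rintro (_ | z)
    · rfl
    · have := bt_pos z.2
      simp only [hdist, sub_self, abs_zero]
      exact min_eq_left (by positivity)
  dist_comm := by
    rintro (_ | z) (_ | z')
    · rfl
    · rfl
    · rfl
    · simp only [hdist]
      rw [abs_sub_comm, add_comm]
  dist_triangle := by
    rintro (_ | z1) (_ | z2) (_ | z3) <;> simp only [hdist]
    · simp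
    · simp
    · have := bt_pos z2.2
      positivity
    · have h1 := bt_lip z3.2 z2.2
      have h3 := bt_pos z2.2
      rcases min_choice |(z2:ℝ) - z3| (bt z2 + bt z3) with h | h
      · rw [h]; rw [abs_sub_comm] at h1; change bt (z3:ℝ) ≤ _ at h1
        change _ ≤ bt (z2:ℝ) + _
        have h1' : bt (z3:ℝ) ≤ |(z2:ℝ) - z3| + bt z2 := h1
        linarith
      · rw [h]
        have h3' : 0 < bt (z2:ℝ) := h3
        linarith
    · simp
    · have h2 : 0 < bt (z1:ℝ) := bt_pos z1.2
      have h3 : 0 < bt (z3:ℝ) := bt_pos z3.2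
      exact min_le_right _ _
    · have h1 : bt (z1:ℝ) ≤ |(z1:ℝ) - z2| + bt z2 := bt_lip z1.2 z2.2
      have h3 : 0 < bt (z2:ℝ) := bt_pos z2.2
      rcases min_choice |(z1:ℝ) - z2| (bt z1 + bt z2) with h | h
      · rw [h]; linarith
      · rw [h]; linarith
    · have h1 : bt (z1:ℝ) ≤ |(z1:ℝ) - z2| + bt z2 := bt_lip z1.2 z2.2
      have h3 : bt (z3:ℝ) ≤ |(z3:ℝ) - z2| + bt z2 := bt_lip z3.2 z2.2
      have h4 : 0 < bt (z2:ℝ) := bt_pos z2.2
      have h5 : 0 < bt (z1:ℝ) := bt_pos z1.2
      have h6 : 0 < bt (z3:ℝ) := bt_pos z3.2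
      have h7 : |(z1:ℝ) - z3| ≤ |(z1:ℝ) - z2| + |(z2:ℝ) - z3| := abs_sub_le _ _ _
      rw [abs_sub_comm (z3:ℝ)] at h3
      have ha := min_le_left |(z1:ℝ) - z3| (bt z1 + bt z3)
      have hb := min_le_right |(z1:ℝ) - z3| (bt z1 + bt z3)
      rcases min_choice |(z1:ℝ) - z2| (bt z1 + bt z2) with h | h <;>
        rcases min_choice |(z2:ℝ) - z3| (bt z2 + bt z3) with h' | h' <;>
        rw [h, h'] <;> linarith
  eq_of_dist_eq_zero := by
    rintro (_ | z) (_ | z') h
    · rfl
    · have h : bt (z':ℝ) = 0 := h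
      have h3 : 0 < bt (z':ℝ) := bt_pos z'.2
      linarith
    · have h : bt (z:ℝ) = 0 := h
      have h3 : 0 < bt (z:ℝ) := bt_pos z.2
      linarith
    · have h : min |(z:ℝ) - z'| (bt z + bt z') = 0 := h
      have h3 : 0 < bt (z:ℝ) := bt_pos z.2
      have h4 : 0 < bt (z':ℝ) := bt_pos z'.2
      rcases min_choice |(z:ℝ) - z'| (bt z + bt z') with h5 | h5
      · rw [h5] at h
        have : (z:ℝ) = z' := sub_eq_zero.1 (abs_eq_zero.1 h)
        exact congrArg some (NNReal.coe_injective this)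
      · rw [h5] at h
        linarith

lemma dist_pt_pt (z z' : ℝ≥0) : dist (Hh.pt z) (Hh.pt z') = min |(z:ℝ) - z'| (bt z + bt z') := rfl
lemma dist_pt_om (z : ℝ≥0) : dist (Hh.pt z) Hh.om = bt z := rfl

/-- Compactness from compactness away from small balls. -/
lemma compact_of_near {M : Type*} [MetricSpace M] (w : M)
    (h : ∀ e > 0, ∃ K : Set M, IsCompact K ∧ ∀ x, x ∈ K ∨ dist x w < e) : CompactSpace M := by
  constructor
  rw [isCompact_iff_ultrafilter_le_nhds]
  intro f _
  by_cases hf : ∀ e > 0, Metric.ball w e ∈ f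
  · refine ⟨w, mem_univ _, ?_⟩
    rw [Metric.nhds_basis_ball.ge_iff]
    exact hf
  · push Not at hf
    obtain ⟨e, he, hf⟩ := hf
    obtain ⟨K, hK, hx⟩ := h e he
    have h1 : K ∈ f := by
      have h2 : (Metric.ball w e)ᶜ ∈ f := Ultrafilter.compl_mem_iff_notMem.2 hf
      refine Filter.mem_of_superset h2 (fun x hxx => ?_)
      rcases hx x with h3 | h3
      · exact h3
      · exact absurd h3 hxx
    rw [isCompact_iff_ultrafilter_le_nhds] at hK
    obtain ⟨x, _, hx2⟩ := hK f (Filter.le_principal_iff.2 h1)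
    exact ⟨x, mem_univ _, hx2⟩

lemma continuous_pt : Continuous Hh.pt := by
  rw [Metric.continuous_iff]
  intro z e he
  refine ⟨e, he, fun z' hz' => ?_⟩
  rw [dist_pt_pt]
  exact lt_of_le_of_lt (min_le_left _ _) hz'

instance : CompactSpace Hh := by
  apply compact_of_near Hh.om
  intro e he
  refine ⟨Hh.pt '' Icc 0 (Real.toNNReal (1 / e)), isCompact_Icc.image continuous_pt, ?_⟩
  rintro (_ | z)
  · right
    change dist Hh.om Hh.om < e
    simpa using he
  · by_cases hz : z ≤ Real.toNNReal (1 / e)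
    · left
      exact ⟨z, ⟨zero_le, hz⟩, rfl⟩
    · right
      change bt (z:ℝ) < e
      push Not at hz
      have h1 : 1 / e < z := by
        have := (Real.toNNReal_lt_iff_lt_coe (by positivity)).1 hz
        exact this
      unfold bt
      rw [div_lt_iff₀ (by positivity)] at h1 ⊢
      have := z.2
      change 0 ≤ (z:ℝ) at this
      nlinarith

/-! ### The strip -/

@[ext]
structure Z where
  s : ℝ
  c : F
  hs : c.y ≤ s

lemma Z.s_nonneg (p : Z) : 0 ≤ p.s := p.c.hy.trans p.hs

instance : MetricSpace Z where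
  dist p q := Dm p.s q.s (rho p.c q.c)
  dist_self := by
    intro p
    rw [rho_self, Dm_eq le_rfl (by simp)]
    ring
  dist_comm := by
    intro p q
    rw [rho_comm, Dm_comm]
  dist_triangle := by
    intro p q r
    exact Dm_tri p.s_nonneg q.s_nonneg r.s_nonneg (rho_tri _ _ _)
  eq_of_dist_eq_zero := by
    intro p q h
    have h1 := R_le_Dm (r := rho p.c q.c) p.s_nonneg q.s_nonneg
    rw [h] at h1
    have h2 : |p.s - q.s| = 0 := le_antisymm ((le_max_left _ _).trans h1) (abs_nonneg _)
    have h3 : rho p.c q.c = 0 := le_antisymm ((le_max_right _ _).trans h1) (rho_nonneg _ _)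
    exact Z.ext (sub_eq_zero.1 (abs_eq_zero.1 h2)) (eq_of_dist_eq_zero (show dist p.c q.c = 0 from h3))

lemma dist_Z (p q : Z) : dist p q = Dm p.s q.s (rho p.c q.c) := rfl

lemma abs_s_le (p q : Z) : |p.s - q.s| ≤ dist p q :=
  (le_max_left _ _).trans (R_le_Dm p.s_nonneg q.s_nonneg)

lemma rho_le_dist (p q : Z) : rho p.c q.c ≤ dist p q :=
  (le_max_right _ _).trans (R_le_Dm p.s_nonneg q.s_nonneg)

lemma dist_Z_le (p q : Z) : dist p q ≤ 2 * max |p.s - q.s| (rho p.c q.c) :=
  Dm_le p.s_nonneg q.s_nonneg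

/-- The glued set. -/
def AZ : Set Z := {p | 1 + p.c.y ≤ p.s ∨ ∃ n, p.c.k = ug n ∧ p.c.y = Sg n}

lemma mx_nonneg (p : Z) : 0 ≤ max (p.s - 1) p.c.y := p.c.hy.trans (le_max_right _ _)

/-- The gluing map. -/
def prz (p : Z) : ℝ≥0 := ⟨max (p.s - 1) p.c.y, mx_nonneg p⟩

def pr (p : Z) : Hh := Hh.pt (prz p)

lemma prz_coe (p : Z) : (prz p : ℝ) = max (p.s - 1) p.c.y := rfl

lemma bt_half {n : ℕ} {z : ℝ} (hz : Sg n - 2 ≤ z) : bt z ≤ xg n / 2 := by
  have h1 := two_xg_mul n
  have h2 := xg_pos n
  have h3 := xg_le n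
  have h4 := Sg_ge n
  unfold bt
  rw [div_le_iff₀ (by linarith)]
  have h5 : wt n = Sg n + xg n := by unfold Sg; ring
  rw [h5] at h1
  nlinarith

lemma pr_lip_aux {p q : Z} (hq : q ∈ AZ) (h : (prz p : ℝ) ≤ prz q) :
    dist (pr p) (pr q) ≤ dist p q := by
  unfold pr
  rw [dist_pt_pt, abs_sub_comm, abs_of_nonneg (sub_nonneg.2 h)]
  have hp1 : p.s - 1 ≤ prz p := le_max_left _ _
  have hp2 : p.c.y ≤ prz p := le_max_right _ _
  by_cases hd : 1 + q.c.y ≤ q.s
  · have h1 : (prz q : ℝ) = q.s - 1 := by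
      rw [prz_coe]; exact max_eq_left (by linarith)
    apply (min_le_left _ _).trans
    rw [h1]
    have := abs_s_le p q
    have := neg_abs_le (p.s - q.s)
    linarith
  · rcases hq with hq | ⟨n, hk, hy⟩
    · exact absurd hq hd
    · push Not at hd
      have h1 : (prz q : ℝ) = Sg n := by
        rw [prz_coe, ← hy]; exact max_eq_right (by linarith)
      rw [h1] at h ⊢
      have hqs := q.hs
      have hb1 : bt (prz p : ℝ) ≤ 1 / 8 := bt_le (prz p).2
      have hb2 : bt (Sg n) ≤ 1 / 8 := bt_le (Sg_pos n).le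
      by_cases hfar : (prz p : ℝ) < Sg n - 2
      · apply (min_le_right _ _).trans
        have := abs_s_le p q
        have := neg_abs_le (p.s - q.s)
        rw [hy] at hqs
        linarith
      · push Not at hfar
        have hb3 := bt_half hfar
        have hb4 : bt (Sg n) ≤ xg n / 2 := bt_half (by linarith)
        have hr := rho_le_dist p q
        have h5 := xg_le n
        have h6 := Sg_ge n
        by_cases hkk : p.c.k = q.c.k
        · rw [rho_same hkk, hkk, hk, dl_ug, hy] at hr
          rcases min_choice |p.c.y - Sg n| (xg n) with h7 | h7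
          · rw [h7] at hr
            apply (min_le_left _ _).trans
            have := neg_abs_le (p.c.y - Sg n)
            linarith
          · rw [h7] at hr
            apply (min_le_right _ _).trans
            linarith
        · rw [rho_diff hkk, hk, dl_ug, hy, min_eq_right (by linarith : xg n ≤ Sg n)] at hr
          have := mn_nonneg p.c
          have := abs_nonneg (p.c.k - ug n)
          apply (min_le_right _ _).trans
          linarith

lemma pr_lip {p q : Z} (hp : p ∈ AZ) (hq : q ∈ AZ) : dist (pr p) (pr q) ≤ dist p q := by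
  rcases le_total (prz p : ℝ) (prz q) with h | h
  · exact pr_lip_aux hq h
  · rw [dist_comm, dist_comm p q]
    exact pr_lip_aux hp h

lemma one_le_s_of_mem {a : Z} (ha : a ∈ AZ) : 1 ≤ a.s := by
  rcases ha with h | ⟨n, _, h⟩
  · have := a.c.hy
    linarith
  · have := a.hs
    have := Sg_ge n
    linarith

lemma away {p : Z} (hp : p ∉ AZ) : ∃ κ > 0, ∀ a ∈ AZ, κ ≤ dist p a := by
  have hp1 : p.s < 1 + p.c.y := by
    by_contra h
    push Not at h
    exact hp (Or.inl h)
  rcases p.c.hg with h0 | ⟨n, hk, hy⟩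
  · refine ⟨1 - p.s, by linarith, fun a ha => ?_⟩
    have h1 := one_le_s_of_mem ha
    have h2 := abs_s_le p a
    have := neg_abs_le (p.s - a.s)
    linarith
  · by_cases h0 : p.c.y = 0
    · refine ⟨1 - p.s, by linarith, fun a ha => ?_⟩
      have h1 := one_le_s_of_mem ha
      have h2 := abs_s_le p a
      have := neg_abs_le (p.s - a.s)
      linarith
    have hypos : 0 < p.c.y := lt_of_le_of_ne p.c.hy (Ne.symm h0)
    have hlt : p.c.y < Sg n := lt_of_le_of_ne hy (fun h => hp (Or.inr ⟨n, hk, h⟩))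
    have hx := xg_pos n
    refine ⟨min (min p.c.y (xg n)) (min ((1 + p.c.y - p.s) / 2) (Sg n - p.c.y)), ?_, fun a ha => ?_⟩
    · apply lt_min (lt_min hypos hx) (lt_min (by linarith) (by linarith))
    · by_contra hcon
      push Not at hcon
      have h1 := lt_of_lt_of_le hcon (min_le_left _ _)
      have h2 := lt_of_lt_of_le hcon ((min_le_right _ _).trans (min_le_left _ _))
      have h3 := lt_of_lt_of_le hcon ((min_le_right _ _).trans (min_le_right _ _))
      have h4 := rho_le_dist p a
      have h5 : rho p.c a.c < min p.c.y (dl p.c.k) := by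
        rw [hk, dl_ug]; linarith
      obtain ⟨h6, h7⟩ := near_tooth h5
      have h8 := abs_s_le p a
      have h9 := neg_abs_le (p.s - a.s)
      have h10 := le_abs_self (p.c.y - a.c.y)
      have h11 := neg_abs_le (p.c.y - a.c.y)
      rcases ha with ha | ⟨m, hm, hm2⟩
      · linarith
      · have : m = n := by
          apply ug_inj; rw [← hm, h6, hk]
        subst this
        linarith

end

end H44LC
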